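import Pool.Agent.H47.SF.Der

/-!
# [H47 SF GD] displacement of the image (Lemma G)

PROOF. `P = ch X.1 u`, `Q = ch X.2 u`, `(P0, Q0) = FF X u`, `ν = nuF X u > 0`. Put `q(t) = (P(t) conj P0 + Q(t) conj Q0) / ν` and
`p(t) = (P0 Q(t) - Q0 P(t)) / ν`. Then `|p|^2 + |q|^2 = |Φ|^2` (identity, as `|P0|^2 + |Q0|^2 = ν^2`), `q(0) = ν`, `p(0) = 0`,
`|q(t)| ≥ (1 - θ) ν` (Cauchy-Schwarz for `q(t) - q(0)`), and `q p' - p q' = P Q' - Q P' = Wc X u t` (same identity, `Wc_eq`). So `G = p / q` is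
holomorphic on `‖t‖ ≤ r` (closed ball, or every smaller ball) with `G' = Wc / q^2`, `|G'| ≤ w / ((1-θ)^2 ν^2)`; mean value inequality on the segment from `0` to `t`:
`|G(t)| ≤ w ‖t‖ / ((1-θ)^2 ν^2)`. Finally `‖wd (Φ t) (Φ 0)‖ = ν |p| = ν |G| |q| ≤ ν |G| |Φ t|`.
-/

set_option autoImplicit false

open Finset
open Pool.H70.SF

namespace Pool.Agent.H47.SF

private theorem gd_pp (v : ℂ × ℂ) : n2 (pp v) = n2 v := by
  simp only [n2, pp, norm_neg, RCLike.norm_conj]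
  ring

private theorem gd_wd (a v : ℂ × ℂ) : ‖wd a (pp v)‖ ≤ Real.sqrt (n2 a) * Real.sqrt (n2 v) := by
  have h := wd_cs' a (pp v)
  rwa [gd_pp] at h

theorem gd {d : ℕ} (hd : 1 ≤ d) {X : CV d} {u : ℂ × ℂ} (hu : IsU u) (hν : 0 < nuF X u) {r w θ : ℝ}
    (hθ : θ < 1) (hc : ∀ t : ℂ, ‖t‖ ≤ r → Real.sqrt (n2 (FF X (u + t • pp u) - FF X u)) ≤ θ * nuF X u)
    (hW : ∀ t : ℂ, ‖t‖ ≤ r → ‖Wc X u t‖ ≤ w) {t : ℂ} (ht : ‖t‖ ≤ r) :
    ‖wd (FF X (u + t • pp u)) (FF X u)‖ ≤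
      w / ((1 - θ) ^ 2 * nuF X u ^ 2) * ‖t‖ * (nuF X (u + t • pp u) * nuF X u) := by
  set ν := nuF X u with hνd
  set P : ℂ → ℂ := ch X.1 u with hP
  set Q : ℂ → ℂ := ch X.2 u with hQ
  set P0 : ℂ := hev X.1 u with hP0
  set Q0 : ℂ := hev X.2 u with hQ0
  have hΦ : ∀ s, FF X (u + s • pp u) = (P s, Q s) := fun s => rfl
  have hΦ0 : FF X u = (P0, Q0) := rfl
  have hν2 : n2 (FF X u) = ν ^ 2 := (nuF_sq X u).symm
  have hsν : Real.sqrt (n2 (FF X u)) = ν := rfl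
  set q : ℂ → ℂ := fun s => wd (FF X (u + s • pp u)) (pp (FF X u)) with hq
  set p : ℂ → ℂ := fun s => wd (FF X u) (FF X (u + s • pp u)) with hp
  have hq' : ∀ s, q s = P s * (starRingEnd ℂ) P0 + Q s * (starRingEnd ℂ) Q0 := by
    intro s
    show wd (P s, Q s) (pp (P0, Q0)) = _
    simp only [wd, pp]
    ring
  have hp' : ∀ s, p s = P0 * Q s - Q0 * P s := fun s => rfl
  have hself : wd (FF X u) (pp (FF X u)) = ((ν ^ 2 : ℝ) : ℂ) := by
    rw [← hν2, hΦ0]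
    simp only [wd, pp, n2]
    push_cast
    rw [← Complex.mul_conj', ← Complex.mul_conj']
    ring
  have hqlow : ∀ s : ℂ, ‖s‖ ≤ r → (1 - θ) * ν ^ 2 ≤ ‖q s‖ := by
    intro s hs
    have h1 : q s - ((ν ^ 2 : ℝ) : ℂ) = wd (FF X (u + s • pp u) - FF X u) (pp (FF X u)) := by
      rw [← hself]
      simp only [hq, wd, Prod.fst_sub, Prod.snd_sub]
      ring
    have h2 := gd_wd (FF X (u + s • pp u) - FF X u) (FF X u)
    rw [← h1, hsν] at h2
    have h3 := mul_le_mul_of_nonneg_right (hc s hs) hν.le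
    have h4 : ‖((ν ^ 2 : ℝ) : ℂ)‖ = ν ^ 2 := by
      rw [Complex.norm_real, Real.norm_of_nonneg (by positivity)]
    have h5 := norm_sub_norm_le ((ν ^ 2 : ℝ) : ℂ) (((ν ^ 2 : ℝ) : ℂ) - q s)
    rw [sub_sub_cancel, h4, norm_sub_rev] at h5
    nlinarith
  have hθ1 : 0 < 1 - θ := by linarith
  have hqne : ∀ s : ℂ, ‖s‖ ≤ r → q s ≠ 0 := by
    intro s hs h0
    have h1 := hqlow s hs
    rw [h0, norm_zero] at h1
    have h2 : 0 < (1 - θ) * ν ^ 2 := by positivity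
    linarith
  have hdP : ∀ s, HasDerivAt P (deriv P s) s := fun s => (ch_diff X.1 u s).hasDerivAt
  have hdQ : ∀ s, HasDerivAt Q (deriv Q s) s := fun s => (ch_diff X.2 u s).hasDerivAt
  have hdq : ∀ s, HasDerivAt q
      (deriv P s * (starRingEnd ℂ) P0 + deriv Q s * (starRingEnd ℂ) Q0) s := by
    intro s
    have h1 : q = fun s => P s * (starRingEnd ℂ) P0 + Q s * (starRingEnd ℂ) Q0 := funext hq'
    rw [h1]
    exact ((hdP s).mul_const _).add ((hdQ s).mul_const _)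
  have hdp : ∀ s, HasDerivAt p (P0 * deriv Q s - Q0 * deriv P s) s := by
    intro s
    have h1 : p = fun s => P0 * Q s - Q0 * P s := funext hp'
    rw [h1]
    exact ((hdQ s).const_mul _).sub ((hdP s).const_mul _)
  have hG : ∀ s ∈ Metric.closedBall (0 : ℂ) r, HasDerivWithinAt (fun s => p s / q s)
      (((ν ^ 2 : ℝ) : ℂ) * Wc X u s / q s ^ 2) (Metric.closedBall (0 : ℂ) r) s := by
    intro s hs
    have hs' : ‖s‖ ≤ r := by simpa using hs
    have h1 := ((hdp s).div (hdq s) (hqne s hs')).hasDerivWithinAt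
      (s := Metric.closedBall (0 : ℂ) r)
    have h2 : ((P0 * deriv Q s - Q0 * deriv P s) * q s -
        p s * (deriv P s * (starRingEnd ℂ) P0 + deriv Q s * (starRingEnd ℂ) Q0)) =
        ((ν ^ 2 : ℝ) : ℂ) * Wc X u s := by
      rw [Wc_eq hd X hu s, ← hself, hq' s, hp' s, hΦ0]
      simp only [wd, pp]
      ring
    rw [h2] at h1
    exact h1
  have hbound : ∀ s ∈ Metric.closedBall (0 : ℂ) r,
      ‖((ν ^ 2 : ℝ) : ℂ) * Wc X u s / q s ^ 2‖ ≤ w / ((1 - θ) ^ 2 * ν ^ 2) := by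
    intro s hs
    have hs' : ‖s‖ ≤ r := by simpa using hs
    have h1 := hqlow s hs'
    have h2 := hW s hs'
    have h4 : ‖((ν ^ 2 : ℝ) : ℂ)‖ = ν ^ 2 := by
      rw [Complex.norm_real, Real.norm_of_nonneg (by positivity)]
    rw [norm_div, norm_mul, norm_pow, h4]
    have h5 : 0 < (1 - θ) * ν ^ 2 := by positivity
    have h6 : ((1 - θ) * ν ^ 2) ^ 2 ≤ ‖q s‖ ^ 2 := pow_le_pow_left₀ h5.le h1 2
    have hw0 : 0 ≤ w := (norm_nonneg _).trans h2
    calc ν ^ 2 * ‖Wc X u s‖ / ‖q s‖ ^ 2 ≤ ν ^ 2 * w / ((1 - θ) * ν ^ 2) ^ 2 := by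
          apply div_le_div₀ (by positivity) _ (by positivity) h6
          exact mul_le_mul_of_nonneg_left h2 (by positivity)
      _ = w / ((1 - θ) ^ 2 * ν ^ 2) := by
          field_simp
  have hr : 0 ≤ r := (norm_nonneg t).trans ht
  have hmv := (convex_closedBall (0 : ℂ) r).norm_image_sub_le_of_norm_hasDerivWithin_le hG hbound
    (x := 0) (y := t) (by simpa using hr) (by simpa using ht)
  have hp0 : p 0 = 0 := by
    have h1 : p 0 = wd (FF X u) (FF X (u + (0 : ℂ) • pp u)) := rfl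
    rw [h1, zero_smul, add_zero]
    simp only [wd]
    ring
  simp only [hp0, zero_div, sub_zero] at hmv
  have h1 : ‖wd (FF X (u + t • pp u)) (FF X u)‖ = ‖p t / q t‖ * ‖q t‖ := by
    rw [← norm_mul, div_mul_cancel₀ _ (hqne t ht), wd_comm]
  have h2 : ‖q t‖ ≤ nuF X (u + t • pp u) * ν := gd_wd (FF X (u + t • pp u)) (FF X u)
  rw [h1]
  exact mul_le_mul hmv h2 (norm_nonneg _) ((norm_nonneg _).trans hmv)

end Pool.Agent.H47.SF
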