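import Pool.Agent.H47.SF.Bnd
import Pool.Agent.H47.SF.Gd

/-!
# [H47 SF CR2] two Lipschitz facts

PROOFS. `cr2`: `ν = nuF X u ≤ R`, `s = ‖wd u c‖ ≤ ν/(32 R sqrt d) ≤ 1/32`, chart: `c = lam • (u + t1 • pp u)`, `‖t1‖ ≤ 1.01 s`, `Wc X u t1 = 0`
(`JJ_smul`, `lam ≠ 0`). On `‖t‖ ≤ ‖t1‖` (`≤ ν / (16 R sqrt d)`): `|Φ(t) - Φ(0)| ≤ 4 R sqrt d ‖t‖ ≤ ν/4` (`bndD`), `|W(t)| ≤ 32 R^2 d ‖t - t1‖ ≤ 64 R^2 d ‖t1‖` (`bndWW`).
`gd` with `θ = 1/4`, and `nx_chart`: `‖wd (nx X u) (nx X c)‖ ≤ (16/9) 64 R^2 d ‖t1‖^2 / ν^2 ≤ 256 R^2 d s^2 / ν^2`.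
`lip`: `s = ‖wd u z‖ ≤ 1/(4 sqrt d)`; if `d = 1` use that `t` with `‖t‖^2 (1 - s^2) = s^2` still satisfies `‖t‖ ≤ 1.04 s` (`s ≤ 1/4`), so in all cases
`‖t‖ ≤ 1.04 s` and `2 ‖t‖ sqrt d ≤ 1`. `|W(t)| = ‖aa X z‖ |Φ(t)|^2 / (1 + ‖t‖^2) ≤ 4 R^2 ‖aa X z‖` (`aa_chart`, `bnd0`),
`‖aa X u‖ ν^2 = |W(0)| ≤ |W(t)| + 32 R^2 d ‖t‖ ≤ 4 R^2 ‖aa X z‖ + 64 R^2 d s`.
-/

set_option autoImplicit false

open Finset
open Pool.H70.SF

namespace Pool.Agent.H47.SF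

private theorem q_facts {d : ℕ} (hd : 1 ≤ d) : 1 ≤ Real.sqrt d ∧ Real.sqrt d * Real.sqrt d = d := by
  have h1 : (1 : ℝ) ≤ d := by exact_mod_cast hd
  refine ⟨?_, Real.mul_self_sqrt (by linarith)⟩
  rw [show (1 : ℝ) = Real.sqrt 1 by rw [Real.sqrt_one]]
  exact Real.sqrt_le_sqrt h1

theorem cr2 {d : ℕ} (hd : 1 ≤ d) {R : ℝ} (hR : 1 ≤ R) {X : CV d} (hi : ∀ u, IsU u → nuF X u ≤ R)
    (lo : ∀ u, IsU u → 0 < nuF X u) {u c : ℂ × ℂ} (hu : IsU u) (hc : IsU c) (hJ : JJ X c = 0)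
    (h : ‖wd u c‖ ≤ nuF X u / (32 * R * Real.sqrt d)) :
    ‖wd (nx X u) (nx X c)‖ ≤ 256 * R ^ 2 * d * ‖wd u c‖ ^ 2 / nuF X u ^ 2 := by
  obtain ⟨hq1, hq2⟩ := q_facts hd
  have hR0 : 0 < R := by linarith
  have hν := lo u hu
  have hνR := hi u hu
  have hdR : (0 : ℝ) ≤ d := Nat.cast_nonneg d
  obtain ⟨q, hq⟩ : ∃ q, q = Real.sqrt d := ⟨_, rfl⟩
  rw [← hq] at hq1 hq2 h
  obtain ⟨s, hs⟩ : ∃ s, s = ‖wd u c‖ := ⟨_, rfl⟩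
  have hs0 : 0 ≤ s := by rw [hs]; exact norm_nonneg _
  rw [← hs] at h ⊢
  have hRq : 0 < 32 * R * q := by positivity
  have h1 : s * (32 * R * q) ≤ nuF X u := (le_div_iff₀ hRq).1 h
  have hRq1 : 1 ≤ R * q := by nlinarith
  have hsq : s * q ≤ 1 / 32 := by
    have e : R * (s * q * 32) ≤ R * 1 := by linarith
    have := le_of_mul_le_mul_left e hR0
    linarith
  have hs1 : s ≤ 1 / 32 := by nlinarith
  obtain ⟨lam, t1, hc1, hl, hw⟩ := exists_chart hu hc (by rw [← hs]; linarith)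
  have hlt : ‖lam‖ * ‖t1‖ = s := by rw [hs, hw, norm_mul]
  have ht1 : ‖t1‖ ≤ 1.01 * s := t_le hl hlt (by linarith)
  have ht0 : 0 ≤ ‖t1‖ := norm_nonneg _
  have hlam : lam ≠ 0 := by
    intro h0
    rw [h0, norm_zero] at hl
    norm_num at hl
  have hlamp : 0 < ‖lam‖ := norm_pos_iff.2 hlam
  have hW1 : Wc X u t1 = 0 := by
    have h2 := hJ
    rw [hc1, JJ_smul] at h2
    have h3 : JJ X (u + t1 • pp u) = 0 := by
      rcases mul_eq_zero.1 h2 with h4 | h4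
      · exact absurd h4 (pow_ne_zero _ hlam)
      · exact h4
    unfold Wc
    rw [h3, zero_div]
  have hnw : 0 < nuF X (u + t1 • pp u) := by
    have h2 := lo c hc
    rw [hc1, nuF_smul] at h2
    exact (pos_iff_pos_of_mul_pos h2).1 (pow_pos hlamp d)
  have hball : ∀ t : ℂ, ‖t‖ ≤ ‖t1‖ → 2 * ‖t‖ * Real.sqrt d ≤ 1 := by
    intro t ht
    rw [← hq]
    have h2 : ‖t‖ * q ≤ 1.01 * s * q := mul_le_mul_of_nonneg_right (ht.trans ht1) (by linarith)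
    nlinarith
  have hcl : ∀ t : ℂ, ‖t‖ ≤ ‖t1‖ →
      Real.sqrt (n2 (FF X (u + t • pp u) - FF X u)) ≤ 1 / 4 * nuF X u := by
    intro t ht
    refine (bndD hd hR0.le hi hu (hball t ht)).trans ?_
    rw [← hq]
    have h2 : 4 * R * q * ‖t‖ ≤ 4 * R * q * (1.01 * s) :=
      mul_le_mul_of_nonneg_left (ht.trans ht1) (by positivity)
    nlinarith
  have hWb : ∀ t : ℂ, ‖t‖ ≤ ‖t1‖ → ‖Wc X u t‖ ≤ 64 * R ^ 2 * d * ‖t1‖ := by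
    intro t ht
    have h2 := bndWW hd hR0.le hi hu (hball t ht) (hball t1 le_rfl)
    rw [hW1, sub_zero] at h2
    refine h2.trans ?_
    have h3 : ‖t - t1‖ ≤ 2 * ‖t1‖ := (norm_sub_le _ _).trans (by linarith)
    have h4 : 0 ≤ 32 * R ^ 2 * d := by positivity
    nlinarith [mul_le_mul_of_nonneg_left h3 h4]
  have hG := gd hd hu hν (by norm_num : (1 / 4 : ℝ) < 1) hcl hWb (le_refl ‖t1‖)
  have hnx := nx_chart X hl hnw hν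
  rw [← hc1] at hnx
  rw [← hnx] at hG
  have hpos : 0 < nuF X (u + t1 • pp u) * nuF X u := mul_pos hnw hν
  have hG' := le_of_mul_le_mul_right hG hpos
  refine hG'.trans ?_
  rw [div_mul_eq_mul_div, div_le_div_iff₀ (by positivity) (by positivity)]
  have h5 : ‖t1‖ * ‖t1‖ ≤ (1.01 * s) * (1.01 * s) := mul_self_le_mul_self ht0 ht1
  have h6 : 0 ≤ R ^ 2 * d * nuF X u ^ 2 := by positivity
  have h7 := mul_le_mul_of_nonneg_left h5 h6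
  have h8 : 0 ≤ R ^ 2 * d * nuF X u ^ 2 * (s * s) := by positivity
  nlinarith

theorem lip {d : ℕ} (hd : 1 ≤ d) {R : ℝ} (hR : 1 ≤ R) {X : CV d} (hi : ∀ u, IsU u → nuF X u ≤ R)
    (lo : ∀ u, IsU u → 0 < nuF X u) {u z : ℂ × ℂ} (hu : IsU u) (hz : IsU z)
    (h : ‖wd u z‖ ≤ 1 / (4 * Real.sqrt d)) :
    ‖aa X u‖ * nuF X u ^ 2 ≤ 4 * R ^ 2 * ‖aa X z‖ + 64 * R ^ 2 * d * ‖wd u z‖ := by
  obtain ⟨hq1, hq2⟩ := q_facts hd
  have hR0 : 0 < R := by linarith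
  have hν := lo u hu
  have hdR : (0 : ℝ) ≤ d := Nat.cast_nonneg d
  obtain ⟨q, hq⟩ : ∃ q, q = Real.sqrt d := ⟨_, rfl⟩
  rw [← hq] at hq1 hq2 h
  obtain ⟨s, hs⟩ : ∃ s, s = ‖wd u z‖ := ⟨_, rfl⟩
  have hs0 : 0 ≤ s := by rw [hs]; exact norm_nonneg _
  rw [← hs] at h ⊢
  have hsq : s * (4 * q) ≤ 1 := (le_div_iff₀ (by positivity)).1 h
  have hs1 : s ≤ 1 / 4 := by nlinarith
  obtain ⟨lam, t, hz1, hl, hw⟩ := exists_chart hu hz (by rw [← hs]; linarith)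
  have hlt : ‖lam‖ * ‖t‖ = s := by rw [hs, hw, norm_mul]
  have ht0 : 0 ≤ ‖t‖ := norm_nonneg _
  have hlam : lam ≠ 0 := by
    intro h0
    rw [h0, norm_zero] at hl
    norm_num at hl
  have hlamp : 0 < ‖lam‖ := norm_pos_iff.2 hlam
  have hlam2 : ‖lam‖ ^ 2 = 1 - s ^ 2 := by
    rw [← hlt]
    nlinarith
  have ht1 : ‖t‖ ≤ 1.04 * s := by
    refine le_of_sq_le_sq ?_ (by positivity)
    have h2 : ‖lam‖ ^ 2 * ‖t‖ ^ 2 = s ^ 2 := by rw [← hlt]; ring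
    rw [hlam2] at h2
    have h3 : s ^ 2 ≤ 1 / 16 := by nlinarith
    have h4 : 15 / 16 * ‖t‖ ^ 2 ≤ (1 - s ^ 2) * ‖t‖ ^ 2 :=
      mul_le_mul_of_nonneg_right (by linarith) (sq_nonneg _)
    nlinarith
  have htq : ‖t‖ * q ≤ 0.26 := by
    have h2 : ‖t‖ * q ≤ 1.04 * s * q := mul_le_mul_of_nonneg_right ht1 (by linarith)
    nlinarith
  have htq0 : 0 ≤ ‖t‖ * q := mul_nonneg ht0 (by linarith)
  have hb : 2 * ‖t‖ * Real.sqrt d ≤ 1 := by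
    rw [← hq]
    linarith
  have hnw : 0 < nuF X (u + t • pp u) := by
    have h2 := lo z hz
    rw [hz1, nuF_smul] at h2
    exact (pos_iff_pos_of_mul_pos h2).1 (pow_pos hlamp d)
  have hn2 : nuF X (u + t • pp u) ≤ 2 * R := bnd0 hd hR0.le hi hu (by
    rw [← hq2]
    have : ‖t‖ ^ 2 * (q * q) = (‖t‖ * q) * (‖t‖ * q) := by ring
    rw [this]
    nlinarith)
  have ha := aa_chart hd X hl hnw
  rw [← hz1] at ha
  have hWt : ‖Wc X u t‖ ≤ 4 * R ^ 2 * ‖aa X z‖ := by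
    have h2 : ‖Wc X u t‖ ≤ ‖Wc X u t‖ * (1 + ‖t‖ ^ 2) :=
      le_mul_of_one_le_right (norm_nonneg _) (by nlinarith)
    rw [← ha] at h2
    refine h2.trans ?_
    have h3 : nuF X (u + t • pp u) ^ 2 ≤ (2 * R) ^ 2 := pow_le_pow_left₀ hnw.le hn2 2
    have h4 := mul_le_mul_of_nonneg_left h3 (norm_nonneg (aa X z))
    linarith
  have h0b : 2 * ‖(0 : ℂ)‖ * Real.sqrt d ≤ 1 := by
    rw [norm_zero, mul_zero, zero_mul]
    exact zero_le_one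
  have hWW := bndWW hd hR0.le hi hu h0b hb
  rw [zero_sub, norm_neg] at hWW
  have hW0 := aa_zero_chart X hν
  have h5 : ‖Wc X u 0‖ ≤ ‖Wc X u t‖ + ‖Wc X u 0 - Wc X u t‖ := by
    have := norm_add_le (Wc X u t) (Wc X u 0 - Wc X u t)
    rwa [add_sub_cancel] at this
  rw [hW0] at h5
  have h6 : 32 * R ^ 2 * d * ‖t‖ ≤ 64 * R ^ 2 * d * s := by
    have h7 : 0 ≤ R ^ 2 * d := by positivity
    nlinarith [mul_le_mul_of_nonneg_left ht1 h7, mul_nonneg h7 hs0]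
  linarith

end Pool.Agent.H47.SF
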