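import Pool.Agent.H47.SF.Bnd
import Pool.Agent.H47.SF.Gd

/-!
# [H47 SF LIN] the linear zone (Lemma L)

PROOF. `ν = nuF X u`, `a = ‖aa X u‖`, `s = ‖wd u z‖ ≤ del R X u = ν/(400 R sqrt d) min(1, a/sqrt d)`; in particular `s ≤ ν / (400 R sqrt d) ≤ 1/400`.
Chart: `z = lam • (u + t • pp u)`, `‖t‖ ≤ 1.01 s` (`exists_chart`, `t_le`). For all `‖t'‖ ≤ ‖t‖`: `|Φ(t') - Φ(0)| ≤ 4 R sqrt d ‖t'‖ ≤ 0.0101 ν ≤ ν/50`
(`bndD`), `|Φ| ≤ 1.02 ν` (`nu_near`), `|W'| ≤ 16 R d 1.02 ν ≤ 17 R d ν` (`bndW'`), so `|W(t') - W(0)| ≤ 17 R d ν * 1.01 * (ν/(400 R sqrt d)) (a / sqrt d) ≤ 0.05 ν^2 a = 0.05 |W(0)|`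
(mean value inequality; `aa_zero_chart`).
`aa_chart`: `‖aa X z‖ = |W(t)| (1 + ‖t‖^2) / |Φ(t)|^2 ≥ 0.95 a ν^2 / (1.02 ν)^2 ≥ a / 2`.
`gd` with `θ = 1/50`, `w = 1.05 a ν^2`, `r = ‖t‖`, and `nx_chart`: `‖wd (nx X u) (nx X z)‖ ≤ 1.05 a / 0.98^2 * ‖t‖ ≤ 2 a s`.
-/

set_option autoImplicit false

open Finset
open Pool.H70.SF

namespace Pool.Agent.H47.SF

private theorem q_facts' {d : ℕ} (hd : 1 ≤ d) :
    1 ≤ Real.sqrt d ∧ Real.sqrt d * Real.sqrt d = d := by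
  have h1 : (1 : ℝ) ≤ d := by exact_mod_cast hd
  refine ⟨?_, Real.mul_self_sqrt (by linarith)⟩
  rw [show (1 : ℝ) = Real.sqrt 1 by rw [Real.sqrt_one]]
  exact Real.sqrt_le_sqrt h1

theorem lin {d : ℕ} (hd : 1 ≤ d) {R : ℝ} (hR : 1 ≤ R) {X : CV d} (hi : ∀ u, IsU u → nuF X u ≤ R)
    {u z : ℂ × ℂ} (hu : IsU u) (hz : IsU z) (hν : 0 < nuF X u) (h : ‖wd u z‖ ≤ del R X u) :
    ‖aa X u‖ / 2 ≤ ‖aa X z‖ ∧ ‖wd (nx X u) (nx X z)‖ ≤ 2 * ‖aa X u‖ * ‖wd u z‖ := by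
  obtain ⟨hq1, hq2⟩ := q_facts' hd
  have hR0 : 0 < R := by linarith
  have hνR := hi u hu
  have hdR : (0 : ℝ) ≤ d := Nat.cast_nonneg d
  unfold del dl at h
  obtain ⟨q, hq⟩ : ∃ q, q = Real.sqrt d := ⟨_, rfl⟩
  rw [← hq] at hq1 hq2 h
  obtain ⟨s, hs⟩ : ∃ s, s = ‖wd u z‖ := ⟨_, rfl⟩
  have hs0 : 0 ≤ s := by rw [hs]; exact norm_nonneg _
  obtain ⟨a, ha⟩ : ∃ a, a = ‖aa X u‖ := ⟨_, rfl⟩
  have ha0 : 0 ≤ a := by rw [ha]; exact norm_nonneg _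
  obtain ⟨ν, hνd⟩ : ∃ ν, ν = nuF X u := ⟨_, rfl⟩
  rw [← hs, ← ha]
  rw [← hs, ← ha, ← hνd] at h
  rw [← hνd] at hν hνR
  have hq0 : 0 < q := by linarith
  have hRq : 0 < 400 * R * q := by positivity
  have hdel0 : 0 ≤ ν / (400 * R * q) := by positivity
  have h1 : s * (400 * R * q) ≤ ν := by
    rw [← le_div_iff₀ hRq]
    exact h.trans (mul_le_of_le_one_right hdel0 (min_le_left _ _))
  have h2 : s * (400 * R * d) ≤ ν * a := by
    have e1 : s ≤ ν / (400 * R * q) * (a / q) :=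
      h.trans (mul_le_mul_of_nonneg_left (min_le_right _ _) hdel0)
    have e2 : ν / (400 * R * q) * (a / q) = ν * a / (400 * R * d) := by
      rw [← hq2]
      field_simp
    rw [e2] at e1
    have e3 : 0 < 400 * R * (d : ℝ) := by
      rw [← hq2]
      positivity
    exact (le_div_iff₀ e3).1 e1
  have hsq : s * q ≤ 1 / 400 := by
    have e : R * (s * q * 400) ≤ R * 1 := by linarith
    have := le_of_mul_le_mul_left e hR0
    linarith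
  have hs1 : s ≤ 1 / 400 := by nlinarith
  obtain ⟨lam, t1, hz1, hl, hw⟩ := exists_chart hu hz (by rw [← hs]; linarith)
  have hlt : ‖lam‖ * ‖t1‖ = s := by rw [hs, hw, norm_mul]
  have ht1 : ‖t1‖ ≤ 1.01 * s := t_le hl hlt (by linarith)
  have ht0 : 0 ≤ ‖t1‖ := norm_nonneg _
  have hball : ∀ t : ℂ, ‖t‖ ≤ ‖t1‖ → 2 * ‖t‖ * Real.sqrt d ≤ 1 := by
    intro t ht
    rw [← hq]
    have e : ‖t‖ * q ≤ 1.01 * s * q := mul_le_mul_of_nonneg_right (ht.trans ht1) hq0.le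
    nlinarith
  have hcl : ∀ t : ℂ, ‖t‖ ≤ ‖t1‖ →
      Real.sqrt (n2 (FF X (u + t • pp u) - FF X u)) ≤ 1 / 50 * nuF X u := by
    intro t ht
    refine (bndD hd hR0.le hi hu (hball t ht)).trans ?_
    rw [← hq, ← hνd]
    have e : 4 * R * q * ‖t‖ ≤ 4 * R * q * (1.01 * s) :=
      mul_le_mul_of_nonneg_left (ht.trans ht1) (by positivity)
    nlinarith
  have hnear : ∀ t : ℂ, ‖t‖ ≤ ‖t1‖ → 0.98 * ν ≤ nuF X (u + t • pp u) ∧
      nuF X (u + t • pp u) ≤ 1.02 * ν := by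
    intro t ht
    have e := nu_near (hcl t ht)
    rw [← hνd] at e
    constructor
    · linarith [e.1]
    · linarith [e.2]
  have hW0 : ‖Wc X u 0‖ = a * ν ^ 2 := by
    rw [ha, hνd]
    exact aa_zero_chart X (by rw [← hνd]; exact hν)
  have hdW : ∀ t ∈ Metric.closedBall (0 : ℂ) ‖t1‖, ‖deriv (Wc X u) t‖ ≤ 16.32 * R * d * ν := by
    intro t ht
    have ht' : ‖t‖ ≤ ‖t1‖ := mem_closedBall_zero_iff.1 ht
    refine (bndW' hd hR0.le hi hu (hball t ht')).trans ?_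
    have e := (hnear t ht').2
    have e1 : 0 ≤ 16 * R * (d : ℝ) := by positivity
    nlinarith [mul_le_mul_of_nonneg_left e e1]
  have hWd : ∀ t : ℂ, ‖t‖ ≤ ‖t1‖ → ‖Wc X u t - Wc X u 0‖ ≤ 0.05 * (a * ν ^ 2) := by
    intro t ht
    have e := (convex_closedBall (0 : ℂ) ‖t1‖).norm_image_sub_le_of_norm_deriv_le
      (f := Wc X u) (C := 16.32 * R * d * ν) (fun x _ => (Wc_diff X u).differentiableAt) hdW
      (x := 0) (y := t) (Metric.mem_closedBall_self ht0) (mem_closedBall_zero_iff.2 ht)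
    refine e.trans ?_
    rw [sub_zero]
    have e1 : 16.32 * R * d * ν * ‖t‖ ≤ 16.32 * R * d * ν * (1.01 * s) :=
      mul_le_mul_of_nonneg_left (ht.trans ht1) (by positivity)
    have e2 : ν * (s * (400 * R * d)) ≤ ν * (ν * a) := mul_le_mul_of_nonneg_left h2 hν.le
    nlinarith
  have hWu : ∀ t : ℂ, ‖t‖ ≤ ‖t1‖ → ‖Wc X u t‖ ≤ 1.05 * (a * ν ^ 2) := by
    intro t ht
    have e := norm_add_le (Wc X u t - Wc X u 0) (Wc X u 0)
    rw [sub_add_cancel, hW0] at e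
    have e1 := hWd t ht
    linarith
  have hWl : 0.95 * (a * ν ^ 2) ≤ ‖Wc X u t1‖ := by
    have e := norm_sub_norm_le (Wc X u 0) (Wc X u t1)
    rw [norm_sub_rev, hW0] at e
    have e1 := hWd t1 le_rfl
    linarith
  have hn1 := hnear t1 le_rfl
  have hnw : 0 < nuF X (u + t1 • pp u) := by nlinarith
  constructor
  · have hc := aa_chart hd X hl hnw
    rw [← hz1] at hc
    have e1 : ‖Wc X u t1‖ ≤ ‖Wc X u t1‖ * (1 + ‖t1‖ ^ 2) :=
      le_mul_of_one_le_right (norm_nonneg _) (by nlinarith)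
    rw [← hc] at e1
    have e2 : nuF X (u + t1 • pp u) ^ 2 ≤ (1.02 * ν) ^ 2 := pow_le_pow_left₀ hnw.le hn1.2 2
    have e3 := mul_le_mul_of_nonneg_left e2 (norm_nonneg (aa X z))
    have e4 : 0.95 * a * ν ^ 2 ≤ (1.0404 * ‖aa X z‖) * ν ^ 2 := by nlinarith
    have e5 := le_of_mul_le_mul_right e4 (by positivity)
    linarith
  · have hG := gd hd hu (by rw [← hνd]; exact hν) (by norm_num : (1 / 50 : ℝ) < 1) hcl hWu
      (le_refl ‖t1‖)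
    have hnx := nx_chart X hl hnw (by rw [← hνd]; exact hν)
    rw [← hz1] at hnx
    rw [← hnx, ← hνd] at hG
    have hpos : 0 < nuF X (u + t1 • pp u) * ν := mul_pos hnw hν
    have hG' := le_of_mul_le_mul_right hG hpos
    refine hG'.trans ?_
    rw [div_mul_eq_mul_div, div_le_iff₀ (by positivity)]
    have e1 : 0 ≤ a * ν ^ 2 := by positivity
    have e2 := mul_le_mul_of_nonneg_left ht1 e1
    have e3 : 0 ≤ a * ν ^ 2 * s := by positivity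
    nlinarith

end Pool.Agent.H47.SF
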