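import Pool.Agent.H47.SF.Deep
import Pool.Agent.H47.SF.Lin
import Pool.Agent.H47.SF.Cr2

/-!
# [H47 SF SPH] the sphere as an instance of `Abs`

The points are `U = {u // IsU u}`, the map is `fS X` (`nx X` where `F(u) ≠ 0`).
PROOFS. `fS_coe`: `dif_pos` with `G.lo` (`d ≥ 1`). `fS_iter`: induction. `ob_eq`: `ob X c l = (nx X)^[l] (nx X c)` (induction, `Function.iterate_succ_apply'`), so
`al X c l = aa X (ob X c l)` is `aa` at `(fS X)^[l] (fS X c)`.
`abs_of_good`: `a0, D0` norms; `sym`: `wd_comm`; `tri`: `tri`; `nu0`: `G.lo`; `nuR`: `G.hi`; `lin`: `lin` (`del` is by definition `dl`); `deep`: `deep`; `es`: `G.es`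
with `ob_eq`; `cr2`, `lip`: the theorems of these names.
-/

set_option autoImplicit false

open Finset
open Pool.H70.SF

namespace Pool.Agent.H47.SF

/-- the map on unit vectors -/
noncomputable def fS {d : ℕ} (X : CV d) (u : {u : ℂ × ℂ // IsU u}) : {u : ℂ × ℂ // IsU u} :=
  open Classical in if h : 0 < nuF X u then ⟨nx X u, nx_isU h⟩ else u

theorem fS_coe {d : ℕ} (hd : 1 ≤ d) {X : CV d} (lo : ∀ u, IsU u → (d : ℝ)⁻¹ ≤ nuF X u)
    (u : {u : ℂ × ℂ // IsU u}) : (fS X u : ℂ × ℂ) = nx X u := by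
  have h : 0 < nuF X u := lt_of_lt_of_le (by positivity) (lo u u.2)
  unfold fS
  rw [dif_pos h]

theorem fS_iter {d : ℕ} (hd : 1 ≤ d) {X : CV d} (lo : ∀ u, IsU u → (d : ℝ)⁻¹ ≤ nuF X u)
    (u : {u : ℂ × ℂ // IsU u}) (k : ℕ) : ((fS X)^[k] u : ℂ × ℂ) = (nx X)^[k] u := by
  induction k with
  | zero => rfl
  | succ k ih => rw [Function.iterate_succ_apply', Function.iterate_succ_apply', fS_coe hd lo, ih]

theorem ob_eq {d : ℕ} (X : CV d) (c : ℂ × ℂ) (l : ℕ) : ob X c l = (nx X)^[l] (nx X c) := by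
  induction l with
  | zero => rfl
  | succ l ih => rw [Function.iterate_succ_apply', ← ih]; rfl

theorem abs_of_good {n0 d : ℕ} {R : ℝ} {X : CV d} (G : Good n0 R X) (S : Sz n0 d R) :
    Abs n0 d R (fS X) (fun u => ‖aa X u‖) (fun u => nuF X u) (fun u v => ‖wd u v‖)
      {c | JJ X c = 0} (fun c => f2 X c) := by
  have hd1 : 1 ≤ d := by have := S.d2; omega
  have hR1 := S.R1
  have hlo : ∀ u, IsU u → 0 < nuF X u := fun u hu => lt_of_lt_of_le (by positivity) (G.lo u hu)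
  have hco : ∀ v : {u : ℂ × ℂ // IsU u}, (fS X v : ℂ × ℂ) = nx X v := fS_coe hd1 G.lo
  have hit : ∀ (v : {u : ℂ × ℂ // IsU u}) (l : ℕ), ((fS X)^[l] (fS X v) : ℂ × ℂ) = ob X v l := by
    intro v l
    rw [fS_iter hd1 G.lo, ob_eq, hco]
  constructor
  · intro x; exact norm_nonneg _
  · intro x y; exact norm_nonneg _
  · intro x y; exact wd_comm _ _
  · intro x y z; exact tri x.2 y.2 z.2
  · intro x; exact hlo x x.2
  · intro x; exact G.hi x x.2
  · intro y z h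
    have := lin hd1 hR1 G.hi y.2 z.2 (hlo y y.2) h
    rw [hco, hco]
    exact this
  · intro x h0 h1
    obtain ⟨c, hc, hJ, r, hr, e1, e2, e3⟩ := deep G S x.2 h0 h1
    refine ⟨⟨c, hc⟩, hJ, r, hr, e1, ?_, e3⟩
    rw [hco, hco]
    exact e2
  · intro c hc
    obtain ⟨s, g, h, hs, hg, hh, e1, e2, e3, e4⟩ := G.es c c.2 hc
    refine ⟨s, g, h, hs, hg, hh, e1, ?_, ?_, e4⟩
    · intro l hl
      rw [hit]
      exact e2 l hl
    · intro l hl
      rw [hit]
      exact e3 l hl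
  · intro y c hc h
    rw [hco, hco]
    exact cr2 hd1 hR1 G.hi hlo y.2 c.2 hc h
  · intro y z h
    exact lip hd1 hR1 G.hi hlo y.2 z.2 h

end Pool.Agent.H47.SF
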