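import Pool.Agent.H47.SF.Defs

/-!
# [H47 SF GRD] a quadratic polynomial on a grid

PROOF. `q(s) = al + be s + ga s^2`. If `S` had three different elements `i1, i2, i3`, put `s_j = i_j/(8d)`: `‖q(s_j)‖ < η = th/(1000 d^2)`, Lagrange interpolation: `q = ∑ q(s_j) L_j`, the denominators are `|s_j - s_k||s_j - s_l| ≥ (1/(8d))^2`, the coefficients of the numerators are `≤ 2` in modulus
(`1, s_k + s_l, s_k s_l`), so `‖al‖, ‖be‖, ‖ga‖ ≤ 3 * 2 * (8d)^2 η = 384 d^2 η < th`. Explicitly: `ga = [q(s1)(s2-s3) - q(s2)(s1-s3) + q(s3)(s1-s2)] / ((s1-s2)(s1-s3)(s2-s3))` etc.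
-/

set_option autoImplicit false

open Finset

namespace Pool.Agent.H47.SF

private theorem grd_sub {d : ℕ} (hd : 1 ≤ d) {i j : ℕ} (hij : i ≠ j) :
    1 / (8 * (d : ℝ)) ≤ ‖(i : ℂ) / (8 * d) - (j : ℂ) / (8 * d)‖ := by
  have hd0 : (0 : ℝ) < d := by exact_mod_cast hd
  have h1 : (i : ℂ) / (8 * d) - (j : ℂ) / (8 * d) = (((i : ℝ) - j : ℝ) : ℂ) / ((8 * d : ℝ) : ℂ) := by
    push_cast
    ring
  rw [h1, norm_div, Complex.norm_real, Complex.norm_real, Real.norm_eq_abs, Real.norm_eq_abs,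
    abs_of_pos (by positivity : (0 : ℝ) < 8 * d)]
  apply div_le_div_of_nonneg_right _ (by positivity)
  have h2 : (1 : ℤ) ≤ |(i : ℤ) - j| := Int.one_le_abs (sub_ne_zero.2 (by exact_mod_cast hij))
  exact_mod_cast h2

private theorem grd_le {d : ℕ} (hd : 1 ≤ d) {i : ℕ} (hi : i ≤ 8 * d) :
    ‖(i : ℂ) / (8 * d)‖ ≤ 1 := by
  have hd0 : (0 : ℝ) < d := by exact_mod_cast hd
  have h1 : (i : ℂ) / (8 * d) = ((i : ℝ) : ℂ) / ((8 * d : ℝ) : ℂ) := by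
    push_cast
    ring
  rw [h1, norm_div, Complex.norm_real, Complex.norm_real, Real.norm_eq_abs, Real.norm_eq_abs,
    abs_of_pos (by positivity : (0 : ℝ) < 8 * d), abs_of_nonneg (Nat.cast_nonneg i),
    div_le_one (by positivity)]
  exact_mod_cast hi

theorem grid {d : ℕ} (hd : 1 ≤ d) {al be ga : ℂ} {th : ℝ} (hth : 0 < th) (h : th ≤ ‖al‖ ∨ th ≤ ‖be‖ ∨ th ≤ ‖ga‖)
    {S : Finset ℕ} (hS : ∀ i ∈ S, ‖al + be * ((i : ℂ) / (8 * d)) + ga * ((i : ℂ) / (8 * d)) ^ 2‖ < th / (1000 * d ^ 2))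
    (hS1 : ∀ i ∈ S, i ≤ 8 * d) : S.card ≤ 2 := by
  by_contra hcard
  rw [not_le] at hcard
  obtain ⟨i, j, k, hi, hj, hk, hij, hik, hjk⟩ := Finset.two_lt_card_iff.1 hcard
  have hd0 : (0 : ℝ) < d := by exact_mod_cast hd
  have q1 := hS i hi
  have q2 := hS j hj
  have q3 := hS k hk
  have n1 := grd_le hd (hS1 i hi)
  have n2 := grd_le hd (hS1 j hj)
  have n3 := grd_le hd (hS1 k hk)
  have d12 := grd_sub hd hij
  have d13 := grd_sub hd hik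
  have d23 := grd_sub hd hjk
  obtain ⟨s, hs⟩ : ∃ s : ℂ, s = (i : ℂ) / (8 * d) := ⟨_, rfl⟩
  obtain ⟨t, ht⟩ : ∃ t : ℂ, t = (j : ℂ) / (8 * d) := ⟨_, rfl⟩
  obtain ⟨u, hu⟩ : ∃ u : ℂ, u = (k : ℂ) / (8 * d) := ⟨_, rfl⟩
  rw [← hs] at q1 n1 d12 d13
  rw [← ht] at q2 n2 d12 d23
  rw [← hu] at q3 n3 d13 d23
  have hD : (0 : ℝ) < 1 / (8 * (d : ℝ)) := by positivity
  have e12 : s - t ≠ 0 := norm_pos_iff.1 (hD.trans_le d12)
  have e13 : s - u ≠ 0 := norm_pos_iff.1 (hD.trans_le d13)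
  have e23 : t - u ≠ 0 := norm_pos_iff.1 (hD.trans_le d23)
  -- the weights
  have hw : ∀ a b : ℂ, 1 / (8 * (d : ℝ)) ≤ ‖a‖ → 1 / (8 * (d : ℝ)) ≤ ‖b‖ →
      ‖(a * b)⁻¹‖ ≤ (8 * (d : ℝ)) ^ 2 := by
    intro a b ha hb
    rw [norm_inv, norm_mul]
    have h1 : (1 / (8 * (d : ℝ))) * (1 / (8 * (d : ℝ))) ≤ ‖a‖ * ‖b‖ :=
      mul_le_mul ha hb hD.le (norm_nonneg _)
    have h2 : ((8 * (d : ℝ)) ^ 2)⁻¹ = (1 / (8 * (d : ℝ))) * (1 / (8 * (d : ℝ))) := by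
      field_simp
    rw [inv_le_comm₀ (lt_of_lt_of_le (mul_pos hD hD) h1) (by positivity), h2]
    exact h1
  have w1 := hw _ _ d12 d13
  have w2 := hw _ _ d12 d23
  have w3 := hw _ _ d13 d23
  have key : ∀ X a b c : ℂ, ‖a‖ ≤ 2 → ‖b‖ ≤ 2 → ‖c‖ ≤ 2 →
      X = (al + be * s + ga * s ^ 2) * (a * ((s - t) * (s - u))⁻¹) -
        (al + be * t + ga * t ^ 2) * (b * ((s - t) * (t - u))⁻¹) +
        (al + be * u + ga * u ^ 2) * (c * ((s - u) * (t - u))⁻¹) → ‖X‖ < th := by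
    intro X a b c ha hb hc hX
    have hq : ∀ q a w : ℂ, ‖q‖ < th / (1000 * d ^ 2) → ‖a‖ ≤ 2 → ‖w‖ ≤ (8 * (d : ℝ)) ^ 2 →
        ‖q * (a * w)‖ ≤ 128 * th / 1000 := by
      intro q a w hq ha hw
      rw [norm_mul, norm_mul]
      calc ‖q‖ * (‖a‖ * ‖w‖) ≤ th / (1000 * d ^ 2) * (2 * (8 * (d : ℝ)) ^ 2) :=
            mul_le_mul hq.le (mul_le_mul ha hw (norm_nonneg _) (by norm_num)) (by positivity)
              (by positivity)
        _ = 128 * th / 1000 := by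
            field_simp
            ring
    have h1 := hq _ _ _ q1 ha w1
    have h2 := hq _ _ _ q2 hb w2
    have h3 := hq _ _ _ q3 hc w3
    rw [hX]
    refine lt_of_le_of_lt (norm_add_le _ _) ?_
    have h4 := norm_sub_le ((al + be * s + ga * s ^ 2) * (a * ((s - t) * (s - u))⁻¹))
      ((al + be * t + ga * t ^ 2) * (b * ((s - t) * (t - u))⁻¹))
    linarith
  have m2 : ∀ a b : ℂ, ‖a‖ ≤ 1 → ‖b‖ ≤ 1 → ‖a * b‖ ≤ 2 := by
    intro a b ha hb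
    rw [norm_mul]
    have := mul_le_mul ha hb (norm_nonneg _) zero_le_one
    linarith
  have p2 : ∀ a b : ℂ, ‖a‖ ≤ 1 → ‖b‖ ≤ 1 → ‖-(a + b)‖ ≤ 2 := by
    intro a b ha hb
    rw [norm_neg]
    refine (norm_add_le _ _).trans ?_
    linarith
  have k1 : ‖al‖ < th := key al (t * u) (s * u) (s * t) (m2 _ _ n2 n3) (m2 _ _ n1 n3) (m2 _ _ n1 n2)
    (by field_simp; ring)
  have k2 : ‖be‖ < th := key be (-(t + u)) (-(s + u)) (-(s + t)) (p2 _ _ n2 n3) (p2 _ _ n1 n3)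
    (p2 _ _ n1 n2) (by field_simp; ring)
  have k3 : ‖ga‖ < th := key ga 1 1 1 (by simp) (by simp) (by simp) (by field_simp; ring)
  rcases h with h | h | h <;> linarith

end Pool.Agent.H47.SF
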