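import Pool.Agent.H47.SF.Cht

/-!
# [H47 SF TRA] transversality: algebra

PROOFS. `om_eq`: induction on `k` from the definition of `om` (`wd u (Nd e u) = wd u (wd e u • e) = wd e u * wd u e = -(wd e u)^2`); `A_k = ∏_(l<k) al l ≠ 0`.
`tra`: the form `T(e) = ∑_(l ≤ n) (wd e (u l))^2/A l = al e1^2 + be e1 e2 + ga e2^2`, polar form `B(e,e') = ∑ wd e (u l) wd e' (u l)/A l = al e1 e1' + be (e1 e2' + e2 e1')/2 + ga e2 e2'`. With `e = pp (u 0)`, `e' = u 1`: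
the term `l = 0` has modulus `‖wd (pp (u 0)) (u 0)‖ ‖wd (u 1) (u 0)‖ = ‖wd (u 0) (u 1)‖` (`A 0 = 1`, `wd_pp`), the term `l = 1` is `0`, the others are `≤ 1/‖A l‖` (`wd_le_one`), so `‖B‖ ≥ ‖wd (u 0) (u 1)‖/2`.
On the other hand `‖B‖ ≤ ‖al‖ + ‖be‖ + ‖ga‖` (unit vectors) and `al = T(1,0)`, `ga = T(0,1)`, `be = T(1,1) - al - ga`: `‖B‖ ≤ 5 max_j ‖T(e3 j)‖`.
`tra'`: `e = e' = pp (u 0)`: `‖T‖ ≥ 1 - ∑_(1 ≤ l) 1/‖A l‖ ≥ 1/2`.
-/

set_option autoImplicit false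

open Finset
open Pool.H70.SF

namespace Pool.Agent.H47.SF

private theorem tra_wdN (e u : ℂ × ℂ) : wd u (Nd e u) = -(wd e u) ^ 2 := by
  simp only [wd, Nd, Prod.smul_fst, Prod.smul_snd, smul_eq_mul]
  ring

theorem om_eq {d : ℕ} (e : ℂ × ℂ) (X : CV d) (c : ℂ × ℂ) (k : ℕ) (h : ∀ l < k, al X c l ≠ 0) :
    om e X c k = -(∏ l ∈ range k, al X c l) *
      ∑ l ∈ range (k + 1), (wd e (ob X c l)) ^ 2 / ∏ j ∈ range l, al X c j := by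
  induction k with
  | zero =>
    simp only [om, tra_wdN, range_zero, prod_empty, zero_add, range_one, sum_singleton, div_one]
    ring
  | succ k ih =>
    have h1 := ih fun l hl => h l (by omega)
    have h2 : ∏ l ∈ range (k + 1), al X c l ≠ 0 := by
      rw [Finset.prod_ne_zero_iff]
      intro l hl
      exact h l (Finset.mem_range.1 hl)
    have e1 : om e X c (k + 1) = al X c k * om e X c k +
        wd (ob X c (k + 1)) (Nd e (ob X c (k + 1))) := rfl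
    rw [e1, h1, tra_wdN, Finset.sum_range_succ _ (k + 1), mul_add, neg_mul (∏ l ∈ range (k + 1), _)
      (_ / _), mul_div_cancel₀ _ h2]
    rw [Finset.prod_range_succ]
    ring

private theorem tra_cs (a b c d : ℝ) (h1 : a ^ 2 + b ^ 2 = 1)
    (h2 : c ^ 2 + d ^ 2 = 1) : a * c + b * d ≤ 1 := by
  nlinarith [sq_nonneg (a - c), sq_nonneg (b - d)]

/-- the polar form is bounded by the values at the three directions -/
private theorem tra_pol (u : ℕ → ℂ × ℂ) (A : ℕ → ℂ) (n : ℕ) (m : ℝ)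
    (h : ∀ j : Fin 3, ‖∑ l ∈ range (n + 1), (wd (e3 j) (u l)) ^ 2 / A l‖ ≤ m) (e e' : ℂ × ℂ)
    (he : IsU e) (he' : IsU e') :
    ‖∑ l ∈ range (n + 1), wd e (u l) * wd e' (u l) / A l‖ ≤ 5 / 2 * m := by
  have h0 := h 0
  have h1 := h 1
  have h2 := h 2
  set T0 := ∑ l ∈ range (n + 1), (wd (e3 0) (u l)) ^ 2 / A l with hT0
  set T1 := ∑ l ∈ range (n + 1), (wd (e3 1) (u l)) ^ 2 / A l with hT1
  set T2 := ∑ l ∈ range (n + 1), (wd (e3 2) (u l)) ^ 2 / A l with hT2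
  have hm : 0 ≤ m := (norm_nonneg _).trans h0
  have key : ∑ l ∈ range (n + 1), wd e (u l) * wd e' (u l) / A l =
      e.1 * e'.1 * T0 + e.2 * e'.2 * T1 + (e.1 * e'.2 + e.2 * e'.1) / 2 * (T2 - T0 - T1) := by
    rw [hT0, hT1, hT2, ← Finset.sum_sub_distrib, ← Finset.sum_sub_distrib, Finset.mul_sum,
      Finset.mul_sum, Finset.mul_sum, ← Finset.sum_add_distrib, ← Finset.sum_add_distrib]
    apply Finset.sum_congr rfl
    intro l _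
    simp only [wd, e3]
    ring
  have u1 : ‖e.1‖ ^ 2 + ‖e.2‖ ^ 2 = 1 := he
  have u2 : ‖e'.1‖ ^ 2 + ‖e'.2‖ ^ 2 = 1 := he'
  have c1 := tra_cs ‖e.1‖ ‖e.2‖ ‖e'.1‖ ‖e'.2‖ u1 u2
  have c2 := tra_cs ‖e.1‖ ‖e.2‖ ‖e'.2‖ ‖e'.1‖ u1 (by linarith)
  have b1 : ‖e.1 * e'.1 * T0‖ ≤ ‖e.1‖ * ‖e'.1‖ * m := by
    rw [norm_mul, norm_mul]
    exact mul_le_mul_of_nonneg_left h0 (by positivity)
  have b2 : ‖e.2 * e'.2 * T1‖ ≤ ‖e.2‖ * ‖e'.2‖ * m := by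
    rw [norm_mul, norm_mul]
    exact mul_le_mul_of_nonneg_left h1 (by positivity)
  have b3 : ‖T2 - T0 - T1‖ ≤ 3 * m := by
    have := norm_sub_le (T2 - T0) T1
    have := norm_sub_le T2 T0
    linarith
  have b4 : ‖(e.1 * e'.2 + e.2 * e'.1) / 2‖ ≤ 1 / 2 := by
    rw [norm_div]
    have h3 : ‖(2 : ℂ)‖ = 2 := by simp
    rw [h3]
    have h4 := norm_add_le (e.1 * e'.2) (e.2 * e'.1)
    rw [norm_mul, norm_mul] at h4
    linarith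
  have b5 : ‖(e.1 * e'.2 + e.2 * e'.1) / 2 * (T2 - T0 - T1)‖ ≤ 1 / 2 * (3 * m) := by
    rw [norm_mul]
    exact mul_le_mul b4 b3 (norm_nonneg _) (by norm_num)
  rw [key]
  have n1 := norm_add_le (e.1 * e'.1 * T0 + e.2 * e'.2 * T1)
    ((e.1 * e'.2 + e.2 * e'.1) / 2 * (T2 - T0 - T1))
  have n2' := norm_add_le (e.1 * e'.1 * T0) (e.2 * e'.2 * T1)
  nlinarith

private theorem tra_ppU {u : ℂ × ℂ} (hu : IsU u) : IsU (pp u) := by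
  unfold IsU n2 pp at *
  simp only [norm_neg, RCLike.norm_conj]
  linarith

theorem tra (u : ℕ → ℂ × ℂ) (hu : ∀ l, IsU (u l)) (A : ℕ → ℂ) (hA : A 0 = 1) {n : ℕ} (hn : 1 ≤ n)
    (hs : ∑ l ∈ Ico 2 (n + 1), ‖A l‖⁻¹ ≤ ‖wd (u 0) (u 1)‖ / 2) :
    ∃ j : Fin 3, ‖wd (u 0) (u 1)‖ / 10 ≤ ‖∑ l ∈ range (n + 1), (wd (e3 j) (u l)) ^ 2 / A l‖ := by
  by_contra hcon
  push Not at hcon
  set δ := ‖wd (u 0) (u 1)‖ with hδ
  have hδ0 : 0 < δ / 10 := lt_of_le_of_lt (norm_nonneg _) (hcon 0)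
  have h1 := tra_pol u A n (δ / 10) (fun j => (hcon j).le) (pp (u 0)) (u 1) (tra_ppU (hu 0)) (hu 1)
  have h2 : ∑ l ∈ range (n + 1), wd (pp (u 0)) (u l) * wd (u 1) (u l) / A l =
      wd (pp (u 0)) (u 0) * wd (u 1) (u 0) +
        ∑ l ∈ Ico 2 (n + 1), wd (pp (u 0)) (u l) * wd (u 1) (u l) / A l := by
    rw [Finset.range_eq_Ico, Finset.sum_eq_sum_Ico_succ_bot (by omega),
      Finset.sum_eq_sum_Ico_succ_bot (by omega), hA, div_one]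
    have h3 : wd (u (0 + 1)) (u (0 + 1)) = 0 := by
      unfold wd
      ring
    have h4 : wd (u 1) (u 1) = 0 := h3
    simp only [zero_add, h4, mul_zero, zero_div]
  have h3 : ‖wd (pp (u 0)) (u 0) * wd (u 1) (u 0)‖ = δ := by
    rw [norm_mul, wd_comm (pp (u 0)), wd_pp (hu 0), norm_one, one_mul, wd_comm (u 1), ← hδ]
  have h4 : ‖∑ l ∈ Ico 2 (n + 1), wd (pp (u 0)) (u l) * wd (u 1) (u l) / A l‖ ≤ δ / 2 := by
    refine (norm_sum_le _ _).trans (le_trans (Finset.sum_le_sum fun l _ => ?_) hs)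
    rw [norm_div, norm_mul, div_eq_mul_inv]
    have a1 := wd_le_one (tra_ppU (hu 0)) (hu l)
    have a2 := wd_le_one (hu 1) (hu l)
    have a3 : 0 ≤ ‖A l‖⁻¹ := by positivity
    have a4 : ‖wd (pp (u 0)) (u l)‖ * ‖wd (u 1) (u l)‖ ≤ 1 := by
      nlinarith [norm_nonneg (wd (pp (u 0)) (u l)), norm_nonneg (wd (u 1) (u l))]
    nlinarith
  rw [h2] at h1
  have h5 : ‖wd (pp (u 0)) (u 0) * wd (u 1) (u 0)‖ ≤
      ‖wd (pp (u 0)) (u 0) * wd (u 1) (u 0) +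
        ∑ l ∈ Ico 2 (n + 1), wd (pp (u 0)) (u l) * wd (u 1) (u l) / A l‖ +
      ‖∑ l ∈ Ico 2 (n + 1), wd (pp (u 0)) (u l) * wd (u 1) (u l) / A l‖ := by
    have := norm_sub_le (wd (pp (u 0)) (u 0) * wd (u 1) (u 0) +
        ∑ l ∈ Ico 2 (n + 1), wd (pp (u 0)) (u l) * wd (u 1) (u l) / A l)
      (∑ l ∈ Ico 2 (n + 1), wd (pp (u 0)) (u l) * wd (u 1) (u l) / A l)
    rwa [add_sub_cancel_right] at this
  rw [h3] at h5
  linarith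

theorem tra' (u : ℕ → ℂ × ℂ) (hu : ∀ l, IsU (u l)) (A : ℕ → ℂ) (hA : A 0 = 1) {n : ℕ}
    (hs : ∑ l ∈ Ico 1 (n + 1), ‖A l‖⁻¹ ≤ 1 / 2) :
    ∃ j : Fin 3, 1 / 10 ≤ ‖∑ l ∈ range (n + 1), (wd (e3 j) (u l)) ^ 2 / A l‖ := by
  by_contra hcon
  push Not at hcon
  have h1 := tra_pol u A n (1 / 10) (fun j => (hcon j).le) (pp (u 0)) (pp (u 0)) (tra_ppU (hu 0))
    (tra_ppU (hu 0))
  have h2 : ∑ l ∈ range (n + 1), wd (pp (u 0)) (u l) * wd (pp (u 0)) (u l) / A l =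
      wd (pp (u 0)) (u 0) * wd (pp (u 0)) (u 0) +
        ∑ l ∈ Ico 1 (n + 1), wd (pp (u 0)) (u l) * wd (pp (u 0)) (u l) / A l := by
    rw [Finset.range_eq_Ico, Finset.sum_eq_sum_Ico_succ_bot (by omega), hA, div_one]
  have h3 : ‖wd (pp (u 0)) (u 0) * wd (pp (u 0)) (u 0)‖ = 1 := by
    rw [norm_mul, wd_comm (pp (u 0)), wd_pp (hu 0), norm_one, one_mul]
  have h4 : ‖∑ l ∈ Ico 1 (n + 1), wd (pp (u 0)) (u l) * wd (pp (u 0)) (u l) / A l‖ ≤ 1 / 2 := by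
    refine (norm_sum_le _ _).trans (le_trans (Finset.sum_le_sum fun l _ => ?_) hs)
    rw [norm_div, norm_mul, div_eq_mul_inv]
    have a1 := wd_le_one (tra_ppU (hu 0)) (hu l)
    have a3 : 0 ≤ ‖A l‖⁻¹ := by positivity
    have a4 : ‖wd (pp (u 0)) (u l)‖ * ‖wd (pp (u 0)) (u l)‖ ≤ 1 := by
      nlinarith [norm_nonneg (wd (pp (u 0)) (u l))]
    nlinarith
  rw [h2] at h1
  have h5 : ‖wd (pp (u 0)) (u 0) * wd (pp (u 0)) (u 0)‖ ≤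
      ‖wd (pp (u 0)) (u 0) * wd (pp (u 0)) (u 0) +
        ∑ l ∈ Ico 1 (n + 1), wd (pp (u 0)) (u l) * wd (pp (u 0)) (u l) / A l‖ +
      ‖∑ l ∈ Ico 1 (n + 1), wd (pp (u 0)) (u l) * wd (pp (u 0)) (u l) / A l‖ := by
    have := norm_sub_le (wd (pp (u 0)) (u 0) * wd (pp (u 0)) (u 0) +
        ∑ l ∈ Ico 1 (n + 1), wd (pp (u 0)) (u l) * wd (pp (u 0)) (u l) / A l)
      (∑ l ∈ Ico 1 (n + 1), wd (pp (u 0)) (u l) * wd (pp (u 0)) (u l) / A l)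
    rwa [add_sub_cancel_right] at this
  rw [h3] at h5
  linarith

end Pool.Agent.H47.SF
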