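import Pool.Agent.H47.SF.Defs

/-!
# [H47 SF SZE] the numerical conditions hold for large d

PROOF. `qq d = d^(1/200) → ∞`. With `Q = qq d`: `qd`, `qs` are `Real.rpow_natCast`, `Real.rpow_mul`, `Real.sqrt_eq_rpow`. `q4`: `log d = 200 log Q` and
`log x = o(x)` (`Real.isLittleO_log_id_atTop`, or `isLittleO_log_rpow_atTop`). For `q2, q3, q5` with a constant `B` (depending on `n0`) such that the left side is `≤ B R^3`:
if `B^10 ≤ Q` then `(B R^3)^10 = B^10 (R^10)^3 ≤ Q * Q^3 ≤ Q^10`, so `B R^3 ≤ Q` (`pow_le_pow_left` converse: `lt_of_pow_lt_pow_left`).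
-/

set_option autoImplicit false

open Filter

namespace Pool.Agent.H47.SF

theorem sz_large (n0 : ℕ) : ∃ d0 : ℕ, ∀ d ≥ d0, ∀ R : ℝ, 1 ≤ R → R ^ 10 ≤ qq d → Sz n0 d R := by
  have hKD : (1 : ℝ) ≤ KD := by
    unfold KD
    have h3 : (1 : ℝ) ≤ 3 ^ 1000 := one_le_pow₀ (by norm_num)
    exact le_trans (by norm_num : (1 : ℝ) ≤ 6 * 1) (mul_le_mul_of_nonneg_left h3 (by norm_num))
  have h8 : (1 : ℝ) ≤ 8 ^ n0 := one_le_pow₀ (by norm_num)
  obtain ⟨B, hB⟩ : ∃ B : ℝ, B = 10 ^ 6 * KD ^ 4 * 8 ^ n0 := ⟨_, rfl⟩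
  have hK4 : (1 : ℝ) ≤ KD ^ 4 := one_le_pow₀ hKD
  have hB1 : (1 : ℝ) ≤ B := by
    rw [hB]
    calc (1 : ℝ) ≤ 10 ^ 6 * 1 * 1 := by norm_num
      _ ≤ 10 ^ 6 * KD ^ 4 * 8 ^ n0 := by gcongr
  have htop : Tendsto (fun d : ℕ => qq d) atTop atTop := by
    unfold qq
    exact (tendsto_rpow_atTop (by norm_num)).comp tendsto_natCast_atTop_atTop
  have hlog : ∀ᶠ d : ℕ in atTop, 10 ^ 6 * Real.log d ≤ qq d := by
    have h := (isLittleO_log_rpow_atTop (r := (1 : ℝ) / 200) (by norm_num)).def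
      (c := (10 ^ 6 : ℝ)⁻¹) (by positivity)
    have h' := tendsto_natCast_atTop_atTop.eventually h
    filter_upwards [h'] with d hd
    unfold qq
    have h1 : ‖((d : ℝ) ^ ((1 : ℝ) / 200))‖ = (d : ℝ) ^ ((1 : ℝ) / 200) := by
      rw [Real.norm_eq_abs, abs_of_nonneg (Real.rpow_nonneg (Nat.cast_nonneg d) _)]
    rw [h1] at hd
    have h2 : Real.log d ≤ ‖Real.log d‖ := le_abs_self _
    have h3 := h2.trans hd
    calc 10 ^ 6 * Real.log d ≤ 10 ^ 6 * ((10 ^ 6 : ℝ)⁻¹ * (d : ℝ) ^ ((1 : ℝ) / 200)) := by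
          gcongr
      _ = (d : ℝ) ^ ((1 : ℝ) / 200) := by
          rw [← mul_assoc, mul_inv_cancel₀ (by norm_num), one_mul]
  have hev := ((htop.eventually_ge_atTop (4 ^ 710)).and ((htop.eventually_ge_atTop (B ^ 10)).and
    ((htop.eventually_ge_atTop (4 ^ (n0 + 4))).and (hlog.and (eventually_ge_atTop 2)))))
  obtain ⟨d0, hd0⟩ := eventually_atTop.mp hev
  refine ⟨d0, fun d hd R hR1 hR => ?_⟩
  obtain ⟨h1, h2, h3, h4, h5⟩ := hd0 d hd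
  have hQ1 : 1 ≤ qq d := le_trans (one_le_pow₀ hB1) h2
  have hBR : B * R ^ 3 ≤ qq d := by
    have hp : (B * R ^ 3) ^ 10 ≤ qq d ^ 10 := by
      calc (B * R ^ 3) ^ 10 = B ^ 10 * (R ^ 10) ^ 3 := by ring
        _ ≤ qq d * qq d ^ 3 := by gcongr
        _ = qq d ^ 4 := by ring
        _ ≤ qq d ^ 10 := pow_le_pow_right₀ hQ1 (by norm_num)
    exact (pow_le_pow_iff_left₀ (by positivity) (by positivity) (by norm_num)).mp hp
  have hR3 : (1 : ℝ) ≤ R ^ 3 := one_le_pow₀ hR1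
  have hRR : R ≤ R ^ 3 := le_self_pow₀ hR1 (by norm_num)
  have hKK : KD ^ 2 ≤ KD ^ 4 := pow_le_pow_right₀ hKD (by norm_num)
  have hd0' : (0 : ℝ) ≤ (d : ℝ) := Nat.cast_nonneg d
  constructor
  · exact h5
  · exact hR1
  · exact hR
  · exact h1
  · calc 400 * R * KD ^ 2 * 8 ^ n0 ≤ 10 ^ 6 * R ^ 3 * KD ^ 4 * 8 ^ n0 := by
          gcongr
          norm_num
      _ = B * R ^ 3 := by rw [hB]; ring
      _ ≤ qq d := hBR
  · calc 256 * R ^ 3 = 256 * 1 * 1 * R ^ 3 := by ring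
      _ ≤ 10 ^ 6 * KD ^ 4 * 8 ^ n0 * R ^ 3 := by
          gcongr
          norm_num
      _ = B * R ^ 3 := by rw [hB]
      _ ≤ qq d := hBR
  · exact h4
  · calc 10 ^ 6 * R ^ 3 * KD ^ 4 = 10 ^ 6 * R ^ 3 * KD ^ 4 * 1 := by ring
      _ ≤ 10 ^ 6 * R ^ 3 * KD ^ 4 * 8 ^ n0 := by gcongr
      _ = B * R ^ 3 := by rw [hB]; ring
      _ ≤ qq d := hBR
  · exact h3
  · unfold qq
    rw [← Real.rpow_natCast, ← Real.rpow_mul hd0']
    norm_num
  · unfold qq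
    rw [← Real.rpow_natCast, ← Real.rpow_mul hd0', Real.sqrt_eq_rpow]
    norm_num

end Pool.Agent.H47.SF
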