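import Pool.Agent.H47.SF.Hom

/-!
# [H47 SF CRX] a critical point exists

PROOF. (`d ≥ 2`.) `JJ X (t, 1)` is a polynomial `q` in `t` (`hev1 p (t,1) = ∑ p_k k t^(k-1)` etc.). If `q` has a root `t`, normalize `(t, 1)` (`JJ_smul`, `n2 (t,1) > 0`). Otherwise `q` is a constant `k` (`IsAlgClosed.exists_root`); by homogeneity
`JJ X (u1, u2) = u2^(2(d-1)) q(u1/u2) = k u2^(2(d-1))` for `u2 ≠ 0`, and by continuity `JJ X (1, 0) = 0`.
-/

set_option autoImplicit false

open Finset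
open Pool.H70.SF

namespace Pool.Agent.H47.SF

private theorem ex_poly {d : ℕ} (X : CV d) : ∃ q : Polynomial ℂ, ∀ t : ℂ, q.eval t = JJ X (t, 1) := by
  refine ⟨(∑ k : Fin (d + 1), Polynomial.C (X.1 k * (k : ℕ)) * Polynomial.X ^ ((k : ℕ) - 1)) *
      (∑ k : Fin (d + 1), Polynomial.C (X.2 k * ((d - k : ℕ) : ℂ)) * Polynomial.X ^ (k : ℕ)) -
      (∑ k : Fin (d + 1), Polynomial.C (X.1 k * ((d - k : ℕ) : ℂ)) * Polynomial.X ^ (k : ℕ)) *
      (∑ k : Fin (d + 1), Polynomial.C (X.2 k * (k : ℕ)) * Polynomial.X ^ ((k : ℕ) - 1)), fun t => ?_⟩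
  have h1 : ∀ p : Fin (d + 1) → ℂ, hev1 p (t, 1) =
      ∑ k : Fin (d + 1), (p k * (k : ℕ)) * t ^ ((k : ℕ) - 1) := by
    intro p
    unfold hev1
    refine Finset.sum_congr rfl fun k _ => ?_
    simp only [one_pow, mul_one]
    ring
  have h2 : ∀ p : Fin (d + 1) → ℂ, hev2 p (t, 1) =
      ∑ k : Fin (d + 1), (p k * ((d - k : ℕ) : ℂ)) * t ^ (k : ℕ) := by
    intro p
    unfold hev2
    refine Finset.sum_congr rfl fun k _ => ?_
    simp only [one_pow, mul_one]
    ring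
  rw [JJ, h1, h1, h2, h2]
  simp only [Polynomial.eval_sub, Polynomial.eval_mul, Polynomial.eval_finsetSum, Polynomial.eval_C,
    Polynomial.eval_pow, Polynomial.eval_X]

private theorem cont_line {d : ℕ} (X : CV d) : Continuous fun s : ℂ => JJ X (1, s) := by
  unfold JJ hev1 hev2
  simp only
  fun_prop

theorem crit_exists {d : ℕ} (hd : 2 ≤ d) (X : CV d) : ∃ c, IsU c ∧ JJ X c = 0 := by
  obtain ⟨q, hq⟩ := ex_poly X
  by_cases h : q.degree = 0
  · -- constant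
    refine ⟨(1, 0), ?_, ?_⟩
    · simp [IsU, n2]
    · have hc : q = Polynomial.C (q.coeff 0) := Polynomial.eq_C_of_degree_eq_zero h
      have hk : ∀ t : ℂ, JJ X (t, 1) = q.coeff 0 := by
        intro t
        rw [← hq t, hc]
        simp
      have h1 : ∀ s : ℂ, s ≠ 0 → JJ X (1, s) = s ^ (2 * (d - 1)) * q.coeff 0 := by
        intro s hs
        have h2 : ((1 : ℂ), s) = s • ((s⁻¹ : ℂ), (1 : ℂ)) := by
          ext <;> simp [hs]
        rw [h2, JJ_smul, hk]
      have h3 : Filter.Tendsto (fun s : ℂ => JJ X (1, s)) (nhdsWithin 0 {0}ᶜ) (nhds (JJ X (1, 0))) :=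
        ((cont_line X).tendsto 0).mono_left nhdsWithin_le_nhds
      have h4 : Filter.Tendsto (fun s : ℂ => s ^ (2 * (d - 1)) * q.coeff 0) (nhdsWithin 0 {0}ᶜ)
          (nhds ((0 : ℂ) ^ (2 * (d - 1)) * q.coeff 0)) := by
        refine Filter.Tendsto.mono_left ?_ nhdsWithin_le_nhds
        exact (by fun_prop : Continuous fun s : ℂ => s ^ (2 * (d - 1)) * q.coeff 0).tendsto 0
      have h5 : Filter.Tendsto (fun s : ℂ => JJ X (1, s)) (nhdsWithin 0 {0}ᶜ)
          (nhds ((0 : ℂ) ^ (2 * (d - 1)) * q.coeff 0)) := by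
        refine h4.congr' ?_
        filter_upwards [self_mem_nhdsWithin] with s hs
        exact (h1 s hs).symm
      rw [tendsto_nhds_unique h3 h5, zero_pow (by omega), zero_mul]
  · obtain ⟨t, ht⟩ := IsAlgClosed.exists_root q h
    have hpos : 0 < n2 (t, 1) := by
      unfold n2
      simp only [norm_one]
      positivity
    have hs : 0 < Real.sqrt (n2 (t, 1)) := Real.sqrt_pos.mpr hpos
    refine ⟨(((Real.sqrt (n2 (t, 1)))⁻¹ : ℝ) : ℂ) • (t, 1), ?_, ?_⟩
    · rw [IsU, n2_smul, Complex.norm_real, norm_inv, Real.norm_of_nonneg hs.le, inv_pow,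
        Real.sq_sqrt hpos.le]
      exact inv_mul_cancel₀ hpos.ne'
    · rw [JJ_smul, ← hq t, ht.eq_zero, mul_zero]

end Pool.Agent.H47.SF
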