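import Pool.Agent.H47.SF.Deep
import Pool.Agent.H47.SF.Crx

/-!
# [H47 SF CRN] a critical point near every point; consequences

PROOFS. `f2_ge`: `G.es`: `2 s ≤ 1/2 + 1/400` (all terms `≥ 0`), `f2 X c ≥ d^(1-s) ≥ d^(1/2) = sqrt d` (`d ≥ 1`).
`crit_near`: `a = ‖aa X u‖`. `a = 0`: then `JJ X u = 0` (`n2 (FF X u) ≠ 0`, `d ≠ 0`), `c = u`, `wd u u = 0`. `0 < a < Q^3`: `deep` gives `c, r` with `‖wd u c‖ ≤ r ≤ KD a/f2 X c ≤ a` as `f2 X c ≥ sqrt d = Q^100 ≥ KD` (`S.q5`).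
`a ≥ Q^3 ≥ 1`: `‖wd u c‖ ≤ 1` (`wd_le_one`) for any critical point `c` (`crit_exists`).
`val_near`: `deep`: `‖wd (nx X u) (nx X c)‖ ≤ KD a r ≤ KD^2 a^2/f2 X c ≤ a^2`.
-/

set_option autoImplicit false

open Finset
open Pool.H70.SF

namespace Pool.Agent.H47.SF

theorem f2_ge {n0 d : ℕ} {R : ℝ} {X : CV d} (G : Good n0 R X) (S : Sz n0 d R) {c : ℂ × ℂ} (hc : IsU c)
    (hJ : JJ X c = 0) : Real.sqrt d ≤ f2 X c := by
  obtain ⟨s, g, h, hs, hg, hh, h1, -, -, h4⟩ := G.es c hc hJ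
  have h5 : 0 ≤ ∑ l ∈ range (n0 + 1), (g l + 2 * h l) :=
    Finset.sum_nonneg fun l _ => by have := hg l; have := hh l; positivity
  have h6 : (1 : ℝ) / 2 ≤ 1 - s := by linarith
  have hd : (1 : ℝ) ≤ d := by
    have := S.d2
    exact_mod_cast (by omega : 1 ≤ d)
  calc Real.sqrt d = (d : ℝ) ^ ((1 : ℝ) / 2) := Real.sqrt_eq_rpow _
    _ ≤ (d : ℝ) ^ (1 - s) := Real.rpow_le_rpow_of_exponent_le hd h6
    _ ≤ f2 X c := h1

private theorem KD_one : (1 : ℝ) ≤ KD := by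
  unfold KD
  exact (one_le_pow₀ (by norm_num)).trans (le_mul_of_one_le_left (by positivity) (by norm_num))

private theorem qq_one {n0 d : ℕ} {R : ℝ} (S : Sz n0 d R) : 1 ≤ qq d := by
  have h := S.Rq
  exact le_trans (one_le_pow₀ S.R1) h

/-- `KD^2 ≤ sqrt d` -/
private theorem KD2_le {n0 d : ℕ} {R : ℝ} (S : Sz n0 d R) : KD ^ 2 ≤ Real.sqrt d := by
  have hK := KD_one
  have hR := S.R1
  have hq := qq_one S
  have h1 : KD ^ 2 ≤ KD ^ 4 := pow_le_pow_right₀ hK (by norm_num)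
  have h2 : (1 : ℝ) ≤ 10 ^ 6 * R ^ 3 := by
    have : (1 : ℝ) ≤ R ^ 3 := one_le_pow₀ hR
    linarith
  have h3 : KD ^ 4 ≤ 10 ^ 6 * R ^ 3 * KD ^ 4 := le_mul_of_one_le_left (by positivity) h2
  have h4 : qq d ≤ qq d ^ 100 := le_self_pow₀ hq (by norm_num)
  rw [← S.qs]
  linarith [S.q5]

theorem crit_near {n0 d : ℕ} {R : ℝ} {X : CV d} (G : Good n0 R X) (S : Sz n0 d R) {u : ℂ × ℂ} (hu : IsU u) :
    ∃ c, IsU c ∧ JJ X c = 0 ∧ ‖wd u c‖ ≤ ‖aa X u‖ := by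
  have hd : (0 : ℝ) < d := by
    have := S.d2
    exact_mod_cast (by omega : 0 < d)
  rcases (norm_nonneg (aa X u)).eq_or_lt with h0 | h0
  · refine ⟨u, hu, ?_, ?_⟩
    · have h1 : aa X u = 0 := norm_eq_zero.mp h0.symm
      have h2 : 0 < nuF X u := lt_of_lt_of_le (inv_pos.mpr hd) (G.lo u hu)
      have h3 : 0 < n2 (FF X u) := by rw [← nuF_sq]; positivity
      rw [aa, div_eq_zero_iff] at h1
      rcases h1 with h1 | h1
      · exact h1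
      · exfalso
        rcases mul_eq_zero.mp h1 with h4 | h4
        · exact hd.ne' (by exact_mod_cast h4)
        · exact h3.ne' (by exact_mod_cast h4)
    · have : wd u u = 0 := by unfold wd; ring
      rw [this, norm_zero]
      exact norm_nonneg _
  · by_cases h1 : ‖aa X u‖ < qq d ^ 3
    · obtain ⟨c, hc, hJ, r, hr, h2, -, h4⟩ := deep G S hu h0 h1
      refine ⟨c, hc, hJ, h2.trans ?_⟩
      have h5 := f2_ge G S hc hJ
      have h6 : KD ≤ f2 X c := by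
        have := KD2_le S
        have h7 : KD ≤ KD ^ 2 := le_self_pow₀ KD_one (by norm_num)
        linarith
      have h7 : KD * r ≤ KD * ‖aa X u‖ := (mul_le_mul_of_nonneg_right h6 hr.le).trans h4
      exact le_of_mul_le_mul_left h7 (lt_of_lt_of_le one_pos KD_one)
    · obtain ⟨c, hc, hJ⟩ := crit_exists S.d2 X
      refine ⟨c, hc, hJ, (wd_le_one hu hc).trans ?_⟩
      push Not at h1
      exact (one_le_pow₀ (qq_one S)).trans h1

theorem val_near {n0 d : ℕ} {R : ℝ} {X : CV d} (G : Good n0 R X) (S : Sz n0 d R) {u : ℂ × ℂ} (hu : IsU u)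
    (h0 : 0 < ‖aa X u‖) (h1 : ‖aa X u‖ < qq d ^ 3) :
    ∃ c, IsU c ∧ JJ X c = 0 ∧ ‖wd u c‖ ≤ ‖aa X u‖ ∧ ‖wd (nx X u) (nx X c)‖ ≤ ‖aa X u‖ ^ 2 := by
  obtain ⟨c, hc, hJ, r, hr, h2, h3, h4⟩ := deep G S hu h0 h1
  have h5 := f2_ge G S hc hJ
  have hK := KD_one
  have hK2 := KD2_le S
  have h8 : KD ^ 2 ≤ f2 X c := hK2.trans h5
  have h6 : KD ≤ f2 X c := (le_self_pow₀ hK (by norm_num)).trans h8
  refine ⟨c, hc, hJ, h2.trans ?_, h3.trans ?_⟩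
  · have h7 : KD * r ≤ KD * ‖aa X u‖ := (mul_le_mul_of_nonneg_right h6 hr.le).trans h4
    exact le_of_mul_le_mul_left h7 (lt_of_lt_of_le one_pos hK)
  · have h9 : KD ^ 2 * r ≤ KD * ‖aa X u‖ := (mul_le_mul_of_nonneg_right h8 hr.le).trans h4
    have h10 : KD * (KD * r) ≤ KD * ‖aa X u‖ := by
      calc KD * (KD * r) = KD ^ 2 * r := by ring
        _ ≤ _ := h9
    have h11 : KD * r ≤ ‖aa X u‖ := le_of_mul_le_mul_left h10 (lt_of_lt_of_le one_pos hK)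
    calc KD * ‖aa X u‖ * r = ‖aa X u‖ * (KD * r) := by ring
      _ ≤ ‖aa X u‖ * ‖aa X u‖ := mul_le_mul_of_nonneg_left h11 h0.le
      _ = ‖aa X u‖ ^ 2 := by ring

end Pool.Agent.H47.SF
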