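import Pool.Agent.H47.SF.Gde

/-!
# [H47 SF NOTWO] no two bad blocks in a row

PROOF (section 8 of the text), `Q = qq d`, `d = Q^200`, `sqrt d = Q^100`. First bad block: `x, c`, `y0 = f c`, `y1 = f (f c)`: `D (f x) y0 ≤ Q^15/d`, `ν y0 ≥ Q^(-8)`, `ν y1 ≥ Q^(-4)`,
`a y1 ≥ Q^92`. Second: `f x, c1`, `v0 = f c1`: `D (f x) c1 ≤ Q^12/d`, `a v0 ≤ Q^24`. So `D y0 c1 ≤ Q^15/d + Q^12/d ≤ Q^16/d ≤ ν y0/(32 R sqrt d)` (`32 R Q^24 ≤ Q^100`).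
`A.cr2 y0 c1`: `D (f y0) (f c1) ≤ 256 R^2 d (Q^16/d)^2 Q^16 ≤ Q^50/d`, i.e. `D y1 v0 ≤ Q^50/d ≤ 1/(4 sqrt d)`. `A.lip y1 v0`: `a y1 (ν y1)^2 ≤ 4 R^2 Q^24 + 64 R^2 Q^50 ≤ Q^52`, but the left side is
`≥ Q^92 Q^(-8) = Q^84`. Contradiction (`256 R^2 ≤ Q` from `S.q3`, `4 ≤ Q` from `S.q1`).
-/

set_option autoImplicit false

open Finset

namespace Pool.Agent.H47.SF

variable {Y : Type} {n0 d : ℕ} {R : ℝ} {f : Y → Y} {a ν : Y → ℝ} {D : Y → Y → ℝ} {Cr : Set Y} {F2 : Y → ℝ}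

theorem notwo (A : Abs n0 d R f a ν D Cr F2) (S : Sz n0 d R) {x : Y} (h1 : BadP d f a ν D Cr x)
    (h2 : BadP d f a ν D Cr (f x)) : False := by
  obtain ⟨c, hc, hxc, hfc, hac, hν0, hν1, ha1⟩ := h1.ex
  obtain ⟨c1, hc1, hxc1, hfc1, hac1, -, -, -⟩ := h2.ex
  obtain ⟨Q, hQ⟩ : ∃ Q : ℝ, Q = qq d := ⟨_, rfl⟩
  have hd : (d : ℝ) = Q ^ 200 := by
    rw [hQ]
    exact S.qd.symm
  have hs : Real.sqrt d = Q ^ 100 := by
    rw [hQ]
    exact S.qs.symm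
  have hq1 : (4 : ℝ) ≤ Q := by
    rw [hQ]
    refine le_trans ?_ S.q1
    calc (4 : ℝ) = 4 ^ 1 := (pow_one _).symm
      _ ≤ 4 ^ 710 := pow_le_pow_right₀ (by norm_num) (by norm_num)
  have hq3 : 256 * R ^ 3 ≤ Q := by
    rw [hQ]
    exact S.q3
  have hR1 := S.R1
  rw [← hQ] at hxc hfc hac hν0 hν1 ha1 hxc1 hfc1 hac1
  rw [hs] at ha1
  rw [hd] at hxc hfc hxc1 hfc1
  have hQ0 : 0 < Q := by linarith
  have hR3 : R ^ 2 ≤ R ^ 3 := pow_le_pow_right₀ hR1 (by norm_num)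
  have hR2 : 256 * R ^ 2 ≤ Q := by linarith
  have hRR : R ≤ R ^ 2 := by nlinarith
  have h32 : 32 * R ≤ Q := by nlinarith
  -- distance of `y0` and `c1`
  have hD : D (f c) c1 ≤ Q ^ 16 / Q ^ 200 := by
    have t1 := A.tri (f c) (f x) c1
    rw [A.sym (f c) (f x)] at t1
    have t2 : Q ^ 15 / Q ^ 200 + Q ^ 12 / Q ^ 200 ≤ Q ^ 16 / Q ^ 200 := by
      rw [← add_div]
      apply div_le_div_of_nonneg_right _ (by positivity)
      have t3 : Q ^ 12 ≤ Q ^ 15 := pow_le_pow_right₀ (by linarith) (by norm_num)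
      have t4 : Q ^ 16 = Q * Q ^ 15 := by ring
      have t5 : 0 < Q ^ 15 := by positivity
      nlinarith
    linarith
  have hD0 := A.D0 (f c) c1
  have hνp : 0 < ν (f c) := A.nu0 _
  have hQ8 : 0 < (Q ^ 8)⁻¹ := by positivity
  -- the condition of `cr2`
  have hc2 : D (f c) c1 ≤ ν (f c) / (32 * R * Real.sqrt d) := by
    rw [hs]
    refine hD.trans ?_
    rw [div_le_div_iff₀ (by positivity) (by positivity)]
    have t1 : Q ^ 16 * (32 * R * Q ^ 100) ≤ Q ^ 117 := by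
      calc Q ^ 16 * (32 * R * Q ^ 100) = (32 * R) * Q ^ 116 := by ring
        _ ≤ Q * Q ^ 116 := mul_le_mul_of_nonneg_right h32 (by positivity)
        _ = Q ^ 117 := by ring
    have t2 : Q ^ 117 ≤ Q ^ 192 := pow_le_pow_right₀ (by linarith) (by norm_num)
    have t3 : Q ^ 192 = (Q ^ 8)⁻¹ * Q ^ 200 := by
      field_simp
    have t4 : (Q ^ 8)⁻¹ * Q ^ 200 ≤ ν (f c) * Q ^ 200 :=
      mul_le_mul_of_nonneg_right hν0 (by positivity)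
    linarith
  have hcr := A.cr2 (f c) c1 hc1 hc2
  rw [hd] at hcr
  have hD1 : D (f (f c)) (f c1) ≤ Q ^ 50 / Q ^ 200 := by
    refine hcr.trans ?_
    rw [div_le_iff₀ (by positivity)]
    have t1 : D (f c) c1 ^ 2 ≤ (Q ^ 16 / Q ^ 200) ^ 2 := pow_le_pow_left₀ hD0 hD 2
    have t2 : ((Q ^ 8)⁻¹) ^ 2 ≤ ν (f c) ^ 2 := pow_le_pow_left₀ hQ8.le hν0 2
    calc 256 * R ^ 2 * Q ^ 200 * D (f c) c1 ^ 2 ≤ Q * Q ^ 200 * (Q ^ 16 / Q ^ 200) ^ 2 := by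
          apply mul_le_mul _ t1 (by positivity) (by positivity)
          exact mul_le_mul_of_nonneg_right hR2 (by positivity)
      _ = Q ^ 33 / Q ^ 200 := by
          field_simp
      _ ≤ Q ^ 34 / Q ^ 200 := by
          apply div_le_div_of_nonneg_right _ (by positivity)
          exact pow_le_pow_right₀ (by linarith) (by norm_num)
      _ = Q ^ 50 / Q ^ 200 * ((Q ^ 8)⁻¹) ^ 2 := by
          field_simp
      _ ≤ Q ^ 50 / Q ^ 200 * ν (f c) ^ 2 := mul_le_mul_of_nonneg_left t2 (by positivity)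
  have hl : D (f (f c)) (f c1) ≤ 1 / (4 * Real.sqrt d) := by
    rw [hs]
    refine hD1.trans ?_
    rw [div_le_div_iff₀ (by positivity) (by positivity)]
    calc Q ^ 50 * (4 * Q ^ 100) = 4 * Q ^ 150 := by ring
      _ ≤ Q * Q ^ 150 := mul_le_mul_of_nonneg_right hq1 (by positivity)
      _ = Q ^ 151 := by ring
      _ ≤ 1 * Q ^ 200 := by
          rw [one_mul]
          exact pow_le_pow_right₀ (by linarith) (by norm_num)
  have hlip := A.lip (f (f c)) (f c1) hl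
  rw [hd] at hlip
  have hup : 4 * R ^ 2 * a (f c1) + 64 * R ^ 2 * Q ^ 200 * D (f (f c)) (f c1) ≤ Q ^ 51 := by
    have t1 : 4 * R ^ 2 * a (f c1) ≤ 4 * R ^ 2 * Q ^ 24 :=
      mul_le_mul_of_nonneg_left hac1 (by positivity)
    have t2 : 64 * R ^ 2 * Q ^ 200 * D (f (f c)) (f c1) ≤ 64 * R ^ 2 * Q ^ 200 * (Q ^ 50 / Q ^ 200) :=
      mul_le_mul_of_nonneg_left hD1 (by positivity)
    have t3 : 64 * R ^ 2 * Q ^ 200 * (Q ^ 50 / Q ^ 200) = 64 * R ^ 2 * Q ^ 50 := by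
      field_simp
    have t4 : Q ^ 24 ≤ Q ^ 50 := pow_le_pow_right₀ (by linarith) (by norm_num)
    have t5 : 4 * R ^ 2 * Q ^ 24 ≤ 4 * R ^ 2 * Q ^ 50 := mul_le_mul_of_nonneg_left t4 (by positivity)
    have t6 : 256 * R ^ 2 * Q ^ 50 ≤ Q * Q ^ 50 := mul_le_mul_of_nonneg_right hR2 (by positivity)
    have t7 : Q ^ 51 = Q * Q ^ 50 := by ring
    have t8 : 0 ≤ R ^ 2 * Q ^ 50 := by positivity
    linarith
  have hlow : Q ^ 84 ≤ a (f (f c)) * ν (f (f c)) ^ 2 := by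
    have t1 : ((Q ^ 4)⁻¹) ^ 2 ≤ ν (f (f c)) ^ 2 := pow_le_pow_left₀ (by positivity) hν1 2
    calc Q ^ 84 = Q ^ 100 / Q ^ 8 * ((Q ^ 4)⁻¹) ^ 2 := by
          field_simp
      _ ≤ a (f (f c)) * ν (f (f c)) ^ 2 := mul_le_mul ha1 t1 (by positivity) (A.a0 _)
  have hlt : Q ^ 51 < Q ^ 84 := pow_lt_pow_right₀ (by linarith) (by norm_num)
  linarith

end Pool.Agent.H47.SF
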