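import Pool.Agent.H47.SF.Blk
import Pool.Agent.H47.SF.NoTwo

/-!
# [H47 SF H4] consequences of the block lemma (H4 of helper91, GB of helper84)

PROOFS. `Q = qq d`, `θ = (d^C0)⁻¹ ≤ 1/d ≤ 1/Q`.
`h4`: `block` for `x`; first case (`Q^3 ≤ Pa x b`): `m = b`. Second case (`b = 1`, `BadP x`, so `a x ≥ 1/Q`): if `a (f x) < θ` take `m = 1`, second alternative (`Pa x 1 = a x`); otherwise `block` for `f x`, it cannot be bad (`notwo`), so `m = 1 + b'`, `Pa x m = a x * Pa (f x) b' ≥ Q^(-1) Q^3` (`Pa_succ'`).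
`gb`: strong induction on `m`. `m = 0` trivial (`Pa = 1`). For `m ≥ 1` let `m'` be the length in `h4`. If `m' ≤ m`: in the first case `Pa x m = Pa x m' * Pa (f^[m'] x) (m - m')` (`Pa_add`), `Pa x m' ≥ Q^2 ≥ 2^m'`, induction hypothesis for `f^[m'] x`, `m - m'`. In the second case `a (f^[m'] x) < θ`, so `m' = m` (all `a (x_l) ≥ θ` for `l < m`) and
`Pa x m ≥ 1/Q ≥ 2^m/Q^2`. If `m < m'`: `h4` gives `Pa x m ≥ θ/Q^2 ≥ θ Q^(-3) 2^m` and `a (f^[m] x) ≥ θ`; `2^m ≤ 2^(n0+2) ≤ Q` (`S.q6`).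
-/

set_option autoImplicit false

open Finset

namespace Pool.Agent.H47.SF

variable {Y : Type} {n0 d : ℕ} {R : ℝ} {f : Y → Y} {a ν : Y → ℝ} {D : Y → Y → ℝ} {Cr : Set Y} {F2 : Y → ℝ}

theorem qq_facts (S : Sz n0 d R) : 4 ≤ qq d ∧ (2:ℝ) ^ (n0 + 2) ≤ qq d := by
  constructor
  · calc (4:ℝ) = 4 ^ 1 := by norm_num
      _ ≤ 4 ^ 710 := pow_le_pow_right₀ (by norm_num) (by norm_num)
      _ ≤ qq d := S.q1
  · calc (2:ℝ) ^ (n0 + 2) ≤ 4 ^ (n0 + 2) := pow_le_pow_left₀ (by norm_num) (by norm_num) _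
      _ ≤ 4 ^ (n0 + 4) := pow_le_pow_right₀ (by norm_num) (by omega)
      _ ≤ qq d := S.q6

theorem theta_le (S : Sz n0 d R) {C0 : ℕ} (hC : 1 ≤ C0) : ((d : ℝ) ^ C0)⁻¹ ≤ (qq d)⁻¹ := by
  have h4 := (qq_facts S).1
  have h1 : qq d ≤ (d : ℝ) := by
    rw [← S.qd]
    calc qq d = qq d ^ 1 := (pow_one _).symm
      _ ≤ qq d ^ 200 := pow_le_pow_right₀ (by linarith) (by norm_num)
  have h2 : (d : ℝ) ≤ (d : ℝ) ^ C0 := by
    calc (d : ℝ) = (d : ℝ) ^ 1 := (pow_one _).symm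
      _ ≤ (d : ℝ) ^ C0 := pow_le_pow_right₀ (by linarith) hC
  exact inv_anti₀ (by linarith) (h1.trans h2)

theorem h4 (A : Abs n0 d R f a ν D Cr F2) (S : Sz n0 d R) {C0 : ℕ} (hC : 1 ≤ C0) (hn : 4 * C0 + 8 ≤ n0) {x : Y}
    (hx : ((d : ℝ) ^ C0)⁻¹ ≤ a x) :
    ∃ m, 1 ≤ m ∧ m ≤ n0 + 2 ∧ (∀ l < m, ((d : ℝ) ^ C0)⁻¹ ≤ a (f^[l] x)) ∧
      (∀ l ≤ m, ((d : ℝ) ^ C0)⁻¹ * (qq d ^ 2)⁻¹ ≤ Pa a f x l) ∧
      (qq d ^ 2 ≤ Pa a f x m ∨ (qq d)⁻¹ ≤ Pa a f x m ∧ a (f^[m] x) < ((d : ℝ) ^ C0)⁻¹) := by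
  obtain ⟨h4, h2n⟩ := qq_facts S
  have hQ : 0 < qq d := by linarith
  have hθ := theta_le S hC
  have hd0 : 0 < (d : ℝ) := by have := S.d2; positivity
  have hθ0 : 0 < ((d : ℝ) ^ C0)⁻¹ := by positivity
  have hQ1 : (qq d)⁻¹ ≤ 1 := inv_le_one_of_one_le₀ (by linarith)
  have hQ0 : 0 < (qq d)⁻¹ := by positivity
  have hQ2 : (qq d ^ 2)⁻¹ = (qq d)⁻¹ * (qq d)⁻¹ := by rw [sq, mul_inv]
  have hθ1 : ((d : ℝ) ^ C0)⁻¹ ≤ 1 := hθ.trans hQ1
  obtain ⟨b, hb1, hb2, hb3, hb4, hb5⟩ := block A S hn hx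
  have hzero : ((d : ℝ) ^ C0)⁻¹ * (qq d ^ 2)⁻¹ ≤ 1 := by
    rw [hQ2]
    have : (qq d)⁻¹ * (qq d)⁻¹ ≤ 1 := mul_le_one₀ hQ1 hQ0.le hQ1
    calc ((d : ℝ) ^ C0)⁻¹ * ((qq d)⁻¹ * (qq d)⁻¹) ≤ 1 * 1 := by
          apply mul_le_mul hθ1 this (by positivity) (by norm_num)
      _ = 1 := by norm_num
  have hl0 : ∀ l, l ≤ b → ((d : ℝ) ^ C0)⁻¹ * (qq d ^ 2)⁻¹ ≤ Pa a f x l := by
    intro l hl
    rcases Nat.eq_zero_or_pos l with rfl | hl0
    · rw [Pa_zero]; exact hzero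
    · refine le_trans ?_ (hb4 l hl0 hl)
      rw [hQ2]
      calc ((d : ℝ) ^ C0)⁻¹ * ((qq d)⁻¹ * (qq d)⁻¹) ≤ ((d : ℝ) ^ C0)⁻¹ * (1 * (qq d)⁻¹) := by gcongr
        _ ≤ a x * (qq d)⁻¹ := by rw [one_mul]; gcongr
  have hin : ∀ l < b, ((d : ℝ) ^ C0)⁻¹ ≤ a (f^[l] x) := by
    intro l hl
    rcases Nat.eq_zero_or_pos l with rfl | hl0
    · simpa using hx
    · exact hθ.trans (hb3 l hl0 hl)
  rcases hb5 with hg | ⟨hb, hbad⟩
  · refine ⟨b, hb1, by omega, hin, hl0, Or.inl ?_⟩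
    exact le_trans (pow_le_pow_right₀ (by linarith) (by norm_num)) hg
  · subst hb
    have hax : (qq d)⁻¹ ≤ a x := hbad.ax
    have hP1 : Pa a f x 1 = a x := by simp [Pa]
    by_cases hfx : a (f x) < ((d : ℝ) ^ C0)⁻¹
    · refine ⟨1, le_rfl, by omega, hin, hl0, Or.inr ⟨by rw [hP1]; exact hax, by simpa using hfx⟩⟩
    · push Not at hfx
      obtain ⟨b', h1, h2, h3, h4', h5⟩ := block A S hn hfx
      rcases h5 with hg | ⟨hb, hbad'⟩
      · refine ⟨b' + 1, by omega, by omega, ?_, ?_, Or.inl ?_⟩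
        · intro l hl
          rcases Nat.eq_zero_or_pos l with rfl | hl0
          · simpa using hx
          · obtain ⟨k, rfl⟩ : ∃ k, l = k + 1 := ⟨l - 1, by omega⟩
            rw [Function.iterate_succ_apply]
            rcases Nat.eq_zero_or_pos k with rfl | hk0
            · simpa using hfx
            · exact hθ.trans (h3 k hk0 (by omega))
        · intro l hl
          rcases Nat.eq_zero_or_pos l with rfl | hl0
          · rw [Pa_zero]; exact hzero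
          · obtain ⟨k, rfl⟩ : ∃ k, l = k + 1 := ⟨l - 1, by omega⟩
            rw [Pa_succ', hQ2]
            rcases Nat.eq_zero_or_pos k with rfl | hk0
            · rw [Pa_zero, mul_one]
              calc ((d : ℝ) ^ C0)⁻¹ * ((qq d)⁻¹ * (qq d)⁻¹) ≤ 1 * ((qq d)⁻¹ * 1) := by gcongr
                _ ≤ a x := by linarith
            · have := h4' k hk0 (by omega)
              calc ((d : ℝ) ^ C0)⁻¹ * ((qq d)⁻¹ * (qq d)⁻¹) = (qq d)⁻¹ * (((d : ℝ) ^ C0)⁻¹ * (qq d)⁻¹) := by ring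
                _ ≤ (qq d)⁻¹ * (a (f x) * (qq d)⁻¹) := by gcongr
                _ ≤ a x * Pa a f (f x) k := by
                    apply mul_le_mul hax this (by have := A.a0 (f x); positivity) (A.a0 x)
        · rw [Pa_succ']
          calc qq d ^ 2 = (qq d)⁻¹ * qq d ^ 3 := by field_simp
            _ ≤ a x * Pa a f (f x) b' := mul_le_mul hax hg (by positivity) (A.a0 x)
      · exact (notwo A S hbad hbad').elim

theorem gb (A : Abs n0 d R f a ν D Cr F2) (S : Sz n0 d R) {C0 : ℕ} (hC : 1 ≤ C0) (hn : 4 * C0 + 8 ≤ n0) (m : ℕ) :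
    ∀ x : Y, (∀ l < m, ((d : ℝ) ^ C0)⁻¹ ≤ a (f^[l] x)) →
      ((d : ℝ) ^ C0)⁻¹ * (qq d ^ 3)⁻¹ * 2 ^ m ≤ Pa a f x m ∧
        (a (f^[m] x) < ((d : ℝ) ^ C0)⁻¹ → (qq d ^ 2)⁻¹ * 2 ^ m ≤ Pa a f x m) := by
  obtain ⟨h4Q, h2n⟩ := qq_facts S
  have hQ : 0 < qq d := by linarith
  have hθ := theta_le S hC
  have hd0 : 0 < (d : ℝ) := by have := S.d2; positivity
  have hθ0 : 0 < ((d : ℝ) ^ C0)⁻¹ := by positivity
  have hQ1 : (qq d)⁻¹ ≤ 1 := inv_le_one_of_one_le₀ (by linarith)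
  have hQ0 : 0 < (qq d)⁻¹ := by positivity
  have hθ1 : ((d : ℝ) ^ C0)⁻¹ ≤ 1 := hθ.trans hQ1
  have hQ2 : (qq d ^ 2)⁻¹ = (qq d)⁻¹ * (qq d)⁻¹ := by rw [sq, mul_inv]
  have hQ3 : (qq d ^ 3)⁻¹ = (qq d)⁻¹ * (qq d)⁻¹ * (qq d)⁻¹ := by rw [pow_succ, mul_inv, hQ2]
  have h2m : ∀ k ≤ n0 + 2, (2:ℝ) ^ k * (qq d)⁻¹ ≤ 1 := by
    intro k hk
    rw [← div_eq_mul_inv, div_le_one hQ]
    exact (pow_le_pow_right₀ (by norm_num) hk).trans h2n
  induction m using Nat.strong_induction_on with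
  | _ m ih =>
    intro x hx
    rcases Nat.eq_zero_or_pos m with rfl | hm
    · rw [Pa_zero]
      have e1 : (qq d)⁻¹ * (qq d)⁻¹ ≤ 1 := mul_le_one₀ hQ1 hQ0.le hQ1
      have e2 : (qq d)⁻¹ * (qq d)⁻¹ * (qq d)⁻¹ ≤ 1 := mul_le_one₀ e1 hQ0.le hQ1
      constructor
      · rw [hQ3, pow_zero, mul_one]
        exact mul_le_one₀ hθ1 (by positivity) e2
      · intro _; rw [hQ2, pow_zero, mul_one]; exact e1
    · obtain ⟨m', hm1, hm2, hm3, hm4, hm5⟩ := h4 A S hC hn (hx 0 hm)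
      rcases lt_or_ge m m' with hlt | hge
      · refine ⟨?_, fun hh => absurd (hm3 m hlt) (not_le.mpr hh)⟩
        refine le_trans ?_ (hm4 m hlt.le)
        rw [hQ3, hQ2]
        have := h2m m (by omega)
        calc ((d : ℝ) ^ C0)⁻¹ * ((qq d)⁻¹ * (qq d)⁻¹ * (qq d)⁻¹) * 2 ^ m
            = ((d : ℝ) ^ C0)⁻¹ * ((qq d)⁻¹ * (qq d)⁻¹) * (2 ^ m * (qq d)⁻¹) := by ring
          _ ≤ ((d : ℝ) ^ C0)⁻¹ * ((qq d)⁻¹ * (qq d)⁻¹) * 1 := by gcongr
          _ = _ := by ring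
      · rcases hm5 with hg | ⟨hg, hlow⟩
        · obtain ⟨k, rfl⟩ : ∃ k, m = m' + k := ⟨m - m', by omega⟩
          have hih := ih k (by omega) (f^[m'] x) (by
            intro l hl
            rw [← Function.iterate_add_apply, Nat.add_comm]
            exact hx (m' + l) (by omega))
          rw [← Function.iterate_add_apply, Nat.add_comm k m'] at hih
          have hPm : (2:ℝ) ^ m' ≤ Pa a f x m' := by
            refine le_trans ?_ hg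
            calc (2:ℝ) ^ m' ≤ 2 ^ (n0 + 2) := pow_le_pow_right₀ (by norm_num) hm2
              _ ≤ qq d := h2n
              _ = qq d ^ 1 := (pow_one _).symm
              _ ≤ qq d ^ 2 := pow_le_pow_right₀ (by linarith) (by norm_num)
          rw [Pa_add]
          constructor
          · calc ((d : ℝ) ^ C0)⁻¹ * (qq d ^ 3)⁻¹ * 2 ^ (m' + k)
                = 2 ^ m' * (((d : ℝ) ^ C0)⁻¹ * (qq d ^ 3)⁻¹ * 2 ^ k) := by rw [pow_add]; ring
              _ ≤ Pa a f x m' * Pa a f (f^[m'] x) k :=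
                  mul_le_mul hPm hih.1 (by positivity) (Pa_nonneg A.a0 _ _ _)
          · intro hh
            calc (qq d ^ 2)⁻¹ * 2 ^ (m' + k) = 2 ^ m' * ((qq d ^ 2)⁻¹ * 2 ^ k) := by rw [pow_add]; ring
              _ ≤ Pa a f x m' * Pa a f (f^[m'] x) k :=
                  mul_le_mul hPm (hih.2 hh) (by positivity) (Pa_nonneg A.a0 _ _ _)
        · have : m' = m := by
            by_contra hne
            exact absurd (hx m' (by omega)) (not_le.mpr hlow)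
          subst this
          have h1 := h2m m' hm2
          have key : (qq d ^ 2)⁻¹ * 2 ^ m' ≤ Pa a f x m' := by
            refine le_trans ?_ hg
            rw [hQ2]
            calc (qq d)⁻¹ * (qq d)⁻¹ * 2 ^ m' = (qq d)⁻¹ * (2 ^ m' * (qq d)⁻¹) := by ring
              _ ≤ (qq d)⁻¹ * 1 := by gcongr
              _ = _ := by ring
          refine ⟨?_, fun _ => key⟩
          refine le_trans ?_ key
          rw [hQ3, hQ2]
          calc ((d : ℝ) ^ C0)⁻¹ * ((qq d)⁻¹ * (qq d)⁻¹ * (qq d)⁻¹) * 2 ^ m'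
              = (((d : ℝ) ^ C0)⁻¹ * (qq d)⁻¹) * ((qq d)⁻¹ * (qq d)⁻¹ * 2 ^ m') := by ring
            _ ≤ 1 * ((qq d)⁻¹ * (qq d)⁻¹ * 2 ^ m') := by
                gcongr
                exact mul_le_one₀ hθ1 hQ0.le hQ1
            _ = _ := by ring

end Pool.Agent.H47.SF
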