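import Pool.Agent.H47.SF.Bnb

/-!
# [H47 SF BND] bounds in the charts: differences and the Wronskian

`R` is an upper bound of `|F|` on unit vectors.
PROOFS. `bndD`: `h = e1 P + e2 Q` (`P = ch X.1 u`, `Q = ch X.2 u`) with `e = conj (Φ(t) - Φ(0))`; `‖h'‖ ≤ |e| 4 R sqrt d` on the ball `‖.‖ ≤ ‖t‖` (`bnd1`, Cauchy-Schwarz), mean value inequality (`Convex.norm_image_sub_le_of_norm_deriv_le`):
`|e|^2 = |h(t) - h(0)| ≤ |e| 4R sqrt d ‖t‖`. (`u + 0 • pp u = u`.)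
`bndW`: `Wc_eq` and `wd_cs'`: `|W| ≤ |Φ||Φ'| ≤ 2R * 4R sqrt d` (`bnd0`, `bnd1`). `bndW'`: `deriv_Wc` and Cauchy-Schwarz (`bnd2`). `bndWW`: mean value inequality on the convex set `2 ‖.‖ sqrt d ≤ 1`, `‖W'‖ ≤ 16 R d * 2 R` (`bnd0`).
-/

set_option autoImplicit false

open Finset
open Pool.H70.SF

namespace Pool.Agent.H47.SF

variable {d : ℕ} {R : ℝ} {X : CV d}

private theorem mv (f g : ℂ → ℂ) (hf : Differentiable ℂ f) (hg : Differentiable ℂ g) (t : ℂ) (B : ℝ)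
    (hB : ∀ z : ℂ, ‖z‖ ≤ ‖t‖ → Real.sqrt (n2 (deriv f z, deriv g z)) ≤ B) :
    Real.sqrt (n2 (f t - f 0, g t - g 0)) ≤ B * ‖t‖ := by
  set a := f t - f 0 with ha
  set b := g t - g 0 with hb
  set N := Real.sqrt (n2 (a, b)) with hN
  have hN0 : 0 ≤ N := Real.sqrt_nonneg _
  have hN2 : N * N = n2 (a, b) := Real.mul_self_sqrt (n2_nonneg _)
  have hB0 : 0 ≤ B := (Real.sqrt_nonneg _).trans (hB t le_rfl)
  have hder : ∀ z, deriv (fun z => (starRingEnd ℂ) a * f z + (starRingEnd ℂ) b * g z) z =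
      (starRingEnd ℂ) a * deriv f z + (starRingEnd ℂ) b * deriv g z := by
    intro z
    exact (((hf z).hasDerivAt.const_mul _).add ((hg z).hasDerivAt.const_mul _)).deriv
  have hbd : ∀ z ∈ Metric.closedBall (0 : ℂ) ‖t‖,
      ‖deriv (fun z => (starRingEnd ℂ) a * f z + (starRingEnd ℂ) b * g z) z‖ ≤ N * B := by
    intro z hz
    rw [mem_closedBall_zero_iff] at hz
    rw [hder]
    have h1 := wd_cs' ((starRingEnd ℂ) a, -(starRingEnd ℂ) b) (deriv g z, deriv f z)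
    have h2 : wd ((starRingEnd ℂ) a, -(starRingEnd ℂ) b) (deriv g z, deriv f z) =
        (starRingEnd ℂ) a * deriv f z + (starRingEnd ℂ) b * deriv g z := by
      simp only [wd]
      ring
    have h3 : n2 ((starRingEnd ℂ) a, -(starRingEnd ℂ) b) = n2 (a, b) := by
      simp only [n2, norm_neg, RCLike.norm_conj]
    have h4 : n2 (deriv g z, deriv f z) = n2 (deriv f z, deriv g z) := by
      simp only [n2]
      ring
    rw [h2, h3, h4] at h1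
    exact h1.trans (mul_le_mul_of_nonneg_left (hB z hz) hN0)
  have hmv := Convex.norm_image_sub_le_of_norm_deriv_le (𝕜 := ℂ)
    (f := fun z => (starRingEnd ℂ) a * f z + (starRingEnd ℂ) b * g z)
    (fun z _ => ((hf z).const_mul _).add ((hg z).const_mul _)) hbd
    (convex_closedBall (0 : ℂ) ‖t‖) (x := 0) (y := t)
    (Metric.mem_closedBall_self (norm_nonneg t)) (by rw [mem_closedBall_zero_iff])
  have h5 : ((starRingEnd ℂ) a * f t + (starRingEnd ℂ) b * g t) -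
      ((starRingEnd ℂ) a * f 0 + (starRingEnd ℂ) b * g 0) = ((N * N : ℝ) : ℂ) := by
    have h6 : (starRingEnd ℂ) a * f t + (starRingEnd ℂ) b * g t -
      ((starRingEnd ℂ) a * f 0 + (starRingEnd ℂ) b * g 0) =
        (starRingEnd ℂ) a * a + (starRingEnd ℂ) b * b := by
      rw [ha, hb]
      ring
    rw [h6, hN2, n2]
    push_cast
    rw [← Complex.conj_mul' a, ← Complex.conj_mul' b]
  rw [h5, Complex.norm_real, Real.norm_eq_abs, abs_of_nonneg (mul_nonneg hN0 hN0), sub_zero] at hmv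
  rcases hN0.eq_or_lt with h0 | h0
  · rw [← h0]
    positivity
  · have h7 : N * N ≤ N * (B * ‖t‖) := by linarith
    exact le_of_mul_le_mul_left h7 h0

private theorem small (hd : 1 ≤ d) {t : ℂ} (ht : 2 * ‖t‖ * Real.sqrt d ≤ 1) :
    ‖t‖ ^ 2 * d ≤ 1 := by
  have h1 : Real.sqrt d ^ 2 = d := Real.sq_sqrt (Nat.cast_nonneg d)
  have h2 : 0 ≤ ‖t‖ * Real.sqrt d := by positivity
  have h3 : ‖t‖ * Real.sqrt d ≤ 1 / 2 := by linarith
  calc ‖t‖ ^ 2 * d = (‖t‖ * Real.sqrt d) ^ 2 := by rw [mul_pow, h1]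
    _ ≤ (1 / 2) ^ 2 := pow_le_pow_left₀ h2 h3 2
    _ ≤ 1 := by norm_num

theorem bndD (hd : 1 ≤ d) (hR : 0 ≤ R) (hi : ∀ u, IsU u → nuF X u ≤ R) {u : ℂ × ℂ} (hu : IsU u) {t : ℂ}
    (ht : 2 * ‖t‖ * Real.sqrt d ≤ 1) :
    Real.sqrt (n2 (FF X (u + t • pp u) - FF X u)) ≤ 4 * R * Real.sqrt d * ‖t‖ := by
  have h0 : FF X u = (ch X.1 u 0, ch X.2 u 0) := by
    simp only [ch, zero_smul, add_zero, FF]
  have h1 : FF X (u + t • pp u) - FF X u =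
      (ch X.1 u t - ch X.1 u 0, ch X.2 u t - ch X.2 u 0) := by
    rw [h0]
    rfl
  rw [h1]
  refine mv _ _ (ch_diff X.1 u) (ch_diff X.2 u) t _ fun z hz => ?_
  refine bnd1 hd hR hi hu ?_
  have h2 : 2 * ‖z‖ * Real.sqrt d ≤ 2 * ‖t‖ * Real.sqrt d := by gcongr
  exact h2.trans ht

theorem bndW (hd : 1 ≤ d) (hR : 0 ≤ R) (hi : ∀ u, IsU u → nuF X u ≤ R) {u : ℂ × ℂ} (hu : IsU u) {t : ℂ}
    (ht : 2 * ‖t‖ * Real.sqrt d ≤ 1) : ‖Wc X u t‖ ≤ 8 * R ^ 2 * Real.sqrt d := by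
  have h1 := wd_cs' (ch X.1 u t, ch X.2 u t) (deriv (ch X.1 u) t, deriv (ch X.2 u) t)
  rw [Wc_eq hd X hu]
  refine h1.trans ?_
  have h2 : Real.sqrt (n2 (ch X.1 u t, ch X.2 u t)) ≤ 2 * R := bnd0 hd hR hi hu (small hd ht)
  have h3 := bnd1 hd hR hi hu ht
  calc Real.sqrt (n2 (ch X.1 u t, ch X.2 u t)) *
        Real.sqrt (n2 (deriv (ch X.1 u) t, deriv (ch X.2 u) t)) ≤ 2 * R * (4 * R * Real.sqrt d) :=
        mul_le_mul h2 h3 (Real.sqrt_nonneg _) (by positivity)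
    _ = 8 * R ^ 2 * Real.sqrt d := by ring

theorem bndW' (hd : 1 ≤ d) (hR : 0 ≤ R) (hi : ∀ u, IsU u → nuF X u ≤ R) {u : ℂ × ℂ} (hu : IsU u) {t : ℂ}
    (ht : 2 * ‖t‖ * Real.sqrt d ≤ 1) : ‖deriv (Wc X u) t‖ ≤ 16 * R * d * nuF X (u + t • pp u) := by
  have h1 := wd_cs' (ch X.1 u t, ch X.2 u t)
    (deriv (deriv (ch X.1 u)) t, deriv (deriv (ch X.2 u)) t)
  rw [deriv_Wc hd X hu]
  refine h1.trans ?_
  have h3 := bnd2 hd hR hi hu ht
  have h2 : Real.sqrt (n2 (ch X.1 u t, ch X.2 u t)) = nuF X (u + t • pp u) := rfl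
  rw [h2, mul_comm]
  exact mul_le_mul_of_nonneg_right h3 (nuF_nonneg _ _)

theorem bndWW (hd : 1 ≤ d) (hR : 0 ≤ R) (hi : ∀ u, IsU u → nuF X u ≤ R) {u : ℂ × ℂ} (hu : IsU u) {t s : ℂ}
    (ht : 2 * ‖t‖ * Real.sqrt d ≤ 1) (hs : 2 * ‖s‖ * Real.sqrt d ≤ 1) :
    ‖Wc X u t - Wc X u s‖ ≤ 32 * R ^ 2 * d * ‖t - s‖ := by
  have hd0 : 0 < Real.sqrt d := Real.sqrt_pos.2 (by exact_mod_cast hd)
  have hmem : ∀ z : ℂ, z ∈ Metric.closedBall (0 : ℂ) (1 / (2 * Real.sqrt d)) ↔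
      2 * ‖z‖ * Real.sqrt d ≤ 1 := by
    intro z
    rw [mem_closedBall_zero_iff, le_div_iff₀ (by positivity)]
    constructor <;> intro h <;> linarith
  refine Convex.norm_image_sub_le_of_norm_deriv_le (𝕜 := ℂ) (f := Wc X u)
    (fun z _ => Wc_diff X u z) (fun z hz => ?_)
    (convex_closedBall (0 : ℂ) (1 / (2 * Real.sqrt d))) ((hmem s).2 hs) ((hmem t).2 ht)
  have hz' := (hmem z).1 hz
  have h1 := bndW' hd hR hi hu hz'
  have h2 := bnd0 hd hR hi hu (small hd hz')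
  calc ‖deriv (Wc X u) z‖ ≤ 16 * R * d * nuF X (u + z • pp u) := h1
    _ ≤ 16 * R * d * (2 * R) := mul_le_mul_of_nonneg_left h2 (by positivity)
    _ = 32 * R ^ 2 * d := by ring

end Pool.Agent.H47.SF
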