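import Pool.Agent.H47.SF.Der

/-!
# [H47 SF C2] the derivative of the Wronskian in two charts

PROOF. `z = lam • (u + t • pp u)`. As `pp` is antilinear and `pp (pp u) = -u`: `pp z = conj lam • (pp u - conj t • u)`, so for all `s`
`z + s • pp z = (lam - s conj (lam t)) • (u + τ(s) • pp u)`, `τ(s) = (lam t + s conj lam) / (lam - s conj (lam t))` (for `s` near `0` the
denominator is not `0`, `lam ≠ 0`). `JJ_smul`: `Wc X z s = (lam - s conj (lam t))^(2(d-1)) * Wc X u (τ s)` near `s = 0`. Derive at `s = 0`: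
`τ'(0) = (‖lam‖^2 + ‖lam t‖^2) / lam^2 = 1 / lam^2`, so
`deriv (Wc X z) 0 = lam^(2(d-1)) / lam^2 * deriv (Wc X u) t - 2(d-1) lam^(2(d-1)-1) conj (lam t) * Wc X u t` and `Wc X z 0 = lam^(2(d-1)) Wc X u t`.
Take norms, `0 < ‖lam‖ ≤ 1`, `d ≥ 2`: the first term is `≤ ‖deriv (Wc X u) t‖`, the second is `2(d-1) ‖t‖ ‖lam‖^(2(d-1)) ‖Wc X u t‖ = 2(d-1) ‖t‖ ‖Wc X z 0‖`.
-/

set_option autoImplicit false

open Finset
open Pool.H70.SF

namespace Pool.Agent.H47.SF

theorem pp_chart (u : ℂ × ℂ) (lam t : ℂ) :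
    pp (lam • (u + t • pp u)) = (starRingEnd ℂ) lam • (pp u - (starRingEnd ℂ) t • u) := by
  refine Prod.ext ?_ ?_
  · simp only [pp, Prod.smul_fst, Prod.smul_snd, Prod.fst_add, Prod.snd_add, Prod.fst_sub,
      smul_eq_mul, map_mul, map_add, map_neg, Complex.conj_conj]
    ring
  · simp only [pp, Prod.smul_fst, Prod.smul_snd, Prod.fst_add, Prod.snd_add, Prod.snd_sub,
      smul_eq_mul, map_mul, map_add, map_neg, Complex.conj_conj]
    ring

theorem c2_gen {d : ℕ} (hd : 2 ≤ d) (X : CV d) {u : ℂ × ℂ} (hu : IsU u) {lam t : ℂ}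
    (hl : ‖lam‖ ^ 2 * (1 + ‖t‖ ^ 2) = 1) :
    ‖deriv (Wc X (lam • (u + t • pp u))) 0‖ ≤
        ‖deriv (Wc X u) t‖ + 2 * d * ‖t‖ * ‖Wc X (lam • (u + t • pp u)) 0‖ ∧
      ‖Wc X (lam • (u + t • pp u)) 0‖ ≤ ‖Wc X u t‖ := by
  have hlam : lam ≠ 0 := by
    intro h
    rw [h, norm_zero] at hl
    norm_num at hl
  have hlpos : 0 < ‖lam‖ := norm_pos_iff.2 hlam
  have hl1 : ‖lam‖ ≤ 1 := by
    have h1 : ‖lam‖ ^ 2 ≤ 1 := by nlinarith [sq_nonneg ‖t‖, sq_nonneg ‖lam‖, mul_nonneg (sq_nonneg ‖lam‖) (sq_nonneg ‖t‖)]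
    nlinarith
  set z : ℂ × ℂ := lam • (u + t • pp u) with hz
  set e : ℂ := (starRingEnd ℂ) (lam * t) with he
  set m : ℕ := 2 * (d - 1) with hm
  have hm2 : 2 ≤ m := by omega
  have hcomb : ∀ s : ℂ, lam - s * e ≠ 0 →
      z + s • pp z = (lam - s * e) • (u + ((lam * t + s * (starRingEnd ℂ) lam) / (lam - s * e)) • pp u) := by
    intro s hs
    rw [smul_add, smul_smul, mul_div_cancel₀ _ hs, hz, pp_chart]
    refine Prod.ext ?_ ?_
    · simp only [Prod.smul_fst, Prod.fst_add, Prod.fst_sub, smul_eq_mul, he, map_mul]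
      ring
    · simp only [Prod.smul_snd, Prod.snd_add, Prod.snd_sub, smul_eq_mul, he, map_mul]
      ring
  have hW : ∀ s : ℂ, lam - s * e ≠ 0 →
      Wc X z s = (lam - s * e) ^ m * Wc X u ((lam * t + s * (starRingEnd ℂ) lam) / (lam - s * e)) := by
    intro s hs
    rw [Wc, hcomb s hs, JJ_smul, Wc]
    ring
  have hW0 : Wc X z 0 = lam ^ m * Wc X u t := by
    have h := hW 0 (by simpa using hlam)
    rw [h]
    simp only [zero_mul, sub_zero, add_zero]
    rw [mul_div_cancel_left₀ _ hlam]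
  have hD : HasDerivAt (fun s : ℂ => lam - s * e) (-e) 0 := by
    have := ((hasDerivAt_id (0 : ℂ)).mul_const e).const_sub lam
    simpa using this
  have hNm : HasDerivAt (fun s : ℂ => lam * t + s * (starRingEnd ℂ) lam) ((starRingEnd ℂ) lam) 0 := by
    have := ((hasDerivAt_id (0 : ℂ)).mul_const ((starRingEnd ℂ) lam)).const_add (lam * t)
    simpa using this
  have hτ : HasDerivAt (fun s : ℂ => (lam * t + s * (starRingEnd ℂ) lam) / (lam - s * e))
      (1 / lam ^ 2) 0 := by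
    have h := hNm.div hD (by simpa using hlam)
    have hval : ((starRingEnd ℂ) lam * (lam - 0 * e) - (lam * t + 0 * (starRingEnd ℂ) lam) * -e) /
        (lam - 0 * e) ^ 2 = 1 / lam ^ 2 := by
      have h1 : (starRingEnd ℂ) lam * lam + lam * t * e = 1 := by
        have h2 : (starRingEnd ℂ) lam * lam = ((‖lam‖ ^ 2 : ℝ) : ℂ) := by
          rw [mul_comm, Complex.mul_conj, Complex.normSq_eq_norm_sq]
        have h3 : lam * t * e = ((‖lam * t‖ ^ 2 : ℝ) : ℂ) := by
          rw [he, Complex.mul_conj, Complex.normSq_eq_norm_sq]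
        rw [h2, h3, ← Complex.ofReal_add, norm_mul, mul_pow]
        have h4 : ‖lam‖ ^ 2 + ‖lam‖ ^ 2 * ‖t‖ ^ 2 = 1 := by linarith
        rw [h4, Complex.ofReal_one]
      simp only [zero_mul, sub_zero, add_zero]
      rw [show (starRingEnd ℂ) lam * lam - lam * t * -e = (starRingEnd ℂ) lam * lam + lam * t * e by ring, h1]
    rw [hval] at h
    exact h
  have hWd : HasDerivAt (Wc X u) (deriv (Wc X u) t)
      ((lam * t + (0 : ℂ) * (starRingEnd ℂ) lam) / (lam - 0 * e)) := by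
    have h0 : (lam * t + (0 : ℂ) * (starRingEnd ℂ) lam) / (lam - 0 * e) = t := by
      simp only [zero_mul, sub_zero, add_zero]
      rw [mul_div_cancel_left₀ _ hlam]
    rw [h0]
    exact (Wc_diff X u t).hasDerivAt
  have hcomp := hWd.comp (0 : ℂ) hτ
  have hfull := (hD.pow m).mul hcomp
  have hev : Wc X z =ᶠ[nhds 0] fun s : ℂ =>
      (lam - s * e) ^ m * Wc X u ((lam * t + s * (starRingEnd ℂ) lam) / (lam - s * e)) := by
    have hcont : ContinuousAt (fun s : ℂ => lam - s * e) 0 := hD.continuousAt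
    have hne : ∀ᶠ s in nhds (0 : ℂ), lam - s * e ≠ 0 :=
      hcont.eventually_ne (by simpa using hlam)
    exact hne.mono fun s hs => hW s hs
  have hder : deriv (Wc X z) 0 = (m : ℂ) * lam ^ (m - 1) * -e * Wc X u t +
      lam ^ m * (deriv (Wc X u) t * (1 / lam ^ 2)) := by
    rw [hev.deriv_eq]
    have h := hfull.deriv
    refine Eq.trans ?_ (h.trans ?_)
    · rfl
    · have h0 : (lam * t + 0) / lam = t := by
        rw [add_zero, mul_div_cancel_left₀ _ hlam]
      simp only [Function.comp_apply, Pi.pow_apply, zero_mul, sub_zero, h0]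
  have hen : ‖e‖ = ‖lam‖ * ‖t‖ := by rw [he, RCLike.norm_conj, norm_mul]
  have hWn : ‖Wc X z 0‖ = ‖lam‖ ^ m * ‖Wc X u t‖ := by rw [hW0, norm_mul, norm_pow]
  refine ⟨?_, ?_⟩
  · rw [hder]
    refine (norm_add_le _ _).trans ?_
    rw [add_comm]
    refine add_le_add ?_ ?_
    · have e1 : lam ^ m * (deriv (Wc X u) t * (1 / lam ^ 2)) = lam ^ (m - 2) * deriv (Wc X u) t := by
        have : lam ^ m = lam ^ (m - 2) * lam ^ 2 := by rw [← pow_add]; congr 1; omega
        rw [this]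
        field_simp
      rw [e1, norm_mul, norm_pow]
      exact mul_le_of_le_one_left (norm_nonneg _) (pow_le_one₀ hlpos.le hl1)
    · rw [norm_mul, norm_mul, norm_mul, norm_neg, hen, norm_pow, hWn, Complex.norm_natCast]
      have e2 : ‖lam‖ ^ m = ‖lam‖ ^ (m - 1) * ‖lam‖ := by
        rw [← pow_succ]
        congr 1
        omega
      have hmd : (m : ℝ) ≤ 2 * d := by
        exact_mod_cast (by omega : m ≤ 2 * d)
      rw [e2]
      calc (m : ℝ) * ‖lam‖ ^ (m - 1) * (‖lam‖ * ‖t‖) * ‖Wc X u t‖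
          ≤ (2 * d) * ‖lam‖ ^ (m - 1) * (‖lam‖ * ‖t‖) * ‖Wc X u t‖ := by gcongr
        _ = _ := by ring
  · rw [hWn]
    exact mul_le_of_le_one_left (norm_nonneg _) (pow_le_one₀ hlpos.le hl1)

end Pool.Agent.H47.SF
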