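import Pool.Agent.H47.SF.Fab

/-!
# [H47 SF FAC] a polynomial near a zero of least modulus (Lemma F)

PROOF. `facA` (`W ≠ 0` as `W'(c) ≠ 0`) and `facB`.
(c) `bc` for `E` on `ball c (R2 - ‖c‖)`, `R2 - ‖c‖ ≥ 0.9 R2`, bound `M (2/R0)^N`: for `‖t - c‖ ≤ 3ρ ≤ 0.3 R2` both `‖E t‖/‖E c‖` and `‖E c‖/‖E t‖` are
`≤ exp (6 ρ L / (0.6 R2)) = exp (10 ρ L/R2)`, `L = log (M (2/R0)^N / ‖E c‖) ≤ log (M (2/R0)^N / μ)`, `L ≥ 0`. Hence `‖E t‖ ≤ exp (20 ρ L' / R2) ‖E 0‖` for `‖t‖ ≤ 2ρ`, `L' = log (M (2/R0)^N / μ)`.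
(d) for `‖t‖ ≤ 2 ρ` and `z ∈ Z`: `ρ ≤ ‖z‖` (`hmin`; `W z = 0`), `‖t - z‖ ≤ 2ρ + ‖z‖ ≤ 3 ‖z‖`. So `‖W t‖ ≤ 3^n (∏ ‖z‖) ‖E t‖ ≤ 3^N exp (..) (∏ ‖z‖) ‖E 0‖ = 3^N exp (..) ‖W 0‖`, `n = card Z ≤ N`.
-/

set_option autoImplicit false

open Polynomial Metric

namespace Pool.Agent.H47.SF

private theorem prod_le (Z : Multiset ℂ) (t : ℂ) (h : ∀ z ∈ Z, ‖t - z‖ ≤ 3 * ‖z‖) :
    ‖((Z.map fun z => X - C z).prod).eval t‖ ≤
      3 ^ (Multiset.card Z) * ‖((Z.map fun z => X - C z).prod).eval 0‖ := by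
  induction Z using Multiset.induction_on with
  | empty => simp
  | cons a Z ih =>
    rw [Multiset.map_cons, Multiset.prod_cons, eval_mul, eval_mul, norm_mul, norm_mul,
      Multiset.card_cons, pow_succ]
    have h1 := ih fun z hz => h z (Multiset.mem_cons_of_mem hz)
    have h2 := h a (Multiset.mem_cons_self a Z)
    have e1 : ‖(X - C a : Polynomial ℂ).eval t‖ = ‖t - a‖ := by simp
    have e2 : ‖(X - C a : Polynomial ℂ).eval 0‖ = ‖a‖ := by simp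
    rw [e1, e2]
    calc ‖t - a‖ * ‖((Z.map fun z => X - C z).prod).eval t‖
        ≤ (3 * ‖a‖) * (3 ^ (Multiset.card Z) * ‖((Z.map fun z => X - C z).prod).eval 0‖) :=
          mul_le_mul h2 h1 (norm_nonneg _) (by positivity)
      _ = _ := by ring

theorem fac {W : Polynomial ℂ} {R0 R2 M μ ρ : ℝ} {c : ℂ} (hR0 : 0 < R0) (hR0' : R0 ≤ 1 / 2) (hR2 : 0 < R2)
    (h4 : 4 * R2 < R0) (hM : ∀ t : ℂ, ‖t‖ ≤ R0 → ‖W.eval t‖ ≤ M) (hc : W.eval c = 0) (hρ : ‖c‖ = ρ)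
    (hρ0 : 0 < ρ) (hmin : ∀ z : ℂ, W.eval z = 0 → ρ ≤ ‖z‖) (hρ2 : 10 * ρ ≤ R2)
    (hμ0 : 0 < μ) (hμ : μ ≤ ‖(derivative W).eval c‖) {N : ℕ} (hN : 2 * M / R0 * (4 * R2 / R0) ^ N < μ)
    {t : ℂ} (ht : ‖t‖ ≤ 2 * ρ) :
    ‖W.eval t‖ ≤ 3 ^ N * Real.exp (20 * ρ / R2 * Real.log (M * (2 / R0) ^ N / μ)) * ‖W.eval 0‖ := by
  have hW : W ≠ 0 := by
    intro h
    rw [h, derivative_zero, eval_zero, norm_zero] at hμ
    linarith
  obtain ⟨Z, E, hE, hZ, hZW, hEn⟩ := facA hW R2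
  have hcR : ‖c‖ ≤ R2 := by rw [hρ]; linarith
  obtain ⟨hcard, hEM, hEc⟩ := facB hR0 hR0' hR2 h4 hM hc hcR hμ0 hμ hN hE hZ hEn
  set M' : ℝ := M * (2 / R0) ^ N with hM'
  have hEc0 : 0 < ‖E.eval c‖ := lt_of_lt_of_le hμ0 hEc
  have hball : ∀ s ∈ ball c (R2 - ρ), ‖s‖ ≤ R2 := by
    intro s hs
    rw [mem_ball, dist_eq_norm] at hs
    have h1 : ‖s‖ ≤ ‖s - c‖ + ‖c‖ := by
      have := norm_add_le (s - c) c
      rwa [sub_add_cancel] at this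
    rw [hρ] at h1
    linarith
  have hEcM : ‖E.eval c‖ ≤ M' := hEM c (by linarith)
  have hL0 : 0 ≤ Real.log (M' / ‖E.eval c‖) := Real.log_nonneg (by
    rw [le_div_iff₀ hEc0]; linarith)
  have hLL : Real.log (M' / ‖E.eval c‖) ≤ Real.log (M' / μ) := by
    have hM0 : 0 < M' := lt_of_lt_of_le hEc0 hEcM
    exact Real.log_le_log (by positivity) (div_le_div_of_nonneg_left hM0.le hμ0 hEc)
  have hbc : ∀ s : ℂ, ‖s - c‖ ≤ 3 * ρ →
      ‖E.eval s‖ ≤ ‖E.eval c‖ * Real.exp (10 * ρ / R2 * Real.log (M' / μ)) ∧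
      ‖E.eval c‖ ≤ ‖E.eval s‖ * Real.exp (10 * ρ / R2 * Real.log (M' / μ)) := by
    intro s hs
    have h := bc (E := fun t => E.eval t) (c := c) (r := R2 - ρ) (M := M')
      (E.differentiable.differentiableOn) (fun t ht => hEn t (hball t ht))
      (fun t ht => hEM t ((hball t ht).trans (by linarith))) (t := s) (x := 3 * ρ) hs (by linarith)
    have hle : 2 * (3 * ρ) * Real.log (M' / ‖E.eval c‖) / (R2 - ρ - 3 * ρ) ≤
        10 * ρ / R2 * Real.log (M' / μ) := by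
      have hden : 0 < R2 - ρ - 3 * ρ := by linarith
      calc 2 * (3 * ρ) * Real.log (M' / ‖E.eval c‖) / (R2 - ρ - 3 * ρ)
          = (2 * (3 * ρ) / (R2 - ρ - 3 * ρ)) * Real.log (M' / ‖E.eval c‖) := by ring
        _ ≤ (10 * ρ / R2) * Real.log (M' / μ) := by
          refine mul_le_mul ?_ hLL hL0 (by positivity)
          rw [div_le_div_iff₀ hden hR2]
          nlinarith
    have hexp := Real.exp_le_exp.2 hle
    exact ⟨h.1.trans (mul_le_mul_of_nonneg_left hexp (norm_nonneg _)),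
      h.2.trans (mul_le_mul_of_nonneg_left hexp (norm_nonneg _))⟩
  have h1 := (hbc t (by
    have := norm_sub_le t c
    linarith)).1
  have h2 := (hbc 0 (by rw [zero_sub, norm_neg, hρ]; linarith)).2
  have hEt : ‖E.eval t‖ ≤ Real.exp (20 * ρ / R2 * Real.log (M' / μ)) * ‖E.eval 0‖ := by
    have he : Real.exp (20 * ρ / R2 * Real.log (M' / μ)) =
        Real.exp (10 * ρ / R2 * Real.log (M' / μ)) * Real.exp (10 * ρ / R2 * Real.log (M' / μ)) := by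
      rw [← Real.exp_add]
      congr 1
      ring
    rw [he]
    calc ‖E.eval t‖ ≤ ‖E.eval c‖ * Real.exp (10 * ρ / R2 * Real.log (M' / μ)) := h1
      _ ≤ (‖E.eval 0‖ * Real.exp (10 * ρ / R2 * Real.log (M' / μ))) *
          Real.exp (10 * ρ / R2 * Real.log (M' / μ)) :=
          mul_le_mul_of_nonneg_right h2 (Real.exp_pos _).le
      _ = _ := by ring
  have hprod := prod_le Z t (by
    intro z hz
    have h3 := hmin z (hZW z hz)
    have h4 := norm_sub_le t z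
    linarith)
  have h3 : (3 : ℝ) ^ (Multiset.card Z) ≤ 3 ^ N := pow_le_pow_right₀ (by norm_num) hcard
  rw [hE, eval_mul, eval_mul, norm_mul, norm_mul]
  calc ‖((Z.map fun z => X - C z).prod).eval t‖ * ‖E.eval t‖
      ≤ (3 ^ (Multiset.card Z) * ‖((Z.map fun z => X - C z).prod).eval 0‖) *
        (Real.exp (20 * ρ / R2 * Real.log (M' / μ)) * ‖E.eval 0‖) :=
        mul_le_mul hprod hEt (norm_nonneg _) (by positivity)
    _ ≤ (3 ^ N * ‖((Z.map fun z => X - C z).prod).eval 0‖) *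
        (Real.exp (20 * ρ / R2 * Real.log (M' / μ)) * ‖E.eval 0‖) := by gcongr
    _ = _ := by ring

end Pool.Agent.H47.SF
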