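import Pool.Agent.H47.SF.Chu

/-!
# [H47 SF DER] derivatives in the charts

PROOFS. `hasDerivAt_hev`: `hev p (u + t • w) = ∑ p_k (u1 + t w1)^k (u2 + t w2)^(d-k)`, derive term by term.
`ch_poly`: the polynomial `∑ C p_k (C u1 + C w1 X)^k (C u2 + C w2 X)^(d-k)`, `w = pp u`. `Wc_poly`: `hev1`, `hev2` on the line are polynomials
in `t` as well. `Wc_eq`: `jac` with `w = u + t • pp u`, `v = pp u`: `wd w v = wd u (pp u) = 1` (and `wd (pp u) (pp u) = 0`),
`deriv (ch p u) t = hev1 p w v.1 + hev2 p w v.2` by `hasDerivAt_hev`. `deriv_Wc`: `Wc` is this function for all `t`; product rule, the two terms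
`P' Q'` cancel.
-/

set_option autoImplicit false

open Finset
open Pool.H70.SF

namespace Pool.Agent.H47.SF

theorem hasDerivAt_hev {d : ℕ} (p : Fin (d + 1) → ℂ) (u w : ℂ × ℂ) (t : ℂ) :
    HasDerivAt (fun t : ℂ => hev p (u + t • w)) (hev1 p (u + t • w) * w.1 + hev2 p (u + t • w) * w.2) t := by
  unfold hev hev1 hev2
  rw [Finset.sum_mul, Finset.sum_mul, ← Finset.sum_add_distrib]
  refine HasDerivAt.fun_sum fun k _ => ?_
  have e1 : HasDerivAt (fun t : ℂ => (u + t • w).1) w.1 t := by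
    have : (fun t : ℂ => (u + t • w).1) = fun t : ℂ => u.1 + t * w.1 := by funext t; simp
    rw [this]
    simpa using ((hasDerivAt_id t).mul_const w.1).const_add u.1
  have e2 : HasDerivAt (fun t : ℂ => (u + t • w).2) w.2 t := by
    have : (fun t : ℂ => (u + t • w).2) = fun t : ℂ => u.2 + t * w.2 := by funext t; simp
    rw [this]
    simpa using ((hasDerivAt_id t).mul_const w.2).const_add u.2
  have e3 := e1.pow (k : ℕ)
  have e4 := e2.pow (d - (k : ℕ))
  have e5 := (e3.const_mul (p k)).mul e4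
  convert! e5 using 1
  simp only [Pi.pow_apply]
  ring

/-- the two coordinates of the line as polynomials -/
private noncomputable def l1 (u w : ℂ × ℂ) : Polynomial ℂ := Polynomial.C u.1 + Polynomial.C w.1 * Polynomial.X
private noncomputable def l2 (u w : ℂ × ℂ) : Polynomial ℂ := Polynomial.C u.2 + Polynomial.C w.2 * Polynomial.X

private theorem l1_eval (u w : ℂ × ℂ) (t : ℂ) : (l1 u w).eval t = (u + t • w).1 := by
  show (Polynomial.C u.1 + Polynomial.C w.1 * Polynomial.X).eval t = u.1 + t * w.1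
  rw [Polynomial.eval_add, Polynomial.eval_mul, Polynomial.eval_C, Polynomial.eval_C, Polynomial.eval_X, mul_comm]

private theorem l2_eval (u w : ℂ × ℂ) (t : ℂ) : (l2 u w).eval t = (u + t • w).2 := by
  show (Polynomial.C u.2 + Polynomial.C w.2 * Polynomial.X).eval t = u.2 + t * w.2
  rw [Polynomial.eval_add, Polynomial.eval_mul, Polynomial.eval_C, Polynomial.eval_C, Polynomial.eval_X, mul_comm]

private theorem l1_deg (u w : ℂ × ℂ) : (l1 u w).natDegree ≤ 1 := by
  unfold l1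
  refine (Polynomial.natDegree_add_le _ _).trans (max_le (by simp) ?_)
  exact (Polynomial.natDegree_C_mul_le _ _).trans Polynomial.natDegree_X_le

private theorem l2_deg (u w : ℂ × ℂ) : (l2 u w).natDegree ≤ 1 := by
  unfold l2
  refine (Polynomial.natDegree_add_le _ _).trans (max_le (by simp) ?_)
  exact (Polynomial.natDegree_C_mul_le _ _).trans Polynomial.natDegree_X_le

theorem ch_poly {d : ℕ} (p : Fin (d + 1) → ℂ) (u : ℂ × ℂ) :
    ∃ q : Polynomial ℂ, q.natDegree ≤ d ∧ ∀ t, q.eval t = ch p u t := by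
  refine ⟨∑ k : Fin (d + 1), Polynomial.C (p k) * (l1 u (pp u) ^ (k : ℕ) * l2 u (pp u) ^ (d - (k : ℕ))), ?_, fun t => ?_⟩
  · refine Polynomial.natDegree_sum_le_of_forall_le _ _ fun k _ => ?_
    have hk : (k : ℕ) ≤ d := Nat.lt_succ_iff.1 k.2
    refine (Polynomial.natDegree_C_mul_le _ _).trans (Polynomial.natDegree_mul_le.trans ?_)
    have h1 := Polynomial.natDegree_pow_le_of_le (k : ℕ) (l1_deg u (pp u))
    have h2 := Polynomial.natDegree_pow_le_of_le (d - (k : ℕ)) (l2_deg u (pp u))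
    omega
  · unfold ch hev
    rw [Polynomial.eval_finsetSum]
    refine Finset.sum_congr rfl fun k _ => ?_
    rw [Polynomial.eval_mul, Polynomial.eval_C, Polynomial.eval_mul, Polynomial.eval_pow, Polynomial.eval_pow,
      l1_eval, l2_eval]
    ring

private theorem h1_poly {d : ℕ} (p : Fin (d + 1) → ℂ) (u w : ℂ × ℂ) :
    ∃ q : Polynomial ℂ, ∀ t, q.eval t = hev1 p (u + t • w) := by
  refine ⟨∑ k : Fin (d + 1), Polynomial.C (p k * (k : ℕ)) * (l1 u w ^ ((k : ℕ) - 1) * l2 u w ^ (d - (k : ℕ))),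
    fun t => ?_⟩
  unfold hev1
  rw [Polynomial.eval_finsetSum]
  refine Finset.sum_congr rfl fun k _ => ?_
  rw [Polynomial.eval_mul, Polynomial.eval_C, Polynomial.eval_mul, Polynomial.eval_pow, Polynomial.eval_pow,
    l1_eval, l2_eval]
  ring

private theorem h2_poly {d : ℕ} (p : Fin (d + 1) → ℂ) (u w : ℂ × ℂ) :
    ∃ q : Polynomial ℂ, ∀ t, q.eval t = hev2 p (u + t • w) := by
  refine ⟨∑ k : Fin (d + 1), Polynomial.C (p k * ((d - k : ℕ) : ℂ)) * (l1 u w ^ (k : ℕ) * l2 u w ^ (d - (k : ℕ) - 1)),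
    fun t => ?_⟩
  unfold hev2
  rw [Polynomial.eval_finsetSum]
  refine Finset.sum_congr rfl fun k _ => ?_
  rw [Polynomial.eval_mul, Polynomial.eval_C, Polynomial.eval_mul, Polynomial.eval_pow, Polynomial.eval_pow,
    l1_eval, l2_eval]
  ring

theorem Wc_poly {d : ℕ} (X : CV d) (u : ℂ × ℂ) : ∃ q : Polynomial ℂ, ∀ t, q.eval t = Wc X u t := by
  obtain ⟨a, ha⟩ := h1_poly X.1 u (pp u)
  obtain ⟨b, hb⟩ := h2_poly X.2 u (pp u)
  obtain ⟨c, hc⟩ := h2_poly X.1 u (pp u)
  obtain ⟨e, he⟩ := h1_poly X.2 u (pp u)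
  refine ⟨(a * b - c * e) * Polynomial.C ((d : ℂ)⁻¹), fun t => ?_⟩
  unfold Wc JJ
  rw [Polynomial.eval_mul, Polynomial.eval_sub, Polynomial.eval_mul, Polynomial.eval_mul, Polynomial.eval_C,
    ha, hb, hc, he, div_eq_mul_inv]

theorem ch_diff {d : ℕ} (p : Fin (d + 1) → ℂ) (u : ℂ × ℂ) : Differentiable ℂ (ch p u) := by
  obtain ⟨q, -, h⟩ := ch_poly p u
  rw [show ch p u = fun t => q.eval t from funext fun t => (h t).symm]
  exact q.differentiable

theorem Wc_diff {d : ℕ} (X : CV d) (u : ℂ × ℂ) : Differentiable ℂ (Wc X u) := by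
  obtain ⟨q, h⟩ := Wc_poly X u
  rw [show Wc X u = fun t => q.eval t from funext fun t => (h t).symm]
  exact q.differentiable

theorem Wc_eq {d : ℕ} (hd : 1 ≤ d) (X : CV d) {u : ℂ × ℂ} (hu : IsU u) (t : ℂ) :
    Wc X u t = ch X.1 u t * deriv (ch X.2 u) t - ch X.2 u t * deriv (ch X.1 u) t := by
  have hd0 : (d : ℂ) ≠ 0 := by
    have : d ≠ 0 := by omega
    exact_mod_cast this
  have e1 : deriv (ch X.1 u) t = hev1 X.1 (u + t • pp u) * (pp u).1 + hev2 X.1 (u + t • pp u) * (pp u).2 :=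
    (hasDerivAt_hev X.1 u (pp u) t).deriv
  have e2 : deriv (ch X.2 u) t = hev1 X.2 (u + t • pp u) * (pp u).1 + hev2 X.2 (u + t • pp u) * (pp u).2 :=
    (hasDerivAt_hev X.2 u (pp u) t).deriv
  have h1 := jac X (u + t • pp u) (pp u)
  have h2 : wd (u + t • pp u) (pp u) = 1 := by
    rw [← wd_pp hu]
    unfold wd
    simp only [Prod.fst_add, Prod.snd_add, Prod.smul_fst, Prod.smul_snd, smul_eq_mul]
    ring
  rw [h2, one_mul] at h1
  unfold Wc
  rw [div_eq_iff hd0, ← h1, e1, e2]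
  unfold ch
  ring

theorem deriv_Wc {d : ℕ} (hd : 1 ≤ d) (X : CV d) {u : ℂ × ℂ} (hu : IsU u) (t : ℂ) :
    deriv (Wc X u) t = ch X.1 u t * deriv (deriv (ch X.2 u)) t - ch X.2 u t * deriv (deriv (ch X.1 u)) t := by
  have e0 : Wc X u = fun t => ch X.1 u t * deriv (ch X.2 u) t - ch X.2 u t * deriv (ch X.1 u) t :=
    funext fun t => Wc_eq hd X hu t
  have dd : ∀ (p : Fin (d + 1) → ℂ), Differentiable ℂ (deriv (ch p u)) := by
    intro p
    obtain ⟨q, -, h⟩ := ch_poly p u
    have h2 : ch p u = fun t => q.eval t := funext fun t => (h t).symm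
    rw [h2]
    have h3 : deriv (fun t => q.eval t) = fun t => (Polynomial.derivative q).eval t := by
      funext t
      exact q.deriv
    rw [h3]
    exact (Polynomial.derivative q).differentiable
  have h1 := ((ch_diff X.1 u t).hasDerivAt.mul (dd X.2 t).hasDerivAt).sub
    ((ch_diff X.2 u t).hasDerivAt.mul (dd X.1 t).hasDerivAt)
  rw [e0]
  have h2 := h1.deriv
  have h3 : deriv (fun t => ch X.1 u t * deriv (ch X.2 u) t - ch X.2 u t * deriv (ch X.1 u) t) t =
      deriv (ch X.1 u * deriv (ch X.2 u) - ch X.2 u * deriv (ch X.1 u)) t := rfl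
  rw [h3, h2]
  ring

end Pool.Agent.H47.SF
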