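import Pool.Agent.H47.SF.Cht

/-!
# [H47 SF CHU] the map in the charts

PROOFS. `nx_isU`: `nx X u = (nuF X u)⁻¹ • FF X u`, `n2_smul`, `nuF_sq`.
`aa_zero_chart`: `Wc X u 0 = JJ X u / d`, `aa X u = JJ X u / (d n2 (FF X u))`, `n2 (FF X u) = nuF X u ^ 2 ≠ 0`.
`aa_chart`: `aa X z = JJ X z / (d n2 (FF X z))`, `JJ_smul`, `n2 (FF X z) = ‖lam‖^(2d) n2 (FF X w)`, so
`‖aa X z‖ n2 (FF X w) = ‖lam‖^(2(d-1) - 2d) ‖JJ X w‖ / d = ‖lam‖^(-2) ‖Wc X u t‖ = (1 + ‖t‖^2) ‖Wc X u t‖` (`w = u + t • pp u`, `lam ≠ 0`).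
`nx_chart`: `nx X z = FF X z / nuF X z = (lam^d/‖lam‖^d) FF X w / nuF X w` (`FF_smul`, `nuF_smul`), so `‖wd (nx X u) (nx X z)‖ = ‖wd (FF X u) (FF X w)‖ / (nuF X u nuF X w)`.
-/

set_option autoImplicit false

open Finset
open Pool.H70.SF

namespace Pool.Agent.H47.SF

private theorem chu_nx {d : ℕ} (X : CV d) (u : ℂ × ℂ) : nx X u = (((nuF X u)⁻¹ : ℝ) : ℂ) • FF X u := rfl

theorem nx_isU {d : ℕ} {X : CV d} {u : ℂ × ℂ} (h : 0 < nuF X u) : IsU (nx X u) := by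
  show n2 _ = 1
  rw [chu_nx, n2_smul, Complex.norm_real, Real.norm_eq_abs, abs_of_pos (inv_pos.2 h), ← nuF_sq, inv_pow,
    inv_mul_cancel₀ (by positivity)]

theorem aa_zero_chart {d : ℕ} (X : CV d) {u : ℂ × ℂ} (h : 0 < nuF X u) :
    ‖Wc X u 0‖ = ‖aa X u‖ * nuF X u ^ 2 := by
  unfold Wc aa
  rw [zero_smul, add_zero, ← nuF_sq, norm_div, norm_div, norm_mul, Complex.norm_real, Real.norm_eq_abs,
    abs_of_pos (by positivity)]
  have h2 : nuF X u ^ 2 ≠ 0 := by positivity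
  rw [div_mul_eq_mul_div, mul_div_mul_right _ _ h2]

theorem aa_chart {d : ℕ} (hd : 1 ≤ d) (X : CV d) {u : ℂ × ℂ} {lam t : ℂ}
    (hl : ‖lam‖ ^ 2 * (1 + ‖t‖ ^ 2) = 1) (h : 0 < nuF X (u + t • pp u)) :
    ‖aa X (lam • (u + t • pp u))‖ * nuF X (u + t • pp u) ^ 2 = ‖Wc X u t‖ * (1 + ‖t‖ ^ 2) := by
  have hl0 : 0 < ‖lam‖ := by
    rcases (norm_nonneg lam).lt_or_eq with h1 | h1
    · exact h1
    · rw [← h1] at hl
      norm_num at hl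
  have hd0 : (0 : ℝ) < d := by exact_mod_cast hd
  have e1 : ‖aa X (lam • (u + t • pp u))‖ =
      ‖lam‖ ^ (2 * (d - 1)) * ‖JJ X (u + t • pp u)‖ / (d * (‖lam‖ ^ d * nuF X (u + t • pp u)) ^ 2) := by
    unfold aa
    rw [← nuF_sq, nuF_smul, JJ_smul, norm_div, norm_mul, norm_mul, norm_pow, Complex.norm_real, Real.norm_eq_abs,
      abs_of_nonneg (by positivity), Complex.norm_natCast]
  have e2 : ‖Wc X u t‖ = ‖JJ X (u + t • pp u)‖ / d := by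
    unfold Wc
    rw [norm_div, Complex.norm_natCast]
  obtain ⟨m, rfl⟩ : ∃ m, d = m + 1 := ⟨d - 1, by omega⟩
  rw [e1, e2]
  rw [Nat.add_sub_cancel]
  have e3 : 1 + ‖t‖ ^ 2 = (‖lam‖ ^ 2)⁻¹ := eq_inv_of_mul_eq_one_right hl
  rw [e3]
  have h4 := h.ne'
  field_simp
  ring

theorem nx_chart {d : ℕ} (X : CV d) {u : ℂ × ℂ} {lam t : ℂ}
    (hl : ‖lam‖ ^ 2 * (1 + ‖t‖ ^ 2) = 1) (h : 0 < nuF X (u + t • pp u)) (h0 : 0 < nuF X u) :
    ‖wd (nx X u) (nx X (lam • (u + t • pp u)))‖ * (nuF X (u + t • pp u) * nuF X u) =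
      ‖wd (FF X (u + t • pp u)) (FF X u)‖ := by
  have hl0 : 0 < ‖lam‖ := by
    rcases (norm_nonneg lam).lt_or_eq with h1 | h1
    · exact h1
    · rw [← h1] at hl
      norm_num at hl
  have e1 : wd (nx X u) (nx X (lam • (u + t • pp u))) = (((nuF X u)⁻¹ : ℝ) : ℂ) *
      ((((‖lam‖ ^ d * nuF X (u + t • pp u))⁻¹ : ℝ) : ℂ) * (lam ^ d * -wd (FF X (u + t • pp u)) (FF X u))) := by
    rw [chu_nx, chu_nx, nuF_smul, FF_smul]
    unfold wd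
    simp only [Prod.smul_fst, Prod.smul_snd, smul_eq_mul]
    ring
  rw [e1, norm_mul, norm_mul, norm_mul, norm_neg, norm_pow, Complex.norm_real, Complex.norm_real, Real.norm_eq_abs,
    Real.norm_eq_abs, abs_of_pos (by positivity), abs_of_pos (by positivity)]
  field_simp

end Pool.Agent.H47.SF
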