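import Mathlib

/-!
# [H47 SF BC] zero-free functions (Borel-Caratheodory)

PROOF. On the ball `E = exp ∘ φ` with `φ` holomorphic (a primitive of `E'/E`, `DifferentiableOn.isExactOn_ball`, corrected by a constant; or
`Complex.exists_continuousOn_eqOn_exp_comp` etc.). Put `ψ(s) = φ(c + s) - φ(c)` on `ball 0 r`: `ψ 0 = 0`, `Re ψ = log ‖E(c+s)‖ - log ‖E c‖ ≤ L`, `L = log (M / ‖E c‖)`.
For `L > 0` `Complex.borelCaratheodory_zero` (Mathlib): `‖ψ(s)‖ ≤ 2 L ‖s‖/(r - ‖s‖) ≤ 2 L x/(r - x)`; if `L = 0` use `L + ε` and let `ε → 0` (`L ≥ 0` by `hM` at `c`).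
`‖E t‖ = ‖E c‖ exp (Re ψ)` and `|Re ψ| ≤ ‖ψ‖`.
`bc_mono`: `L = log (M/‖W 0‖) ≥ L* = log (M/w)`, `‖W t‖ ≤ ‖W 0‖ exp (2 x L/(R1 - x)) = M exp (-L (1 - 2x/(R1-x))) ≤ M exp (-L* (1 - 2x/(R1-x))) = w exp (2 x L*/(R1-x)) ≤ e w`
(`2x/(R1-x) ≤ 1`; `L*` may be assumed `≥ 0` as `w ≤ M`).
-/

set_option autoImplicit false

open Metric

namespace Pool.Agent.H47.SF

private theorem bc_log {E : ℂ → ℂ} {c : ℂ} {r : ℝ} (hr : 0 < r)
    (hE : DifferentiableOn ℂ E (ball c r)) (hne : ∀ t ∈ ball c r, E t ≠ 0) :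
    ∃ g : ℂ → ℂ, g c = 0 ∧ DifferentiableOn ℂ g (ball c r) ∧
      ∀ t ∈ ball c r, E t = E c * Complex.exp (g t) := by
  have hE' : DifferentiableOn ℂ (deriv E) (ball c r) := hE.deriv isOpen_ball
  have hq : DifferentiableOn ℂ (fun t => deriv E t / E t) (ball c r) := hE'.div hE hne
  obtain ⟨g, hg0, hg⟩ := hq.isExactOn_ball.with_val_at c 0
  refine ⟨g, hg0, fun t ht => (hg t ht).differentiableAt.differentiableWithinAt, ?_⟩
  have hc : c ∈ ball c r := mem_ball_self hr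
  have hd : ∀ t ∈ ball c r, HasDerivAt (fun t => E t * Complex.exp (-g t)) 0 t := by
    intro t ht
    have h1 : HasDerivAt E (deriv E t) t := (hE.differentiableAt (isOpen_ball.mem_nhds ht)).hasDerivAt
    have h2 := h1.mul ((hg t ht).neg.cexp)
    refine h2.congr_deriv ?_
    have := hne t ht
    field_simp
    ring
  have hconst : ∀ t ∈ ball c r, E t * Complex.exp (-g t) = E c * Complex.exp (-g c) := by
    intro t ht
    have h1 : IsOpen (ball c r) := isOpen_ball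
    have h2 : IsPreconnected (ball c r) := (convex_ball c r).isPreconnected
    exact h1.is_const_of_deriv_eq_zero h2
      (fun z hz => (hd z hz).differentiableAt.differentiableWithinAt)
      (fun z hz => (hd z hz).deriv) ht hc
  intro t ht
  have h1 := hconst t ht
  rw [hg0, neg_zero, Complex.exp_zero, mul_one] at h1
  rw [← h1, mul_assoc, ← Complex.exp_add, neg_add_cancel, Complex.exp_zero, mul_one]

theorem bc {E : ℂ → ℂ} {c : ℂ} {r M : ℝ} (hE : DifferentiableOn ℂ E (ball c r))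
    (hne : ∀ t ∈ ball c r, E t ≠ 0) (hM : ∀ t ∈ ball c r, ‖E t‖ ≤ M) {t : ℂ} {x : ℝ} (hx : ‖t - c‖ ≤ x)
    (hxr : x < r) :
    ‖E t‖ ≤ ‖E c‖ * Real.exp (2 * x * Real.log (M / ‖E c‖) / (r - x)) ∧
      ‖E c‖ ≤ ‖E t‖ * Real.exp (2 * x * Real.log (M / ‖E c‖) / (r - x)) := by
  have hx0 : 0 ≤ x := (norm_nonneg _).trans hx
  have hr : 0 < r := hx0.trans_lt hxr
  have hc : c ∈ ball c r := mem_ball_self hr
  obtain ⟨g, hg0, hgd, hgE⟩ := bc_log hr hE hne
  have hEc : 0 < ‖E c‖ := norm_pos_iff.2 (hne c hc)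
  have hMc : ‖E c‖ ≤ M := hM c hc
  have hM0 : 0 < M := hEc.trans_le hMc
  set L : ℝ := Real.log (M / ‖E c‖) with hL
  have hL0 : 0 ≤ L := Real.log_nonneg ((one_le_div hEc).2 hMc)
  have htb : t ∈ ball c r := by
    rw [mem_ball, dist_eq_norm]
    exact hx.trans_lt hxr
  have hmem : ∀ s ∈ ball (0 : ℂ) r, c + s ∈ ball c r := by
    intro s hs
    rw [mem_ball, dist_eq_norm, add_sub_cancel_left]
    exact mem_ball_zero_iff.1 hs
  have hψd : DifferentiableOn ℂ (fun s => g (c + s)) (ball 0 r) := by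
    apply hgd.comp (by fun_prop) hmem
  have hnE : ∀ t ∈ ball c r, ‖E t‖ = ‖E c‖ * Real.exp (g t).re := by
    intro t ht
    rw [hgE t ht, norm_mul, Complex.norm_exp]
  have hre : ∀ t ∈ ball c r, (g t).re ≤ L := by
    intro t ht
    have h1 : Real.exp (g t).re ≤ M / ‖E c‖ := by
      rw [le_div_iff₀ hEc, mul_comm, ← hnE t ht]
      exact hM t ht
    have h2 := Real.log_le_log (Real.exp_pos _) h1
    rwa [Real.log_exp] at h2
  have hψ : ‖g t‖ ≤ 2 * x * L / (r - x) := by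
    have hrx : 0 < r - x := by linarith
    have hK : 0 ≤ 2 * x / (r - x) := by positivity
    apply le_of_forall_pos_le_add
    intro δ hδ
    set K := 2 * x / (r - x) with hKdef
    have hε : 0 < δ / (K + 1) := by positivity
    have h1 := Complex.borelCaratheodory_zero (M := L + δ / (K + 1)) (f := fun s => g (c + s))
      (R := r) (z := t - c) (by linarith) hψd
      (fun s hs => by
        have := hre _ (hmem s hs)
        show (g (c + s)).re ≤ L + δ / (K + 1)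
        linarith) hr (by rw [mem_ball_zero_iff]; exact hx.trans_lt hxr) (by simpa using hg0)
    rw [add_sub_cancel] at h1
    have h2 : 2 * (L + δ / (K + 1)) * ‖t - c‖ / (r - ‖t - c‖) ≤ 2 * (L + δ / (K + 1)) * x / (r - x) := by
      apply div_le_div₀ (by positivity) _ hrx (by linarith)
      exact mul_le_mul_of_nonneg_left hx (by positivity)
    have h3 : 2 * (L + δ / (K + 1)) * x / (r - x) = 2 * x * L / (r - x) + K * (δ / (K + 1)) := by
      rw [hKdef]
      ring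
    have h4 : K * (δ / (K + 1)) ≤ δ := by
      rw [← mul_div_assoc, div_le_iff₀ (by positivity)]
      nlinarith
    linarith
  have hre1 : (g t).re ≤ 2 * x * L / (r - x) := (Complex.re_le_norm _).trans hψ
  have hre2 : -(2 * x * L / (r - x)) ≤ (g t).re := by
    have := (abs_le.1 (Complex.abs_re_le_norm (g t))).1
    linarith
  rw [hnE t htb]
  refine ⟨?_, ?_⟩
  · exact mul_le_mul_of_nonneg_left (Real.exp_le_exp.2 hre1) hEc.le
  · rw [mul_assoc, ← Real.exp_add]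
    have : 1 ≤ Real.exp ((g t).re + 2 * x * L / (r - x)) := Real.one_le_exp (by linarith)
    exact le_mul_of_one_le_right hEc.le this

theorem bc_mono {W : ℂ → ℂ} {R1 M w x : ℝ} (hE : DifferentiableOn ℂ W (ball 0 R1))
    (hne : ∀ t ∈ ball (0 : ℂ) R1, W t ≠ 0) (hM : ∀ t ∈ ball (0 : ℂ) R1, ‖W t‖ ≤ M) (hw0 : 0 < w)
    (hw : ‖W 0‖ ≤ w) (hwM : w ≤ M) (hx0 : 0 ≤ x) (hx : 3 * x ≤ R1) (hR1 : 0 < R1)
    (hl : 2 * x / (R1 - x) * Real.log (M / w) ≤ 1) {t : ℂ} (ht : ‖t‖ ≤ x) : ‖W t‖ ≤ Real.exp 1 * w := by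
  have hxR : x < R1 := by linarith
  have hRx : 0 < R1 - x := by linarith
  have h1 := (bc hE hne hM (t := t) (x := x) (by simpa using ht) hxR).1
  have hW0 : 0 < ‖W 0‖ := norm_pos_iff.2 (hne 0 (mem_ball_self hR1))
  have hM0 : 0 < M := hw0.trans_le hwM
  set k : ℝ := 2 * x / (R1 - x) with hk
  have hk1 : k ≤ 1 := by
    rw [hk, div_le_one hRx]
    linarith
  have e1 : 2 * x * Real.log (M / ‖W 0‖) / (R1 - x) = k * Real.log (M / ‖W 0‖) := by
    rw [hk]
    ring
  rw [e1] at h1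
  have hlog1 : Real.log (M / ‖W 0‖) = Real.log M - Real.log ‖W 0‖ :=
    Real.log_div hM0.ne' hW0.ne'
  have hlog2 : Real.log (M / w) = Real.log M - Real.log w := Real.log_div hM0.ne' hw0.ne'
  rw [hlog1] at h1
  rw [hlog2] at hl
  have hlw : Real.log ‖W 0‖ ≤ Real.log w := Real.log_le_log hW0 hw
  have h2 : ‖W 0‖ * Real.exp (k * (Real.log M - Real.log ‖W 0‖)) =
      Real.exp (Real.log ‖W 0‖ + k * (Real.log M - Real.log ‖W 0‖)) := by
    rw [Real.exp_add, Real.exp_log hW0]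
  have h3 : Real.exp 1 * w = Real.exp (1 + Real.log w) := by
    rw [Real.exp_add, Real.exp_log hw0]
  rw [h3]
  refine h1.trans ?_
  rw [h2, Real.exp_le_exp]
  nlinarith

end Pool.Agent.H47.SF
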