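import Pool.Agent.H47.SF.Gde

/-!
# [H47 SF GDF] the gain of a block

Notation: `Q = qq d`, `Q^200 = d`, `Q^100 = sqrt d` (`S.qd`, `S.qs`); a power `d^x` (`Real.rpow`) is `Q^(200 x)`.
PROOFS. `gain_stop`: `a^2 ≥ a r F/KD` and `a r > dl/(2^n0 KD Dp)`, so `a^2 Dp^2 ≥ (F/KD) (dl/(2^n0 KD)) Dp ≥ (dl_ge) d^(1-s) d^(-h-1/2-g) d^(p/2-Sg) / (400 R KD^2 2^n0)
= d^(p/2 + 1/2 - (s+h+g+Sg)) / (400 R KD^2 2^n0) ≥ d^(p/2) d^(-1/400) / (400 R KD^2 2^n0)`, divide by `4^p ≤ 4^n0`: `400 R KD^2 8^n0 ≤ Q` (`S.q2`) and `d^(1/400) ≤ Q`.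
`gain_cut`: `a * (D/2^n0) ≥ d^(n0/2 - 1/2 - 1/400 - C0)/2^n0` and `n0/2 - 1/2 - 1/400 - C0 ≥ n0/4 + 1 ≥ 1` (as `n0 ≥ 4 C0 + 8`), `2^n0 ≤ Q` (`S.q6`), `Q^3 Q ≤ Q^200 = d`.
-/

set_option autoImplicit false

open Finset

namespace Pool.Agent.H47.SF

variable {n0 d : ℕ} {R : ℝ}

private theorem KD_pos' : 0 < KD := by
  unfold KD
  positivity

theorem gain_stop (S : Sz n0 d R) {a r F ν b Dp s h g Sg : ℝ} {p : ℕ} (hp : p ≤ n0) (ha : 0 < a)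
    (hr : 0 < r) (hF : F * r ≤ KD * a) (hs : (d : ℝ) ^ (1 - s) ≤ F) (hν : (d : ℝ) ^ (-h) ≤ ν)
    (hb : (d : ℝ) ^ (1 / 2 - g) ≤ b) (hg : 0 ≤ g) (hD : (d : ℝ) ^ ((p : ℝ) / 2 - Sg) ≤ Dp)
    (hsum : s + h + g + Sg ≤ 1 / 2 + 1 / 400) (hstop : dl d R ν b < 2 ^ n0 * (KD * a * r) * Dp) :
    (d : ℝ) ^ ((p : ℝ) / 2) / qq d ^ 2 ≤ (a * (Dp / 2 ^ p)) ^ 2 := by
  have hd1 : 1 ≤ d := le_trans (by norm_num) S.d2
  have hd0 : (0 : ℝ) < d := by exact_mod_cast hd1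
  have hdr : (1 : ℝ) ≤ d := by exact_mod_cast hd1
  have hR : 0 < R := lt_of_lt_of_le one_pos S.R1
  have hK : 0 < KD := KD_pos'
  have hQ : 0 < qq d := lt_of_lt_of_le (by positivity) S.q1
  obtain ⟨K, hKe⟩ : ∃ K : ℝ, K = KD := ⟨_, rfl⟩
  obtain ⟨Q, hQe⟩ : ∃ Q : ℝ, Q = qq d := ⟨_, rfl⟩
  have q2 := S.q2
  have hdl := dl_ge (d := d) (R := R) hd1 S.R1 hν hb hg
  obtain ⟨P1, hP1⟩ : ∃ P : ℝ, P = (d : ℝ) ^ (1 - s) := ⟨_, rfl⟩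
  obtain ⟨P2, hP2⟩ : ∃ P : ℝ, P = (d : ℝ) ^ (-h - 1 / 2 - g) := ⟨_, rfl⟩
  obtain ⟨P3, hP3⟩ : ∃ P : ℝ, P = (d : ℝ) ^ ((p : ℝ) / 2 - Sg) := ⟨_, rfl⟩
  have hP1p : 0 < P1 := by rw [hP1]; exact Real.rpow_pos_of_pos hd0 _
  have hP2p : 0 < P2 := by rw [hP2]; exact Real.rpow_pos_of_pos hd0 _
  have hP3p : 0 < P3 := by rw [hP3]; exact Real.rpow_pos_of_pos hd0 _
  have hpow : (d : ℝ) ^ ((p : ℝ) / 2) ≤ P1 * P2 * P3 * Q := by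
    rw [hP1, hP2, hP3, hQe, qq, ← Real.rpow_add hd0, ← Real.rpow_add hd0, ← Real.rpow_add hd0]
    exact Real.rpow_le_rpow_of_exponent_le hdr (by linarith)
  rw [← hP1] at hs
  rw [← hP2] at hdl
  rw [← hP3] at hD
  rw [← hKe] at hF hstop q2 hK
  rw [← hQe] at q2 hQ ⊢
  have hDp : 0 < Dp := lt_of_lt_of_le hP3p hD
  have hFp : 0 < F := lt_of_lt_of_le hP1p hs
  have hdlp : 0 < dl d R ν b := lt_of_lt_of_le (by positivity) hdl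
  have h1 : P1 * (P2 / (400 * R)) * P3 ≤ F * dl d R ν b * Dp := by
    refine mul_le_mul (mul_le_mul hs hdl (by positivity) hFp.le) hD hP3p.le (by positivity)
  have h2 : F * dl d R ν b * Dp ≤ 2 ^ n0 * K ^ 2 * (a ^ 2 * Dp ^ 2) := by
    calc F * dl d R ν b * Dp ≤ F * (2 ^ n0 * (K * a * r) * Dp) * Dp := by
          refine mul_le_mul_of_nonneg_right ?_ hDp.le
          exact mul_le_mul_of_nonneg_left hstop.le hFp.le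
      _ = (F * r) * (2 ^ n0 * K * a * Dp ^ 2) := by ring
      _ ≤ (K * a) * (2 ^ n0 * K * a * Dp ^ 2) := by
          refine mul_le_mul_of_nonneg_right hF (by positivity)
      _ = 2 ^ n0 * K ^ 2 * (a ^ 2 * Dp ^ 2) := by ring
  have h3 : P1 * P2 * P3 ≤ 400 * R * (2 ^ n0 * K ^ 2 * (a ^ 2 * Dp ^ 2)) := by
    have h4 : P1 * P2 * P3 = 400 * R * (P1 * (P2 / (400 * R)) * P3) := by
      field_simp
    rw [h4]
    exact mul_le_mul_of_nonneg_left (h1.trans h2) (by positivity)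
  have h5 : (4 : ℝ) ^ p ≤ 4 ^ n0 := pow_le_pow_right₀ (by norm_num) hp
  have h6 : (8 : ℝ) ^ n0 = 2 ^ n0 * 4 ^ n0 := by
    rw [← mul_pow]
    norm_num
  have h7 : (a * (Dp / 2 ^ p)) ^ 2 = a ^ 2 * Dp ^ 2 / 4 ^ p := by
    have h8 : (4 : ℝ) ^ p = (2 ^ p) ^ 2 := by
      rw [← pow_mul, mul_comm, pow_mul]
      norm_num
    rw [h8]
    ring
  rw [h7, div_le_div_iff₀ (by positivity) (by positivity)]
  obtain ⟨T, hT⟩ : ∃ T : ℝ, T = a ^ 2 * Dp ^ 2 := ⟨_, rfl⟩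
  have hTp : 0 < T := by rw [hT]; positivity
  rw [← hT] at h3 ⊢
  calc (d : ℝ) ^ ((p : ℝ) / 2) * 4 ^ p ≤ (P1 * P2 * P3 * Q) * 4 ^ n0 :=
        mul_le_mul hpow h5 (by positivity) (by positivity)
    _ ≤ (400 * R * (2 ^ n0 * K ^ 2 * T) * Q) * 4 ^ n0 := by
        refine mul_le_mul_of_nonneg_right ?_ (by positivity)
        exact mul_le_mul_of_nonneg_right h3 hQ.le
    _ = T * ((400 * R * K ^ 2 * 8 ^ n0) * Q) := by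
        rw [h6]
        ring
    _ ≤ T * (Q * Q) := by
        refine mul_le_mul_of_nonneg_left ?_ hTp.le
        exact mul_le_mul_of_nonneg_right q2 hQ.le
    _ = T * Q ^ 2 := by ring

theorem gain_cut (S : Sz n0 d R) {C0 : ℕ} (hn : 4 * C0 + 8 ≤ n0) {a D Sg : ℝ}
    (ha : ((d : ℝ) ^ C0)⁻¹ ≤ a) (hD : (d : ℝ) ^ ((n0 : ℝ) / 2 - Sg) ≤ D) (hSg : Sg ≤ 1 / 2 + 1 / 400) :
    qq d ^ 3 ≤ a * (D / 2 ^ n0) := by
  have hd1 : 1 ≤ d := le_trans (by norm_num) S.d2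
  have hd0 : (0 : ℝ) < d := by exact_mod_cast hd1
  have hdr : (1 : ℝ) ≤ d := by exact_mod_cast hd1
  have hQ1 : (1 : ℝ) ≤ qq d := le_trans (one_le_pow₀ (by norm_num)) S.q1
  have hQ : 0 < qq d := by linarith
  have hnr : 4 * (C0 : ℝ) + 8 ≤ n0 := by exact_mod_cast hn
  have hC0 : (0 : ℝ) ≤ C0 := by positivity
  have h1 : (d : ℝ) ≤ a * D := by
    calc (d : ℝ) = (d : ℝ) ^ (1 : ℝ) := (Real.rpow_one _).symm
      _ ≤ (d : ℝ) ^ (-(C0 : ℝ) + ((n0 : ℝ) / 2 - Sg)) :=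
          Real.rpow_le_rpow_of_exponent_le hdr (by linarith)
      _ = ((d : ℝ) ^ C0)⁻¹ * (d : ℝ) ^ ((n0 : ℝ) / 2 - Sg) := by
          rw [Real.rpow_add hd0, Real.rpow_neg hd0.le, Real.rpow_natCast]
      _ ≤ a * D := mul_le_mul ha hD (Real.rpow_nonneg hd0.le _)
          (le_trans (by positivity) ha)
  have h2 : (2 : ℝ) ^ n0 ≤ qq d := by
    refine le_trans ?_ S.q6
    calc (2 : ℝ) ^ n0 ≤ 4 ^ n0 := pow_le_pow_left₀ (by norm_num) (by norm_num) _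
      _ ≤ 4 ^ (n0 + 4) := pow_le_pow_right₀ (by norm_num) (by omega)
  have h3 : qq d ^ 4 ≤ d := by
    calc qq d ^ 4 ≤ qq d ^ 200 := pow_le_pow_right₀ hQ1 (by norm_num)
      _ = d := S.qd
  rw [← mul_div_assoc, le_div_iff₀ (by positivity)]
  calc qq d ^ 3 * 2 ^ n0 ≤ qq d ^ 3 * qq d := mul_le_mul_of_nonneg_left h2 (by positivity)
    _ = qq d ^ 4 := by ring
    _ ≤ d := h3
    _ ≤ a * D := h1

end Pool.Agent.H47.SF
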