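import Pool.Agent.H47.SF.Pz
import Pool.Agent.H47.SF.Gdf

/-!
# [H47 SF BLK] the block lemma

PROOF. `Q = qq d`, `θ = (d^C0)⁻¹`. If `Q^3 ≤ a x`: `b = 1`. Otherwise `0 < θ ≤ a x < Q^3`; `A.deep x` gives `c, r`; `h = KD (a x) r`. Let `p` be the least `i < n0` with `dl (y_i) < 2^n0 h Pa (f c) i` if there is one (`Nat.find`), `p = n0` otherwise (`y_i = f^[i] (f c)`).
For `m < p`: `2^m h Pa m ≤ 2^n0 h Pa m ≤ dl (y_m)`. `shd` and `Pa_half`: `a (f^[m+1] x) ≥ a (y_m)/2` for `m < p`, `Pa x (m+1) = a x * Pa (f x) m ≥ a x * (Pa (f c) m/2^m)` for `m ≤ p`. Take `b = p + 1`.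
With `guide_prod`, `sum_le`: `a (y_m) ≥ d^(1/2-g_m) ≥ d^(-1/400)`, `Pa (f c) m ≥ d^(m/2 - 1/2 - 1/400) ≥ d^(-1/400)` for `1 ≤ m ≤ n0`, `= 1` for `m = 0`; `d^(-1/400)/2^n0 ≥ 1/Q`, `d^(-1/400)/2 ≥ 1/Q` since `(d^(1/400))^2 = Q` (rpow), `4^(n0+4) ≤ Q` (`S.q6`).
Gain for `p < n0`: `gain_stop` (`hD` from `guide_prod`, `hsum` from `sum_le`) and `Pa x b ≥ a x * (Pa (f c) p/2^p)`: `(Pa x b)^2 ≥ d^(p/2)/Q^2`. If `p ≥ 1` this is `≥ d^(1/2)/Q^2 = Q^98`, so `Pa x b ≥ Q^49 ≥ Q^3`. If `p = 0`: `a x ≥ 1/Q` and `pz` gives `BadP`. Gain for `p = n0`: `gain_cut`.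
-/

set_option autoImplicit false

open Finset

namespace Pool.Agent.H47.SF

variable {Y : Type} {n0 d : ℕ} {R : ℝ} {f : Y → Y} {a ν : Y → ℝ} {D : Y → Y → ℝ} {Cr : Set Y} {F2 : Y → ℝ}

/-- the stopping time -/
theorem exists_stop (n0 : ℕ) (P : ℕ → Prop) : ∃ p ≤ n0, (∀ m < p, ¬ P m) ∧ (p < n0 → P p) := by
  classical
  by_cases h : ∃ i, i < n0 ∧ P i
  · refine ⟨Nat.find h, (Nat.find_spec h).1.le, fun m hm hP => ?_, fun _ => (Nat.find_spec h).2⟩
    exact Nat.find_min h hm ⟨hm.trans (Nat.find_spec h).1, hP⟩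
  · push Not at h
    exact ⟨n0, le_rfl, fun m hm => h m hm, fun hh => absurd hh (lt_irrefl _)⟩

theorem block (A : Abs n0 d R f a ν D Cr F2) (S : Sz n0 d R) {C0 : ℕ} (hn : 4 * C0 + 8 ≤ n0) {x : Y}
    (hx : ((d : ℝ) ^ C0)⁻¹ ≤ a x) :
    ∃ b, 1 ≤ b ∧ b ≤ n0 + 1 ∧ (∀ l, 0 < l → l < b → (qq d)⁻¹ ≤ a (f^[l] x)) ∧
      (∀ l, 1 ≤ l → l ≤ b → a x * (qq d)⁻¹ ≤ Pa a f x l) ∧
      (qq d ^ 3 ≤ Pa a f x b ∨ b = 1 ∧ BadP d f a ν D Cr x) := by
  have h4Q : 4 ≤ qq d := by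
    calc (4:ℝ) = 4 ^ 1 := by norm_num
      _ ≤ 4 ^ 710 := pow_le_pow_right₀ (by norm_num) (by norm_num)
      _ ≤ qq d := S.q1
  have hQ : 0 < qq d := by linarith
  have hd1 : 1 ≤ d := by have := S.d2; omega
  have hd1' : (1:ℝ) ≤ (d:ℝ) := by exact_mod_cast hd1
  have hd0 : 0 < (d : ℝ) := by linarith
  have hQ1 : (qq d)⁻¹ ≤ 1 := inv_le_one_of_one_le₀ (by linarith)
  have hQ0 : 0 < (qq d)⁻¹ := by positivity
  have hθ0 : 0 < ((d : ℝ) ^ C0)⁻¹ := by positivity
  have hax0 : 0 < a x := lt_of_lt_of_le hθ0 hx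
  rcases le_or_gt (qq d ^ 3) (a x) with hbig | hsmall
  · refine ⟨1, le_rfl, by omega, fun l h1 h2 => by omega, fun l h1 h2 => ?_, Or.inl (by simpa [Pa] using hbig)⟩
    obtain rfl : l = 1 := by omega
    have : Pa a f x 1 = a x := by simp [Pa]
    rw [this]
    calc a x * (qq d)⁻¹ ≤ a x * 1 := by gcongr
      _ = a x := mul_one _
  · obtain ⟨c, hc, r, hr, hD1, hD2, hF⟩ := A.deep x hax0 hsmall
    obtain ⟨s, g, h, hs, hg, hh, hF2, hag, hnu, hsum⟩ := A.es c hc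
    obtain ⟨p, hp, hpn, hps⟩ := exists_stop n0
      (fun i => dl d R (ν (f^[i] (f c))) (a (f^[i] (f c))) < 2 ^ n0 * (KD * a x * r) * Pa a f (f c) i)
    have hKD : 0 < KD := by unfold KD; positivity
    have hh0 : 0 < KD * a x * r := by positivity
    have hPc : ∀ m, 0 ≤ Pa a f (f c) m := fun m => Pa_nonneg A.a0 f _ m
    have hshd := shd A (c := c) (x := x) (h := KD * a x * r) (by rw [A.sym]; exact hD2) p (by
      intro m hm
      have h1 := hpn m hm
      rw [not_lt] at h1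
      refine le_trans ?_ h1
      have h2 : (2:ℝ) ^ m ≤ 2 ^ n0 := pow_le_pow_right₀ (by norm_num) (by omega)
      have := hPc m
      gcongr)
    have hhalf := hshd.2
    have hPh := Pa_half A.a0 p hhalf
    -- the products along the guide
    have hgp := guide_prod (a := a) (f := f) A.a0 hd1 (y := f c) (g := g) (N := n0)
      (fun l hl => hag l hl.le)
    -- e = d^(-1/400)
    obtain ⟨e, he0, he1, hee⟩ : ∃ e : ℝ, 0 < e ∧ e = (d:ℝ) ^ (-(1:ℝ)/400) ∧ e ^ 2 = (qq d)⁻¹ := by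
      refine ⟨(d:ℝ) ^ (-(1:ℝ)/400), by positivity, rfl, ?_⟩
      rw [qq, ← Real.rpow_natCast, ← Real.rpow_mul hd0.le, ← Real.rpow_neg hd0.le]
      norm_num
    have he2 : (2:ℝ) ^ (n0 + 4) * (qq d)⁻¹ ≤ e := by
      -- (2^(n0+4) Q^-1)^2 = 4^(n0+4) Q^-2 ≤ Q^-1 = e^2
      have h1 : ((2:ℝ) ^ (n0 + 4) * (qq d)⁻¹) ^ 2 ≤ e ^ 2 := by
        rw [hee, mul_pow, ← pow_mul, mul_comm (n0 + 4) 2, pow_mul]
        have h2 : ((2:ℝ)^2) ^ (n0 + 4) ≤ qq d := by norm_num; exact_mod_cast S.q6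
        calc ((2:ℝ)^2) ^ (n0 + 4) * (qq d)⁻¹ ^ 2 ≤ qq d * (qq d)⁻¹ ^ 2 := by gcongr
          _ = (qq d)⁻¹ := by field_simp
      exact le_of_sq_le_sq h1 he0.le
    have h1e : e ≤ 1 := by
      have : e ^ 2 ≤ 1 ^ 2 := by rw [hee]; simpa using hQ1
      exact le_of_sq_le_sq this (by norm_num)
    have he3 : (qq d)⁻¹ ≤ e / 2 ^ n0 := by
      rw [le_div_iff₀ (by positivity)]
      calc (qq d)⁻¹ * 2 ^ n0 ≤ (qq d)⁻¹ * 2 ^ (n0 + 4) := by
            gcongr
            · norm_num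
            · omega
        _ = 2 ^ (n0 + 4) * (qq d)⁻¹ := mul_comm _ _
        _ ≤ e := he2
    have hn0 : 1 ≤ n0 := by omega
    have he4 : (qq d)⁻¹ ≤ e / 2 := by
      refine he3.trans ?_
      have : (2:ℝ) ^ 1 ≤ 2 ^ n0 := pow_le_pow_right₀ (by norm_num) hn0
      rw [pow_one] at this
      gcongr
    -- single derivatives of the guide
    have hgle : ∀ m ≤ n0, g m ≤ 1 / 2 + 1 / 400 := by
      intro m hm
      have := sum_le (n0 := n0) hs hg hh hsum hm
      have h1 : 0 ≤ ∑ l ∈ range m, g l := Finset.sum_nonneg fun l _ => hg l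
      have h2 := hh m
      linarith
    have hag' : ∀ m ≤ n0, e ≤ a (f^[m] (f c)) := by
      intro m hm
      refine le_trans ?_ (hag m hm)
      rw [he1]
      apply Real.rpow_le_rpow_of_exponent_le hd1'
      have := hgle m hm
      linarith
    have hPe : ∀ m ≤ n0, e ≤ Pa a f (f c) m := by
      intro m hm
      rcases Nat.eq_zero_or_pos m with rfl | hm0
      · rw [Pa_zero]; exact h1e
      · refine le_trans ?_ (hgp m hm)
        rw [he1]
        apply Real.rpow_le_rpow_of_exponent_le hd1'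
        have h1 : s + h m + g m + ∑ l ∈ range m, g l ≤ 1/2 + 1/400 := sum_le (n0 := n0) hs hg hh hsum hm
        have h2 := hg m
        have h3 := hh m
        have h5 : (1:ℝ) ≤ (m:ℝ) := by exact_mod_cast hm0
        linarith
    have hPx : ∀ m ≤ p, a x * (Pa a f (f c) m / 2 ^ m) ≤ Pa a f x (m + 1) := by
      intro m hm
      rw [Pa_succ']
      exact mul_le_mul_of_nonneg_left (hPh m hm) hax0.le
    refine ⟨p + 1, by omega, by omega, ?_, ?_, ?_⟩
    · intro l hl0 hl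
      obtain ⟨m, rfl⟩ : ∃ m, l = m + 1 := ⟨l - 1, by omega⟩
      rw [Function.iterate_succ_apply]
      refine le_trans ?_ (hhalf m (by omega))
      have := hag' m (by omega)
      linarith
    · intro l hl0 hl
      obtain ⟨m, rfl⟩ : ∃ m, l = m + 1 := ⟨l - 1, by omega⟩
      refine le_trans ?_ (hPx m (by omega))
      apply mul_le_mul_of_nonneg_left _ hax0.le
      refine he3.trans ?_
      have h1 : (2:ℝ) ^ m ≤ 2 ^ n0 := pow_le_pow_right₀ (by norm_num) (by omega)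
      have h2 := hPe m (by omega)
      calc e / 2 ^ n0 ≤ e / 2 ^ m := by gcongr
        _ ≤ Pa a f (f c) m / 2 ^ m := by gcongr
    · rcases lt_or_eq_of_le hp with hlt | heq
      · have hstop := hps hlt
        have hgain := gain_stop S (p := p) hp hax0 hr hF hF2 (hnu p hp) (hag p hp) (hg p) (hgp p hp)
          (sum_le (n0 := n0) hs hg hh hsum hp) hstop
        have hx0 : 0 ≤ a x * (Pa a f (f c) p / 2 ^ p) := by have := hPc p; positivity
        have hPp0 : 0 ≤ Pa a f x (p + 1) := Pa_nonneg A.a0 _ _ _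
        have hgain2 : (d : ℝ) ^ ((p : ℝ) / 2) / qq d ^ 2 ≤ (Pa a f x (p + 1)) ^ 2 :=
          hgain.trans (pow_le_pow_left₀ hx0 (hPx p le_rfl) 2)
        rcases Nat.eq_zero_or_pos p with hp0 | hp0
        · right
          subst hp0
          refine ⟨rfl, ?_⟩
          have hax : (qq d)⁻¹ ≤ a x := by
            have h1 : Pa a f x 1 = a x := by simp [Pa]
            rw [Nat.zero_add, h1] at hgain2
            simp only [Nat.cast_zero, zero_div, Real.rpow_zero] at hgain2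
            have h2 : ((qq d)⁻¹) ^ 2 ≤ (a x) ^ 2 := by
              rw [inv_pow]; simpa [one_div] using hgain2
            exact le_of_sq_le_sq h2 hax0.le
          apply pz A S hn0 hax hsmall hc hr hD1 hD2 hF
          simpa [Pa_zero] using hstop
        · left
          have h1 : (d:ℝ) ^ ((1:ℝ)/2) ≤ (d : ℝ) ^ ((p : ℝ) / 2) := by
            apply Real.rpow_le_rpow_of_exponent_le hd1'
            have : (1:ℝ) ≤ (p:ℝ) := by exact_mod_cast hp0
            linarith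
          have h2 : (d:ℝ) ^ ((1:ℝ)/2) = qq d ^ 100 := by rw [S.qs, Real.sqrt_eq_rpow]
          have h3 : (qq d ^ 49) ^ 2 ≤ (Pa a f x (p + 1)) ^ 2 := by
            refine le_trans ?_ hgain2
            rw [le_div_iff₀ (by positivity)]
            calc (qq d ^ 49) ^ 2 * qq d ^ 2 = qq d ^ 100 := by ring
              _ ≤ _ := by rw [← h2]; exact h1
          have h4 := le_of_sq_le_sq h3 hPp0
          exact (pow_le_pow_right₀ (by linarith) (by norm_num)).trans h4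
      · left
        subst heq
        have hSg : ∑ l ∈ range p, g l ≤ 1/2 + 1/400 := by
          have h1 := sum_le (n0 := p) hs hg hh hsum le_rfl
          have h2 := hg p
          have h3 := hh p
          linarith
        exact (gain_cut S hn hx (hgp p le_rfl) hSg).trans (hPx p le_rfl)

end Pool.Agent.H47.SF
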