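import Pool.Agent.H47.SF.Der

/-!
# [H47 SF BNA] bounds in the charts: values

`R` is an upper bound of `|F|` on unit vectors.
PROOFS. `bnd0`: `w = u + t • pp u`; `isU_chart`: `lam • w` is a unit vector, `‖lam‖^2 (1 + ‖t‖^2) = 1`; `nuF_smul`: `‖lam‖^d nuF X w = nuF X (lam • w) ≤ R`, so `nuF X w ≤ (1 + ‖t‖^2)^(d/2) R ≤ 2 R` as
`(1 + ‖t‖^2)^d ≤ (1 + 1/d)^d ≤ e ≤ 4`.
`nu_near`: `n2_add_le` applied to `w = u + (w - u)` and `u = w + (u - w)` on the level of `FF` (`n2 (-v) = n2 v`).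
-/

set_option autoImplicit false

open Finset
open Pool.H70.SF

namespace Pool.Agent.H47.SF

variable {d : ℕ} {R : ℝ} {X : CV d}

theorem bnd0 (hd : 1 ≤ d) (hR : 0 ≤ R) (hi : ∀ u, IsU u → nuF X u ≤ R) {u : ℂ × ℂ} (hu : IsU u) {t : ℂ}
    (ht : ‖t‖ ^ 2 * d ≤ 1) : nuF X (u + t • pp u) ≤ 2 * R := by
  obtain ⟨lam, hl, hU, -⟩ := isU_chart hu t
  have h1 := hi _ hU
  rw [nuF_smul] at h1
  have h0 : 0 ≤ nuF X (u + t • pp u) := nuF_nonneg X _
  have hx0 : 0 ≤ ‖t‖ ^ 2 := by positivity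
  have h4 : (1 + ‖t‖ ^ 2) ^ d ≤ 4 := by
    calc (1 + ‖t‖ ^ 2) ^ d ≤ Real.exp (‖t‖ ^ 2) ^ d := by
          apply pow_le_pow_left₀ (by positivity)
          have := Real.add_one_le_exp (‖t‖ ^ 2)
          linarith
      _ = Real.exp (‖t‖ ^ 2 * d) := by
          rw [← Real.exp_nat_mul]; ring_nf
      _ ≤ Real.exp 1 := Real.exp_le_exp.mpr ht
      _ ≤ 4 := by
          have := Real.exp_one_lt_d9
          linarith
  have hone : (‖lam‖ ^ d) ^ 2 * (1 + ‖t‖ ^ 2) ^ d = 1 := by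
    rw [← pow_mul, mul_comm d 2, pow_mul, ← mul_pow, hl, one_pow]
  have hsq : (‖lam‖ ^ d * nuF X (u + t • pp u)) ^ 2 ≤ R ^ 2 :=
    pow_le_pow_left₀ (by positivity) h1 2
  have hfin : nuF X (u + t • pp u) ^ 2 ≤ (2 * R) ^ 2 := by
    calc nuF X (u + t • pp u) ^ 2
        = (1 + ‖t‖ ^ 2) ^ d * (‖lam‖ ^ d * nuF X (u + t • pp u)) ^ 2 := by
          linear_combination (-(nuF X (u + t • pp u)) ^ 2) * hone
      _ ≤ 4 * R ^ 2 := by
          apply mul_le_mul h4 hsq (by positivity) (by norm_num)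
      _ = (2 * R) ^ 2 := by ring
  exact (pow_le_pow_iff_left₀ h0 (by positivity) two_ne_zero).mp hfin

/-- comparison of `|F|` -/
theorem nu_near {θ : ℝ} {u w : ℂ × ℂ} (h : Real.sqrt (n2 (FF X w - FF X u)) ≤ θ * nuF X u) :
    (1 - θ) * nuF X u ≤ nuF X w ∧ nuF X w ≤ (1 + θ) * nuF X u := by
  have h1 : nuF X w ≤ nuF X u + Real.sqrt (n2 (FF X w - FF X u)) := by
    have := n2_add_le (FF X u) (FF X w - FF X u)
    rwa [add_sub_cancel] at this
  have hneg : n2 (FF X u - FF X w) = n2 (FF X w - FF X u) := by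
    unfold n2
    rw [Prod.fst_sub, Prod.snd_sub, Prod.fst_sub, Prod.snd_sub, norm_sub_rev,
      norm_sub_rev (FF X w).2]
  have h2 : nuF X u ≤ nuF X w + Real.sqrt (n2 (FF X w - FF X u)) := by
    have := n2_add_le (FF X w) (FF X u - FF X w)
    rw [add_sub_cancel, hneg] at this
    exact this
  constructor <;> linarith

end Pool.Agent.H47.SF
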