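import Pool.Agent.H47.SF.Bna

/-!
# [H47 SF BNB] bounds in the charts: first and second derivative (Cauchy)

`R` is an upper bound of `|F|` on unit vectors.
PROOFS. `bnd1`: `P = ch X.1 u`, `Q = ch X.2 u`; put `e = (conj P'(t), conj Q'(t))` and `h = e1 P + e2 Q`. `‖h‖ ≤ |e| |Φ| ≤ |e| 2R` (Cauchy-Schwarz, `bnd0`) on the circle of radius `1/(2 sqrt d)` around `t` (there `‖.‖ ≤ 1/sqrt d`), Cauchy's estimate
(`Complex.norm_deriv_le_of_forall_mem_sphere_norm_le`): `|e|^2 = |h'(t)| ≤ |e| 2R * 2 sqrt d`. `bnd2`: the same with the second derivative: `e = (conj P''(t), conj Q''(t))`,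
`|e|^2 = |h''(t)| ≤ 2! (|e| 2 R) (2 sqrt d)^2` (`Complex.norm_iteratedDeriv_le_of_forall_mem_sphere_norm_le`; `iteratedDeriv 2 h = deriv (deriv h)`): `|e| ≤ 16 R d`.
-/

set_option autoImplicit false

open Finset
open Pool.H70.SF

namespace Pool.Agent.H47.SF

variable {d : ℕ} {R : ℝ} {X : CV d}

private theorem bnb_cs (a b P Q : ℂ) :
    ‖(starRingEnd ℂ) a * P + (starRingEnd ℂ) b * Q‖ ≤ Real.sqrt (n2 (a, b)) * Real.sqrt (n2 (P, Q)) := by
  have h := wd_cs' ((starRingEnd ℂ) a, -(starRingEnd ℂ) b) (Q, P)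
  have h1 : wd ((starRingEnd ℂ) a, -(starRingEnd ℂ) b) (Q, P) =
      (starRingEnd ℂ) a * P + (starRingEnd ℂ) b * Q := by
    unfold wd
    ring
  have h2 : n2 ((starRingEnd ℂ) a, -(starRingEnd ℂ) b) = n2 (a, b) := by
    unfold n2
    simp
  have h3 : n2 (Q, P) = n2 (P, Q) := by
    unfold n2
    ring
  rw [h1, h2, h3] at h
  exact h

private theorem bnb_self (a b : ℂ) :
    ‖(starRingEnd ℂ) a * a + (starRingEnd ℂ) b * b‖ = Real.sqrt (n2 (a, b)) ^ 2 := by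
  rw [Real.sq_sqrt (n2_nonneg _), Complex.conj_mul', Complex.conj_mul']
  have h : ((‖a‖ : ℂ) ^ 2 + (‖b‖ : ℂ) ^ 2) = ((‖a‖ ^ 2 + ‖b‖ ^ 2 : ℝ) : ℂ) := by push_cast; ring
  rw [h, Complex.norm_real, Real.norm_of_nonneg (by positivity)]
  rfl

private theorem bnb_fin {e C : ℝ} (he : 0 ≤ e) (hC : 0 ≤ C) (h : e ^ 2 ≤ e * C) : e ≤ C := by
  rcases he.lt_or_eq with h1 | h1
  · nlinarith
  · rw [← h1]; exact hC

private theorem bnb_dd {P : ℂ → ℂ} (hP : Differentiable ℂ P) : Differentiable ℂ (deriv P) :=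
  differentiableOn_univ.1 (hP.differentiableOn.deriv isOpen_univ)

private theorem bnb_c1 {P Q : ℂ → ℂ} (hP : Differentiable ℂ P) (hQ : Differentiable ℂ Q) {t : ℂ}
    {r C : ℝ} (hr : 0 < r) (hC0 : 0 ≤ C)
    (hC : ∀ s ∈ Metric.sphere t r, Real.sqrt (n2 (P s, Q s)) ≤ C) :
    Real.sqrt (n2 (deriv P t, deriv Q t)) ≤ C / r := by
  set a := deriv P t with ha
  set b := deriv Q t with hb
  set e := Real.sqrt (n2 (a, b)) with he
  have he0 : 0 ≤ e := Real.sqrt_nonneg _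
  have hd : Differentiable ℂ (fun s => (starRingEnd ℂ) a * P s + (starRingEnd ℂ) b * Q s) :=
    (hP.const_mul _).add (hQ.const_mul _)
  have h1 := Complex.norm_deriv_le_of_forall_mem_sphere_norm_le (C := e * C) hr hd.diffContOnCl
    (fun s hs => (bnb_cs a b (P s) (Q s)).trans (mul_le_mul_of_nonneg_left (hC s hs) he0))
  have h2 : deriv (fun s => (starRingEnd ℂ) a * P s + (starRingEnd ℂ) b * Q s) t =
      (starRingEnd ℂ) a * a + (starRingEnd ℂ) b * b :=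
    (((hP t).hasDerivAt.const_mul _).add ((hQ t).hasDerivAt.const_mul _)).deriv
  rw [h2, bnb_self, mul_div_assoc] at h1
  exact bnb_fin he0 (by positivity) h1

private theorem bnb_c2 {P Q : ℂ → ℂ} (hP : Differentiable ℂ P) (hQ : Differentiable ℂ Q) {t : ℂ}
    {r C : ℝ} (hr : 0 < r) (hC0 : 0 ≤ C)
    (hC : ∀ s ∈ Metric.sphere t r, Real.sqrt (n2 (P s, Q s)) ≤ C) :
    Real.sqrt (n2 (deriv (deriv P) t, deriv (deriv Q) t)) ≤ 2 * C / r ^ 2 := by
  set a := deriv (deriv P) t with ha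
  set b := deriv (deriv Q) t with hb
  set e := Real.sqrt (n2 (a, b)) with he
  have he0 : 0 ≤ e := Real.sqrt_nonneg _
  have hd : Differentiable ℂ (fun s => (starRingEnd ℂ) a * P s + (starRingEnd ℂ) b * Q s) :=
    (hP.const_mul _).add (hQ.const_mul _)
  have h1 := Complex.norm_iteratedDeriv_le_of_forall_mem_sphere_norm_le (C := e * C) 2 hr
    hd.diffContOnCl
    (fun s hs => (bnb_cs a b (P s) (Q s)).trans (mul_le_mul_of_nonneg_left (hC s hs) he0))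
  have h3 : deriv (fun s => (starRingEnd ℂ) a * P s + (starRingEnd ℂ) b * Q s) =
      fun s => (starRingEnd ℂ) a * deriv P s + (starRingEnd ℂ) b * deriv Q s := by
    funext s
    exact (((hP s).hasDerivAt.const_mul _).add ((hQ s).hasDerivAt.const_mul _)).deriv
  have h2 : iteratedDeriv 2 (fun s => (starRingEnd ℂ) a * P s + (starRingEnd ℂ) b * Q s) t =
      (starRingEnd ℂ) a * a + (starRingEnd ℂ) b * b := by
    rw [iteratedDeriv_succ, iteratedDeriv_one, h3]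
    exact ((((bnb_dd hP) t).hasDerivAt.const_mul _).add
      (((bnb_dd hQ) t).hasDerivAt.const_mul _)).deriv
  rw [h2, bnb_self] at h1
  have h4 : ((2 : ℕ).factorial : ℝ) * (e * C) / r ^ 2 = e * (2 * C / r ^ 2) := by
    norm_num [Nat.factorial]
    ring
  rw [h4] at h1
  exact bnb_fin he0 (by positivity) h1

private theorem bnb_sph (hd : 1 ≤ d) (hR : 0 ≤ R) (hi : ∀ u, IsU u → nuF X u ≤ R) {u : ℂ × ℂ}
    (hu : IsU u) {t : ℂ} (ht : 2 * ‖t‖ * Real.sqrt d ≤ 1) :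
    ∀ s ∈ Metric.sphere t (1 / (2 * Real.sqrt d)), Real.sqrt (n2 (ch X.1 u s, ch X.2 u s)) ≤ 2 * R := by
  intro s hs
  have hd0 : (0 : ℝ) < d := by exact_mod_cast hd
  have hsd : 0 < Real.sqrt d := Real.sqrt_pos.2 hd0
  have h1 : ‖s‖ ≤ ‖t‖ + 1 / (2 * Real.sqrt d) := by
    have h2 : ‖s - t‖ = 1 / (2 * Real.sqrt d) := by rw [← dist_eq_norm]; exact hs
    have h3 : s = t + (s - t) := by ring
    calc ‖s‖ = ‖t + (s - t)‖ := by rw [← h3]
      _ ≤ ‖t‖ + ‖s - t‖ := norm_add_le _ _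
      _ = _ := by rw [h2]
  have h2 : ‖s‖ * Real.sqrt d ≤ 1 := by
    have h3 : 1 / (2 * Real.sqrt d) * Real.sqrt d = 1 / 2 := by field_simp
    have h4 := mul_le_mul_of_nonneg_right h1 hsd.le
    rw [add_mul, h3] at h4
    linarith
  have h3 : ‖s‖ ^ 2 * d ≤ 1 := by
    have h4 : ‖s‖ ^ 2 * d = (‖s‖ * Real.sqrt d) ^ 2 := by
      rw [mul_pow, Real.sq_sqrt hd0.le]
    rw [h4]
    exact pow_le_one₀ (by positivity) h2
  exact bnd0 hd hR hi hu h3

theorem bnd1 (hd : 1 ≤ d) (hR : 0 ≤ R) (hi : ∀ u, IsU u → nuF X u ≤ R) {u : ℂ × ℂ} (hu : IsU u) {t : ℂ}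
    (ht : 2 * ‖t‖ * Real.sqrt d ≤ 1) :
    Real.sqrt (n2 (deriv (ch X.1 u) t, deriv (ch X.2 u) t)) ≤ 4 * R * Real.sqrt d := by
  have hd0 : (0 : ℝ) < d := by exact_mod_cast hd
  have hsd : 0 < Real.sqrt d := Real.sqrt_pos.2 hd0
  have h1 := bnb_c1 (ch_diff X.1 u) (ch_diff X.2 u) (t := t) (r := 1 / (2 * Real.sqrt d))
    (C := 2 * R) (by positivity) (by positivity) (bnb_sph hd hR hi hu ht)
  refine h1.trans (le_of_eq ?_)
  field_simp
  ring

theorem bnd2 (hd : 1 ≤ d) (hR : 0 ≤ R) (hi : ∀ u, IsU u → nuF X u ≤ R) {u : ℂ × ℂ} (hu : IsU u) {t : ℂ}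
    (ht : 2 * ‖t‖ * Real.sqrt d ≤ 1) :
    Real.sqrt (n2 (deriv (deriv (ch X.1 u)) t, deriv (deriv (ch X.2 u)) t)) ≤ 16 * R * d := by
  have hd0 : (0 : ℝ) < d := by exact_mod_cast hd
  have hsd : 0 < Real.sqrt d := Real.sqrt_pos.2 hd0
  have h1 := bnb_c2 (ch_diff X.1 u) (ch_diff X.2 u) (t := t) (r := 1 / (2 * Real.sqrt d))
    (C := 2 * R) (by positivity) (by positivity) (bnb_sph hd hR hi hu ht)
  refine h1.trans (le_of_eq ?_)
  have h2 : Real.sqrt (d : ℝ) ^ 2 = d := Real.sq_sqrt hd0.le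
  rw [div_pow, mul_pow, h2]
  field_simp
  ring

end Pool.Agent.H47.SF
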