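import Pool.Agent.H47.SF.Hom

/-!
# [H47 SF CHT] charts of the sphere

For a unit vector `u` the chart is `t ↦ u + t u'`, `u' = pp u`.
PROOFS. `exists_chart`: `lam = z1 conj(u1) + z2 conj(u2)`, and `wd u z = u1 z2 - u2 z1`. Then `z = lam u + (wd u z) u'` (check the two
coordinates using `|u1|^2 + |u2|^2 = 1`), `|lam|^2 + |wd u z|^2 = 1` (both unit), so `lam ≠ 0`; `t = wd u z / lam`.
`‖lam‖^2 (1 + ‖t‖^2) = ‖lam‖^2 + ‖wd u z‖^2 = 1`. `t_le`: `‖lam‖ ^ 2 = 1 - ‖wd u z‖ ^ 2 ≥ 0.99` if `‖wd u z‖ ≤ 1/10`,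
`‖t‖ = ‖wd u z‖ / ‖lam‖`.
`isU_chart`: `lam = 1 / sqrt (1 + ‖t‖^2)`; `wd u (lam • (u + t • pp u)) = lam t (wd u (pp u)) = lam t`.
`tri`: decompose `u` and `w` along `v, pp v`: with `⟨a,b⟩ = a1 conj b1 + a2 conj b2`, `wd u w = ⟨w,v⟩ wd u v - ⟨u,v⟩ wd w v`
(up to signs; `|⟨w,v⟩|, |⟨u,v⟩| ≤ 1` by Cauchy-Schwarz).
-/

set_option autoImplicit false

open Finset
open Pool.H70.SF

namespace Pool.Agent.H47.SF

private theorem cht_conj {u : ℂ × ℂ} (hu : IsU u) :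
    u.1 * (starRingEnd ℂ) u.1 + u.2 * (starRingEnd ℂ) u.2 = 1 := by
  have h2 : ‖u.1‖ ^ 2 + ‖u.2‖ ^ 2 = 1 := hu
  rw [Complex.mul_conj, Complex.mul_conj, Complex.normSq_eq_norm_sq, Complex.normSq_eq_norm_sq]
  exact_mod_cast h2

/-- the coordinate of `w` on `u` -/
private noncomputable def ccu (u w : ℂ × ℂ) : ℂ := w.1 * (starRingEnd ℂ) u.1 + w.2 * (starRingEnd ℂ) u.2

private theorem cht_dec {u : ℂ × ℂ} (hu : IsU u) (w : ℂ × ℂ) : w = ccu u w • u + wd u w • pp u := by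
  have h1 := cht_conj hu
  unfold ccu wd pp
  ext
  · simp only [Prod.fst_add, Prod.smul_fst, smul_eq_mul]
    linear_combination (-w.1) * h1
  · simp only [Prod.snd_add, Prod.smul_snd, smul_eq_mul]
    linear_combination (-w.2) * h1

private theorem cht_n2 {u : ℂ × ℂ} (hu : IsU u) (w : ℂ × ℂ) : ‖ccu u w‖ ^ 2 + ‖wd u w‖ ^ 2 = n2 w := by
  have h1 := cht_conj hu
  have h3 : ((‖ccu u w‖ ^ 2 + ‖wd u w‖ ^ 2 : ℝ) : ℂ) = ((n2 w : ℝ) : ℂ) := by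
    unfold n2
    rw [← Complex.normSq_eq_norm_sq, ← Complex.normSq_eq_norm_sq, ← Complex.normSq_eq_norm_sq,
      ← Complex.normSq_eq_norm_sq]
    push_cast
    rw [← Complex.mul_conj, ← Complex.mul_conj, ← Complex.mul_conj, ← Complex.mul_conj]
    unfold ccu wd
    simp only [map_add, map_sub, map_mul, Complex.conj_conj]
    linear_combination (w.1 * (starRingEnd ℂ) w.1 + w.2 * (starRingEnd ℂ) w.2) * h1
  exact_mod_cast h3

theorem wd_pp {u : ℂ × ℂ} (hu : IsU u) : wd u (pp u) = 1 := by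
  have h1 := cht_conj hu
  unfold wd pp
  linear_combination h1

theorem n2_chart {u : ℂ × ℂ} (hu : IsU u) (t : ℂ) : n2 (u + t • pp u) = 1 + ‖t‖ ^ 2 := by
  have h1 := cht_conj hu
  rw [← cht_n2 hu]
  have h2 : ccu u (u + t • pp u) = 1 := by
    unfold ccu pp
    simp only [Prod.fst_add, Prod.snd_add, Prod.smul_fst, Prod.smul_snd, smul_eq_mul]
    linear_combination h1
  have h3 : wd u (u + t • pp u) = t := by
    unfold wd pp
    simp only [Prod.fst_add, Prod.snd_add, Prod.smul_fst, Prod.smul_snd, smul_eq_mul]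
    linear_combination t * h1
  rw [h2, h3, norm_one]
  ring

theorem wd_le_one {u v : ℂ × ℂ} (hu : IsU u) (hv : IsU v) : ‖wd u v‖ ≤ 1 := by
  have := wd_cs u v
  rw [show n2 u = 1 from hu, show n2 v = 1 from hv] at this
  nlinarith [norm_nonneg (wd u v)]

theorem exists_chart {u z : ℂ × ℂ} (hu : IsU u) (hz : IsU z) (h : ‖wd u z‖ < 1) :
    ∃ lam t : ℂ, z = lam • (u + t • pp u) ∧ ‖lam‖ ^ 2 * (1 + ‖t‖ ^ 2) = 1 ∧ wd u z = lam * t := by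
  have h1 := cht_n2 hu z
  rw [show n2 z = 1 from hz] at h1
  have h0 : ccu u z ≠ 0 := by
    intro h2
    rw [h2, norm_zero] at h1
    nlinarith [norm_nonneg (wd u z)]
  have h3 : 0 < ‖ccu u z‖ := norm_pos_iff.2 h0
  refine ⟨ccu u z, wd u z / ccu u z, ?_, ?_, ?_⟩
  · conv_lhs => rw [cht_dec hu z]
    rw [smul_add, smul_smul, mul_div_cancel₀ _ h0]
  · rw [norm_div]
    field_simp
    exact h1
  · rw [mul_div_cancel₀ _ h0]

theorem t_le {lam t : ℂ} {s : ℝ} (h : ‖lam‖ ^ 2 * (1 + ‖t‖ ^ 2) = 1) (hs : ‖lam‖ * ‖t‖ = s) (h1 : s ≤ 1 / 10) :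
    ‖t‖ ≤ 1.01 * s := by
  have h2 : ‖lam‖ ^ 2 = 1 - s ^ 2 := by rw [← hs]; linear_combination h
  have h3 := norm_nonneg lam
  have h4 := norm_nonneg t
  have h0 : 0 ≤ s := by rw [← hs]; positivity
  have h5 : 0.99 ≤ ‖lam‖ ^ 2 := by nlinarith
  have h6 : 1 ≤ 1.01 * ‖lam‖ := by nlinarith
  calc ‖t‖ = 1 * ‖t‖ := (one_mul _).symm
    _ ≤ 1.01 * ‖lam‖ * ‖t‖ := mul_le_mul_of_nonneg_right h6 h4
    _ = 1.01 * s := by rw [← hs]; ring

theorem isU_chart {u : ℂ × ℂ} (hu : IsU u) (t : ℂ) :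
    ∃ lam : ℂ, ‖lam‖ ^ 2 * (1 + ‖t‖ ^ 2) = 1 ∧ IsU (lam • (u + t • pp u)) ∧
      ‖wd u (lam • (u + t • pp u))‖ = ‖lam‖ * ‖t‖ := by
  have h1 := cht_conj hu
  have h0 : 0 < 1 + ‖t‖ ^ 2 := by positivity
  have h2 : 0 < Real.sqrt (1 + ‖t‖ ^ 2) := Real.sqrt_pos.2 h0
  have hl : ‖(((Real.sqrt (1 + ‖t‖ ^ 2))⁻¹ : ℝ) : ℂ)‖ ^ 2 * (1 + ‖t‖ ^ 2) = 1 := by
    rw [Complex.norm_real, Real.norm_eq_abs, abs_of_pos (inv_pos.2 h2), inv_pow, Real.sq_sqrt h0.le,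
      inv_mul_cancel₀ h0.ne']
  refine ⟨(((Real.sqrt (1 + ‖t‖ ^ 2))⁻¹ : ℝ) : ℂ), hl, ?_, ?_⟩
  · show n2 _ = 1
    rw [n2_smul, n2_chart hu]
    exact hl
  · have h3 : wd u ((((Real.sqrt (1 + ‖t‖ ^ 2))⁻¹ : ℝ) : ℂ) • (u + t • pp u)) =
        (((Real.sqrt (1 + ‖t‖ ^ 2))⁻¹ : ℝ) : ℂ) * t := by
      unfold wd pp
      simp only [Prod.fst_add, Prod.snd_add, Prod.smul_fst, Prod.smul_snd, smul_eq_mul]
      linear_combination (((Real.sqrt (1 + ‖t‖ ^ 2))⁻¹ : ℝ) : ℂ) * t * h1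
    rw [h3, norm_mul]

theorem wd_comm (u v : ℂ × ℂ) : ‖wd u v‖ = ‖wd v u‖ := by
  rw [wd, wd, ← norm_neg]; congr 1; ring

/-- triangle inequality of the chordal distance -/
theorem tri {u v w : ℂ × ℂ} (hu : IsU u) (hv : IsU v) (hw : IsU w) :
    ‖wd u w‖ ≤ ‖wd u v‖ + ‖wd v w‖ := by
  have h1 := cht_conj hv
  have e : wd u w = ccu v w * wd u v + ccu v u * wd v w := by
    unfold wd ccu
    linear_combination (-(u.1 * w.2 - u.2 * w.1)) * h1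
  have e1 : ‖ccu v w‖ ≤ 1 := by
    have := cht_n2 hv w
    rw [show n2 w = 1 from hw] at this
    nlinarith [norm_nonneg (ccu v w), norm_nonneg (wd v w)]
  have e2 : ‖ccu v u‖ ≤ 1 := by
    have := cht_n2 hv u
    rw [show n2 u = 1 from hu] at this
    nlinarith [norm_nonneg (ccu v u), norm_nonneg (wd v u)]
  rw [e]
  refine (norm_add_le _ _).trans ?_
  rw [norm_mul, norm_mul]
  exact add_le_add (mul_le_of_le_one_left (norm_nonneg _) e1) (mul_le_of_le_one_left (norm_nonneg _) e2)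

end Pool.Agent.H47.SF
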