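import Pool.Agent.H47.SF.Dpc
import Pool.Agent.H47.SF.Gd

/-!
# [H47 SF DEEP] deep points (Lemma D)

NOTATION. `Q = qq d`, `ν = nuF X u`, `a = ‖aa X u‖`, `W = Wc X u`, `R0 = ν/(16 R sqrt d)`, `R2 = R0/Q`, `M = 8 R^2 sqrt d`, `μ = d^(-3/2)`, `N = 999`.
PROOF. `tc` from `deepA`, `lam` from `isU_chart`, `c = lam • (u + tc • pp u)`, `r = ‖tc‖`: `‖wd u c‖ = ‖lam‖ ‖tc‖ ≤ r`. On `‖t‖ ≤ R0`: `|Φ(t) - Φ(0)| ≤ 4 R sqrt d R0 = ν/4` (`bndD`), so `3ν/4 ≤ nuF X (u + t • pp u)` (`nu_near`).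
`gd` with `θ = 1/4`, `w = 3^1000 a ν^2` on `‖t‖ ≤ r` (`deepC`, `aa_zero_chart`) and `nx_chart`: `‖wd (nx X u) (nx X c)‖ ≤ (16/9) 3^1000 a r ≤ KD a r`. Cauchy's estimate on the circle `‖t - tc‖ = r` (inside `‖t‖ ≤ 2r`): `‖deriv W tc‖ ≤ 3^1000 a ν^2/r`;
`n2 (FF X c) = ‖lam‖^(2d) nuF X (u + tc • pp u)^2 ≥ (9/16) ν^2 (1 + ‖tc‖^2)^(-d) ≥ ν^2/2` (`d ‖tc‖^2 ≤ 1/256`, Bernoulli/exp). `deepB`: `f2 X c * n2 (FF X c) ≤ ‖deriv W tc‖`, so `f2 X c * r ≤ 2 * 3^1000 a ≤ KD a`.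
-/

set_option autoImplicit false

open Finset
open Pool.H70.SF

namespace Pool.Agent.H47.SF

variable {n0 d : ℕ} {R : ℝ} {X : CV d}

theorem deep (G : Good n0 R X) (S : Sz n0 d R) {u : ℂ × ℂ} (hu : IsU u) (h0 : 0 < ‖aa X u‖)
    (h1 : ‖aa X u‖ < qq d ^ 3) :
    ∃ c, IsU c ∧ JJ X c = 0 ∧ ∃ r > 0, ‖wd u c‖ ≤ r ∧ ‖wd (nx X u) (nx X c)‖ ≤ KD * ‖aa X u‖ * r ∧
      f2 X c * r ≤ KD * ‖aa X u‖ := by
  have hd1 : 1 ≤ d := by have := S.d2; omega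
  have hdr : (1 : ℝ) ≤ d := by exact_mod_cast hd1
  have hd0 : (0 : ℝ) < d := by linarith
  have hsd : 0 < Real.sqrt d := Real.sqrt_pos.2 hd0
  have hss : Real.sqrt d * Real.sqrt d = d := Real.mul_self_sqrt hd0.le
  have hR1 := S.R1
  have hR0 : 0 < R := by linarith
  have hQ1 : 1 ≤ qq d := Real.one_le_rpow hdr (by norm_num)
  have hν0 : 0 < nuF X u := lt_of_lt_of_le (by positivity) (G.lo u hu)
  have hνR := G.hi u hu
  obtain ⟨tc, htc0, htc1, hz, hmin⟩ := deepA G S hu h0 h1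
  obtain ⟨lam, hl, hc, hwd⟩ := isU_chart hu tc
  obtain ⟨hJ, -, hf2⟩ := deepB G S hu hl hc hz
  have hlam1 : ‖lam‖ ^ 2 ≤ 1 := by nlinarith [sq_nonneg ‖lam‖, sq_nonneg ‖tc‖, mul_nonneg (sq_nonneg ‖lam‖) (sq_nonneg ‖tc‖)]
  have hlam : ‖lam‖ ≤ 1 := by
    by_contra hcon
    rw [not_le] at hcon
    nlinarith
  -- size of tc
  have hr : ‖tc‖ * (16 * R * Real.sqrt d) ≤ nuF X u := by
    have h2 : nuF X u / (16 * R * Real.sqrt d * qq d ^ 2) ≤ nuF X u / (16 * R * Real.sqrt d) := by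
      apply div_le_div_of_nonneg_left hν0.le (by positivity)
      have : (1 : ℝ) ≤ qq d ^ 2 := one_le_pow₀ hQ1
      exact le_mul_of_one_le_right (by positivity) this
    have h3 := htc1.le.trans h2
    rwa [le_div_iff₀ (by positivity)] at h3
  have hrs : ‖tc‖ * Real.sqrt d * 16 ≤ 1 := by
    by_contra hcon
    rw [not_le] at hcon
    nlinarith
  have hdiff : ∀ t : ℂ, ‖t‖ ≤ ‖tc‖ →
      Real.sqrt (n2 (FF X (u + t • pp u) - FF X u)) ≤ 1 / 4 * nuF X u := by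
    intro t ht
    have h2 : ‖t‖ * Real.sqrt d ≤ ‖tc‖ * Real.sqrt d := mul_le_mul_of_nonneg_right ht hsd.le
    refine (bndD hd1 hR0.le G.hi hu (by nlinarith [norm_nonneg t])).trans ?_
    have h3 : R * (‖t‖ * Real.sqrt d) ≤ R * (‖tc‖ * Real.sqrt d) := mul_le_mul_of_nonneg_left h2 hR0.le
    nlinarith
  have hν' : 3 / 4 * nuF X u ≤ nuF X (u + tc • pp u) := by
    have := (nu_near (hdiff tc le_rfl)).1
    linarith
  have hν'0 : 0 < nuF X (u + tc • pp u) := by linarith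
  have hdC : ∀ t : ℂ, ‖t‖ ≤ 2 * ‖tc‖ → ‖Wc X u t‖ ≤ 3 ^ 1000 * (‖aa X u‖ * nuF X u ^ 2) := by
    intro t ht
    have := deepC G S hu htc0 htc1 hz hmin ht
    rwa [aa_zero_chart X hν0] at this
  have hKD : KD = 6 * 3 ^ 1000 := rfl
  generalize hT : (3 : ℝ) ^ 1000 = T at *
  have hT0 : 0 < T := by rw [← hT]; positivity
  clear hT
  have ha0 := norm_nonneg (aa X u)
  refine ⟨lam • (u + tc • pp u), hc, hJ, ‖tc‖, htc0, ?_, ?_, ?_⟩
  · rw [hwd]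
    nlinarith
  · have hg := gd hd1 hu hν0 (r := ‖tc‖) (w := T * (‖aa X u‖ * nuF X u ^ 2)) (θ := 1 / 4)
      (by norm_num) hdiff (fun t ht => hdC t (by linarith [norm_nonneg tc])) (t := tc) le_rfl
    rw [← nx_chart X hl hν'0 hν0] at hg
    have h2 := le_of_mul_le_mul_right hg (mul_pos hν'0 hν0)
    refine h2.trans ?_
    have h3 : T * (‖aa X u‖ * nuF X u ^ 2) / ((1 - 1 / 4) ^ 2 * nuF X u ^ 2) * ‖tc‖ =
        16 / 9 * T * (‖aa X u‖ * ‖tc‖) := by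
      field_simp
      norm_num
    rw [h3, hKD, mul_assoc (6 * T)]
    apply mul_le_mul_of_nonneg_right _ (by positivity)
    linarith
  · have hcau : ‖deriv (Wc X u) tc‖ ≤ T * (‖aa X u‖ * nuF X u ^ 2) / ‖tc‖ := by
      refine Complex.norm_deriv_le_of_forall_mem_sphere_norm_le htc0
        (Wc_diff X u).diffContOnCl (fun z hz' => hdC z ?_)
      rw [mem_sphere_iff_norm] at hz'
      calc ‖z‖ = ‖(z - tc) + tc‖ := by rw [sub_add_cancel]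
        _ ≤ ‖z - tc‖ + ‖tc‖ := norm_add_le _ _
        _ = 2 * ‖tc‖ := by rw [hz']; ring
    have hn : nuF X u ^ 2 / 2 ≤ n2 (FF X (lam • (u + tc • pp u))) := by
      rw [← nuF_sq, nuF_smul, mul_pow, ← pow_mul, mul_comm d 2, pow_mul]
      have hb := one_add_mul_le_pow (a := ‖lam‖ ^ 2 - 1) (by nlinarith [sq_nonneg ‖lam‖]) d
      rw [add_sub_cancel] at hb
      have h4 : ‖lam‖ ^ 2 - 1 = - (‖lam‖ ^ 2 * ‖tc‖ ^ 2) := by linarith
      have h5 : (d : ℝ) * (‖lam‖ ^ 2 * ‖tc‖ ^ 2) ≤ 1 / 256 := by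
        have h6 : (‖tc‖ * Real.sqrt d) ^ 2 ≤ (1 / 16) ^ 2 :=
          pow_le_pow_left₀ (by positivity) (by linarith) 2
        have h7 : (‖tc‖ * Real.sqrt d) ^ 2 = d * ‖tc‖ ^ 2 := by
          rw [mul_pow, sq (Real.sqrt d), hss]; ring
        rw [h7] at h6
        have h8 : (d : ℝ) * (‖lam‖ ^ 2 * ‖tc‖ ^ 2) ≤ d * ‖tc‖ ^ 2 := by
          have : ‖lam‖ ^ 2 * ‖tc‖ ^ 2 ≤ 1 * ‖tc‖ ^ 2 := mul_le_mul_of_nonneg_right hlam1 (sq_nonneg _)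
          nlinarith
        nlinarith
      have h9 : (255 / 256 : ℝ) ≤ (‖lam‖ ^ 2) ^ d := by
        rw [h4] at hb
        linarith
      have h10 : (3 / 4 * nuF X u) ^ 2 ≤ nuF X (u + tc • pp u) ^ 2 :=
        pow_le_pow_left₀ (by positivity) hν' 2
      calc nuF X u ^ 2 / 2 ≤ 255 / 256 * (3 / 4 * nuF X u) ^ 2 := by nlinarith [sq_nonneg (nuF X u)]
        _ ≤ (‖lam‖ ^ 2) ^ d * nuF X (u + tc • pp u) ^ 2 :=
          mul_le_mul h9 h10 (by positivity) (by positivity)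
    have hf0 : 0 ≤ f2 X (lam • (u + tc • pp u)) := by
      unfold f2
      exact div_nonneg (norm_nonneg _) (n2_nonneg _)
    have h11 := (mul_le_mul_of_nonneg_left hn hf0).trans (hf2.trans hcau)
    rw [le_div_iff₀ htc0] at h11
    have h12 : 0 < nuF X u ^ 2 := by positivity
    have h13 : f2 X (lam • (u + tc • pp u)) * ‖tc‖ * nuF X u ^ 2 ≤ 2 * T * ‖aa X u‖ * nuF X u ^ 2 := by
      nlinarith
    have h14 := le_of_mul_le_mul_right h13 h12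
    refine h14.trans ?_
    rw [hKD]
    apply mul_le_mul_of_nonneg_right _ ha0
    linarith

end Pool.Agent.H47.SF
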