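import Pool.Agent.H70.SF.Def

/-!
SMOOTHED FATOU (MP_8f2e1c_an), pieces SF-2/3 (helper47; text in table proofs, id 287): local geometry and shallow block lemma.
Definitions over helper70's file H70/SF/Def.lean.

Part 1 (sphere): `pp u` the vector orthogonal to `u`, `nuF X u = |F(u)|`, `ch p u t = p(u + t u')` (chart), `Wc X u t = J(u + t u') / d`
(the Wronskian of the two components in the chart), `f2 X c = |Wc'(0)| / |F(c)|^2` (second derivative at a critical point),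
`qq d = d^(1/200)`, `del` the radius of the linear zone.

Part 2 (abstract): `Pa a f x k` is the product of the derivatives along the orbit, `Abs` collects the only facts about the map which
are used by the block lemma. `Sz n0 d R`: `d` is large.
-/

set_option autoImplicit false

open Finset
open Pool.H70.SF

namespace Pool.Agent.H47.SF

/-- orthogonal vector -/
noncomputable def pp (u : ℂ × ℂ) : ℂ × ℂ := (-(starRingEnd ℂ) u.2, (starRingEnd ℂ) u.1)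

/-- `|F(u)|` -/
noncomputable def nuF {d : ℕ} (X : CV d) (u : ℂ × ℂ) : ℝ := Real.sqrt (n2 (FF X u))

/-- a form in the chart centered at `u` -/
noncomputable def ch {d : ℕ} (p : Fin (d + 1) → ℂ) (u : ℂ × ℂ) (t : ℂ) : ℂ := hev p (u + t • pp u)

/-- the Wronskian in the chart centered at `u` -/
noncomputable def Wc {d : ℕ} (X : CV d) (u : ℂ × ℂ) (t : ℂ) : ℂ := JJ X (u + t • pp u) / (d : ℂ)

/-- second derivative at a critical point -/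
noncomputable def f2 {d : ℕ} (X : CV d) (c : ℂ × ℂ) : ℝ := ‖deriv (Wc X c) 0‖ / n2 (FF X c)

/-- the unit of the exponents -/
noncomputable def qq (d : ℕ) : ℝ := (d : ℝ) ^ ((1 : ℝ) / 200)

/-- the constant of the deep points -/
noncomputable def KD : ℝ := 6 * 3 ^ 1000

/-- the radius of the linear zone as a function of `|F|` and of the derivative -/
noncomputable def dl (d : ℕ) (R ν a : ℝ) : ℝ := ν / (400 * R * Real.sqrt d) * min 1 (a / Real.sqrt d)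

/-- the radius of the linear zone -/
noncomputable def del {d : ℕ} (R : ℝ) (X : CV d) (u : ℂ × ℂ) : ℝ := dl d R (nuF X u) ‖aa X u‖

/-- the hypotheses on the map (E0), (E1), (E2) of the text -/
structure Good {d : ℕ} (n0 : ℕ) (R : ℝ) (X : CV d) : Prop where
  hi : ∀ u, IsU u → nuF X u ≤ R
  lo : ∀ u, IsU u → (d : ℝ)⁻¹ ≤ nuF X u
  es : ∀ c, IsU c → JJ X c = 0 → ∃ (s : ℝ) (g h : ℕ → ℝ), 0 ≤ s ∧ (∀ l, 0 ≤ g l) ∧ (∀ l, 0 ≤ h l) ∧
    (d : ℝ) ^ (1 - s) ≤ f2 X c ∧ (∀ l ≤ n0, (d : ℝ) ^ (1 / 2 - g l) ≤ ‖al X c l‖) ∧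
    (∀ l ≤ n0, (d : ℝ) ^ (-h l) ≤ nuF X (ob X c l)) ∧
    2 * s + ∑ l ∈ range (n0 + 1), (g l + 2 * h l) ≤ 1 / 2 + 1 / 400
  nd : ∀ u, IsU u → ‖aa X u‖ < qq d ^ 3 →
    ∃ t : ℂ, ‖t‖ < nuF X u / (16 * R * Real.sqrt d * qq d ^ 2) ∧ Wc X u t = 0

/-- `d` is large: the numerical inequalities which are used -/
structure Sz (n0 d : ℕ) (R : ℝ) : Prop where
  d2 : 2 ≤ d
  R1 : 1 ≤ R
  Rq : R ^ 10 ≤ qq d
  q1 : 4 ^ 710 ≤ qq d
  q2 : 400 * R * KD ^ 2 * 8 ^ n0 ≤ qq d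
  q3 : 256 * R ^ 3 ≤ qq d
  q4 : 10 ^ 6 * Real.log d ≤ qq d
  q5 : 10 ^ 6 * R ^ 3 * KD ^ 4 ≤ qq d
  q6 : 4 ^ (n0 + 4) ≤ qq d
  qd : qq d ^ 200 = d
  qs : qq d ^ 100 = Real.sqrt d

/-! ### abstract part -/

/-- product of the derivatives along the orbit of `x` -/
noncomputable def Pa {Y : Type} (a : Y → ℝ) (f : Y → Y) (x : Y) (k : ℕ) : ℝ := ∏ l ∈ range k, a (f^[l] x)

/-- the facts on the map which are used by the block lemma: `f` the map, `a` the spherical derivative, `ν = |F|`, `D` the chordal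
distance, `Cr` the critical points, `F2` the second derivative at the critical points -/
structure Abs {Y : Type} (n0 d : ℕ) (R : ℝ) (f : Y → Y) (a ν : Y → ℝ) (D : Y → Y → ℝ) (Cr : Set Y)
    (F2 : Y → ℝ) : Prop where
  a0 : ∀ x, 0 ≤ a x
  D0 : ∀ x y, 0 ≤ D x y
  sym : ∀ x y, D x y = D y x
  tri : ∀ x y z, D x z ≤ D x y + D y z
  nu0 : ∀ x, 0 < ν x
  nuR : ∀ x, ν x ≤ R
  lin : ∀ y z, D y z ≤ dl d R (ν y) (a y) → a y / 2 ≤ a z ∧ D (f y) (f z) ≤ 2 * a y * D y z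
  deep : ∀ x, 0 < a x → a x < qq d ^ 3 →
    ∃ c ∈ Cr, ∃ r > 0, D x c ≤ r ∧ D (f x) (f c) ≤ KD * a x * r ∧ F2 c * r ≤ KD * a x
  es : ∀ c ∈ Cr, ∃ (s : ℝ) (g h : ℕ → ℝ), 0 ≤ s ∧ (∀ l, 0 ≤ g l) ∧ (∀ l, 0 ≤ h l) ∧
    (d : ℝ) ^ (1 - s) ≤ F2 c ∧ (∀ l ≤ n0, (d : ℝ) ^ (1 / 2 - g l) ≤ a (f^[l] (f c))) ∧
    (∀ l ≤ n0, (d : ℝ) ^ (-h l) ≤ ν (f^[l] (f c))) ∧
    2 * s + ∑ l ∈ range (n0 + 1), (g l + 2 * h l) ≤ 1 / 2 + 1 / 400
  cr2 : ∀ y, ∀ c ∈ Cr, D y c ≤ ν y / (32 * R * Real.sqrt d) →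
    D (f y) (f c) ≤ 256 * R ^ 2 * d * D y c ^ 2 / ν y ^ 2
  lip : ∀ y z, D y z ≤ 1 / (4 * Real.sqrt d) → a y * ν y ^ 2 ≤ 4 * R ^ 2 * a z + 64 * R ^ 2 * d * D y z

/-- what is known at a bad block: a deep point whose guide stops at once -/
structure BadP {Y : Type} (d : ℕ) (f : Y → Y) (a ν : Y → ℝ) (D : Y → Y → ℝ) (Cr : Set Y) (x : Y) : Prop where
  ax : (qq d)⁻¹ ≤ a x
  ex : ∃ c ∈ Cr, D x c ≤ qq d ^ 12 / d ∧ D (f x) (f c) ≤ qq d ^ 15 / d ∧ a (f c) ≤ qq d ^ 24 ∧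
    (qq d ^ 8)⁻¹ ≤ ν (f c) ∧ (qq d ^ 4)⁻¹ ≤ ν (f (f c)) ∧ Real.sqrt d / qq d ^ 8 ≤ a (f (f c))

end Pool.Agent.H47.SF
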