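import Pool.Agent.H47.SF.Bnd
import Pool.Agent.H47.SF.C2

/-!
# [H47 SF DPA] deep points: the zero of least modulus

NOTATION. `Q = qq d`, `ν = nuF X u`, `a = ‖aa X u‖`, `W = Wc X u`, `R0 = ν/(16 R sqrt d)`, `R2 = R0/Q`, `M = 8 R^2 sqrt d`, `μ = d^(-3/2)`, `N = 999`.
`deepA`: `G.nd` gives a zero `t` of `W` with `‖t‖ < R0/Q^2`; `W` is a polynomial function (`Wc_poly`) which is not `0` (`W 0 ≠ 0` by
`aa_zero_chart`, `0 < a` and `G.lo`), so it has finitely many zeros and one, `tc`, of least modulus; `tc ≠ 0`.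
`deepB`: `c = lam • (u + tc • pp u)` satisfies `JJ X c = 0` (`JJ_smul`, `Wc X u tc = JJ X (u + tc • pp u)/d`, `d ≠ 0`). `c2_gen` with `Wc X c 0 = 0`: `‖deriv (Wc X u) tc‖ ≥ ‖deriv (Wc X c) 0‖ = f2 X c * n2 (FF X c)` (definition of `f2`, `n2 (FF X c) ≠ 0`).
This is `≥ d^(1-s) d^(-2) ≥ d^(-3/2)` as `s ≤ 1/4 + 1/800` (`G.es`, all terms of the sum are `≥ 0`) and `nuF X c ≥ 1/d` (`G.lo`).
-/

set_option autoImplicit false

open Finset
open Pool.H70.SF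

namespace Pool.Agent.H47.SF

variable {n0 d : ℕ} {R : ℝ} {X : CV d}

private theorem dpa_nu (G : Good n0 R X) (S : Sz n0 d R) {u : ℂ × ℂ} (hu : IsU u) : 0 < nuF X u := by
  have h1 := G.lo u hu
  have h2 : (0 : ℝ) < d := by
    have := S.d2
    exact_mod_cast (by omega : 0 < d)
  exact (inv_pos.2 h2).trans_le h1

theorem deepA (G : Good n0 R X) (S : Sz n0 d R) {u : ℂ × ℂ} (hu : IsU u) (h0 : 0 < ‖aa X u‖)
    (h1 : ‖aa X u‖ < qq d ^ 3) :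
    ∃ tc : ℂ, 0 < ‖tc‖ ∧ ‖tc‖ < nuF X u / (16 * R * Real.sqrt d * qq d ^ 2) ∧ Wc X u tc = 0 ∧
      ∀ z : ℂ, Wc X u z = 0 → ‖tc‖ ≤ ‖z‖ := by
  classical
  obtain ⟨t, ht, htz⟩ := G.nd u hu h1
  obtain ⟨q, hq⟩ := Wc_poly X u
  have hnu := dpa_nu G S hu
  have hW0 : Wc X u 0 ≠ 0 := by
    rw [← norm_pos_iff, aa_zero_chart X hnu]
    positivity
  have hq0 : q ≠ 0 := by
    rintro rfl
    apply hW0
    rw [← hq 0, Polynomial.eval_zero]
  have hroot : ∀ z, Wc X u z = 0 ↔ z ∈ q.roots.toFinset := by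
    intro z
    rw [Multiset.mem_toFinset, Polynomial.mem_roots hq0, Polynomial.IsRoot.def, hq]
  obtain ⟨tc, htc, hmin⟩ := Finset.exists_min_image q.roots.toFinset (fun z => ‖z‖)
    ⟨t, (hroot t).1 htz⟩
  have htc0 : Wc X u tc = 0 := (hroot tc).2 htc
  refine ⟨tc, ?_, (hmin t ((hroot t).1 htz)).trans_lt ht, htc0, fun z hz => hmin z ((hroot z).1 hz)⟩
  rw [norm_pos_iff]
  rintro rfl
  exact hW0 htc0

theorem deepB (G : Good n0 R X) (S : Sz n0 d R) {u : ℂ × ℂ} (hu : IsU u) {lam tc : ℂ}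
    (hl : ‖lam‖ ^ 2 * (1 + ‖tc‖ ^ 2) = 1) (hc : IsU (lam • (u + tc • pp u))) (hz : Wc X u tc = 0) :
    JJ X (lam • (u + tc • pp u)) = 0 ∧ (d : ℝ) ^ (-(3 : ℝ) / 2) ≤ ‖deriv (Wc X u) tc‖ ∧
      f2 X (lam • (u + tc • pp u)) * n2 (FF X (lam • (u + tc • pp u))) ≤ ‖deriv (Wc X u) tc‖ := by
  have hd2 := S.d2
  have hd0 : (0 : ℝ) < d := by exact_mod_cast (by omega : 0 < d)
  have hd1 : (1 : ℝ) ≤ d := by exact_mod_cast (by omega : 1 ≤ d)
  have hdC : (d : ℂ) ≠ 0 := by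
    have : d ≠ 0 := by omega
    exact_mod_cast this
  have hJ0 : JJ X (u + tc • pp u) = 0 := by
    unfold Wc at hz
    rcases div_eq_zero_iff.1 hz with h | h
    · exact h
    · exact absurd h hdC
  have hJ : JJ X (lam • (u + tc • pp u)) = 0 := by
    rw [JJ_smul, hJ0, mul_zero]
  set c := lam • (u + tc • pp u) with hcdef
  have hW : Wc X c 0 = 0 := by
    unfold Wc
    rw [zero_smul, add_zero, hJ, zero_div]
  have hgen := (c2_gen hd2 X hu hl).1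
  rw [← hcdef, hW, norm_zero, mul_zero, add_zero] at hgen
  have hnu := dpa_nu G S hc
  have hn2 : 0 < n2 (FF X c) := by
    rw [← nuF_sq]
    positivity
  have hf2 : f2 X c * n2 (FF X c) = ‖deriv (Wc X c) 0‖ := by
    unfold f2
    rw [div_mul_cancel₀ _ hn2.ne']
  have h3 : f2 X c * n2 (FF X c) ≤ ‖deriv (Wc X u) tc‖ := by rw [hf2]; exact hgen
  refine ⟨hJ, ?_, h3⟩
  refine le_trans ?_ h3
  obtain ⟨s, g, h, hs, hg, hh, hf, -, -, hsum⟩ := G.es c hc hJ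
  have hsum0 : 0 ≤ ∑ l ∈ range (n0 + 1), (g l + 2 * h l) :=
    Finset.sum_nonneg fun l _ => by
      have := hg l
      have := hh l
      linarith
  have hs2 : s ≤ 1 / 2 := by linarith
  have hn : (d : ℝ) ^ (-(2 : ℝ)) ≤ n2 (FF X c) := by
    rw [← nuF_sq, Real.rpow_neg hd0.le]
    have h4 := G.lo c hc
    have h5 : ((d : ℝ) ^ (2 : ℝ))⁻¹ = ((d : ℝ)⁻¹) ^ 2 := by
      rw [Real.rpow_two, inv_pow]
    rw [h5]
    exact pow_le_pow_left₀ (by positivity) h4 2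
  calc (d : ℝ) ^ (-(3 : ℝ) / 2) ≤ (d : ℝ) ^ ((1 - s) + -(2 : ℝ)) :=
        Real.rpow_le_rpow_of_exponent_le hd1 (by linarith)
    _ = (d : ℝ) ^ (1 - s) * (d : ℝ) ^ (-(2 : ℝ)) := Real.rpow_add hd0 _ _
    _ ≤ f2 X c * n2 (FF X c) := by
        apply mul_le_mul hf hn (by positivity)
        exact le_trans (by positivity) hf

end Pool.Agent.H47.SF
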