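import Pool.Agent.H47.SF.Defs

/-!
# [H47 SF DPN] deep points: the numerical conditions of Lemma F

NOTATION. `Q = qq d`, `ν = nuF X u`, `a = ‖aa X u‖`, `W = Wc X u`, `R0 = ν/(16 R sqrt d)`, `R2 = R0/Q`, `M = 8 R^2 sqrt d`, `μ = d^(-3/2)`, `N = 999`.
PROOF. `R0 = ν/(16 R sqrt d) > 0` and `≤ 1/16` (`ν ≤ R`, `d ≥ 1`). `4 (R0/Q) < R0` as `Q > 4` (`S.q1`). `10 ρ ≤ 10 R0/Q^2 ≤ R0/Q` as `Q ≥ 10`.
`2M/R0 * (4/Q)^999 < μ`: `2M/R0 = 256 R^3 d/ν ≤ 256 R^3 d^2 ≤ Q * Q^400` (`S.q3`, `S.qd`), `μ = d^(-3/2) = Q^(-300)` (`S.qd`, rpow), `(4/Q)^999 = 4^999/Q^999`, `4^999 ≤ 4^1420 = (4^710)^2 ≤ Q^2`: `Q^401 Q^2 Q^(-999) < Q^(-300)`.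
`20 ρ/R2 ≤ 20/Q` and `log (M (2/R0)^999/μ) ≤ 2003 log d`: `M = 8 R^2 sqrt d ≤ d^2`, `2/R0 = 32 R sqrt d/ν ≤ 32 R d^(3/2) ≤ d^2` (`8 R^2, 32 R ≤ 256 R^3 ≤ Q ≤ sqrt d`), `1/μ ≤ d^2`; so the product is `≤ 20 * 2003 log d/Q ≤ 1` by `S.q4`. (The log is `≥ 0`, or use monotonicity: argument `≥ 1`; if it is negative the product is `≤ 0 ≤ 1`.)
-/

set_option autoImplicit false

open Finset

namespace Pool.Agent.H47.SF

variable {n0 d : ℕ} {R : ℝ}

/-- the numerical conditions of `fac` -/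
theorem deepN (S : Sz n0 d R) {ν ρ : ℝ} (hν : (d : ℝ)⁻¹ ≤ ν) (hνR : ν ≤ R) (hρ0 : 0 < ρ)
    (hρ : ρ < ν / (16 * R * Real.sqrt d * qq d ^ 2)) :
    0 < ν / (16 * R * Real.sqrt d) ∧ ν / (16 * R * Real.sqrt d) ≤ 1 / 2 ∧
      4 * (ν / (16 * R * Real.sqrt d) / qq d) < ν / (16 * R * Real.sqrt d) ∧
      10 * ρ ≤ ν / (16 * R * Real.sqrt d) / qq d ∧
      2 * (8 * R ^ 2 * Real.sqrt d) / (ν / (16 * R * Real.sqrt d)) *
        (4 * (ν / (16 * R * Real.sqrt d) / qq d) / (ν / (16 * R * Real.sqrt d))) ^ 999 < (d : ℝ) ^ (-(3 : ℝ) / 2) ∧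
      20 * ρ / (ν / (16 * R * Real.sqrt d) / qq d) *
        Real.log (8 * R ^ 2 * Real.sqrt d * (2 / (ν / (16 * R * Real.sqrt d))) ^ 999 / (d : ℝ) ^ (-(3 : ℝ) / 2)) ≤ 1 := by
  have hd2 := S.d2
  have hd1 : (1 : ℝ) ≤ d := by exact_mod_cast (by omega : 1 ≤ d)
  have hd0 : (0 : ℝ) < d := by linarith
  have hR1 := S.R1
  have hR0 : 0 < R := by linarith
  have hqd := S.qd
  have hqs := S.qs
  have hq1 := S.q1
  have hq3 := S.q3
  have hq4 := S.q4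
  have hmu : (d : ℝ) ^ (-(3 : ℝ) / 2) = (qq d ^ 300)⁻¹ := by
    unfold qq
    rw [← Real.rpow_natCast, ← Real.rpow_mul hd0.le, ← Real.rpow_neg hd0.le]
    norm_num
  rw [hmu, ← hqs]
  have hν0 : 0 < ν := lt_of_lt_of_le (by positivity) hν
  rw [← hqs] at hρ
  have hνd : 1 ≤ ν * qq d ^ 200 := by
    rw [hqd]
    have := mul_le_mul_of_nonneg_right hν hd0.le
    rwa [inv_mul_cancel₀ hd0.ne'] at this
  have hlog : Real.log d = 200 * Real.log (qq d) := by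
    rw [← hqd, Real.log_pow]; norm_num
  rw [hlog] at hq4
  clear hmu hqs hlog
  generalize qq d = Q at *
  have hQ4 : (16 : ℝ) ≤ Q := by
    have h : (4 : ℝ) ^ 2 ≤ 4 ^ 710 := pow_le_pow_right₀ (by norm_num) (by norm_num)
    calc (16 : ℝ) = 4 ^ 2 := by norm_num
      _ ≤ 4 ^ 710 := h
      _ ≤ Q := hq1
  have h999 : (4 : ℝ) ^ 999 ≤ Q ^ 2 := by
    calc (4 : ℝ) ^ 999 ≤ 4 ^ 1420 := pow_le_pow_right₀ (by norm_num) (by norm_num)
      _ = (4 ^ 710) ^ 2 := by rw [← pow_mul]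
      _ ≤ Q ^ 2 := pow_le_pow_left₀ (by positivity) hq1 2
  clear hq1
  have hQ0 : 0 < Q := by linarith
  have hQ1 : 1 ≤ Q := by linarith
  have hp : ∀ m n : ℕ, m ≤ n → Q ^ m ≤ Q ^ n := fun m n h => pow_le_pow_right₀ hQ1 h
  have hQ100 : 1 ≤ Q ^ 100 := one_le_pow₀ hQ1
  have hR2 : R ^ 2 ≤ R ^ 3 := pow_le_pow_right₀ hR1 (by norm_num)
  have hR13 : R ≤ R ^ 3 := by simpa using pow_le_pow_right₀ hR1 (show 1 ≤ 3 by norm_num)
  have hR3 : 0 < R ^ 3 := by positivity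
  have e1 : 0 < ν / (16 * R * Q ^ 100) := by positivity
  set R0 := ν / (16 * R * Q ^ 100) with hR0d
  have hR0inv : R0⁻¹ = 16 * R * Q ^ 100 / ν := by rw [hR0d, inv_div]
  have hνi : ν⁻¹ ≤ Q ^ 200 := by
    rw [inv_le_comm₀ hν0 (by positivity), inv_le_iff_one_le_mul₀ (by positivity)]
    exact hνd
  have hρ' : ρ < R0 / Q ^ 2 := by
    have : R0 / Q ^ 2 = ν / (16 * R * Q ^ 100 * Q ^ 2) := by rw [hR0d, div_div]
    rw [this]; exact hρ
  refine ⟨e1, ?_, ?_, ?_, ?_, ?_⟩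
  · rw [hR0d, div_le_div_iff₀ (by positivity) (by norm_num)]
    nlinarith [mul_nonneg hR0.le (sub_nonneg.2 hQ100)]
  · rw [← mul_div_assoc, div_lt_iff₀ hQ0]
    nlinarith
  · have h1 : R0 / Q ^ 2 * 10 ≤ R0 / Q := by
      rw [div_mul_eq_mul_div, div_le_div_iff₀ (by positivity) hQ0]
      nlinarith [mul_pos e1 hQ0]
    linarith
  · have h1 : 4 * (R0 / Q) / R0 = 4 / Q := by field_simp
    rw [h1, div_pow]
    have h2 : 2 * (8 * R ^ 2 * Q ^ 100) / R0 ≤ Q ^ 401 := by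
      rw [div_eq_mul_inv, hR0inv, div_eq_mul_inv]
      calc 2 * (8 * R ^ 2 * Q ^ 100) * (16 * R * Q ^ 100 * ν⁻¹)
          = (256 * R ^ 3) * (Q ^ 200 * ν⁻¹) := by ring
        _ ≤ Q * (Q ^ 200 * Q ^ 200) := by
            apply mul_le_mul hq3 _ (by positivity) hQ0.le
            exact mul_le_mul_of_nonneg_left hνi (by positivity)
        _ = Q ^ 401 := by ring
    have h3 : (4 : ℝ) ^ 999 ≤ Q ^ 2 := h999
    calc 2 * (8 * R ^ 2 * Q ^ 100) / R0 * (4 ^ 999 / Q ^ 999)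
        ≤ Q ^ 401 * (Q ^ 2 / Q ^ 999) := by
          apply mul_le_mul h2 _ (by positivity) (by positivity)
          exact div_le_div_of_nonneg_right h3 (by positivity)
      _ = (Q ^ 596)⁻¹ := by
          rw [← mul_div_assoc, ← pow_add, show (999 : ℕ) = (401 + 2) + 596 by norm_num, pow_add Q (401 + 2) 596]
          field_simp
      _ < (Q ^ 300)⁻¹ := by
          apply inv_strictAnti₀ (by positivity)
          exact pow_lt_pow_right₀ (by linarith) (by norm_num)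
  · have hlQ : 0 ≤ Real.log Q := Real.log_nonneg hQ1
    have hx : 20 * ρ / (R0 / Q) ≤ 20 / Q := by
      rw [div_le_div_iff₀ (by positivity) hQ0]
      have h1 : ρ * Q ^ 2 ≤ R0 := by
        have := hρ'.le
        rwa [le_div_iff₀ (by positivity)] at this
      have h2 : 20 * (R0 / Q) * Q = 20 * R0 := by field_simp
      have h3 : 20 * (R0 / Q) = 20 * R0 / Q := by ring
      rw [h3, le_div_iff₀ hQ0]
      nlinarith
    have hx0 : 0 ≤ 20 * ρ / (R0 / Q) := by positivity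
    have hL : Real.log (8 * R ^ 2 * Q ^ 100 * (2 / R0) ^ 999 / (Q ^ 300)⁻¹) ≤ 400000 * Real.log Q := by
      have h1 : 8 * R ^ 2 * Q ^ 100 ≤ Q ^ 101 := by
        calc 8 * R ^ 2 * Q ^ 100 ≤ Q * Q ^ 100 := by
              apply mul_le_mul_of_nonneg_right _ (by positivity)
              nlinarith
          _ = Q ^ 101 := by ring
      have h2 : 2 / R0 ≤ Q ^ 301 := by
        rw [div_eq_mul_inv, hR0inv, div_eq_mul_inv]
        calc 2 * (16 * R * Q ^ 100 * ν⁻¹) = (32 * R) * (Q ^ 100 * ν⁻¹) := by ring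
          _ ≤ Q * (Q ^ 100 * Q ^ 200) := by
              apply mul_le_mul _ _ (by positivity) hQ0.le
              · nlinarith
              · exact mul_le_mul_of_nonneg_left hνi (by positivity)
          _ = Q ^ 301 := by ring
      have h3 : (2 / R0) ^ 999 ≤ Q ^ (301 * 999) := by
        rw [pow_mul]
        exact pow_le_pow_left₀ (by positivity) h2 999
      have h4 : 8 * R ^ 2 * Q ^ 100 * (2 / R0) ^ 999 / (Q ^ 300)⁻¹ ≤ Q ^ 400000 := by
        rw [div_inv_eq_mul]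
        calc 8 * R ^ 2 * Q ^ 100 * (2 / R0) ^ 999 * Q ^ 300
            ≤ Q ^ 101 * Q ^ (301 * 999) * Q ^ 300 := by
              apply mul_le_mul_of_nonneg_right _ (by positivity)
              exact mul_le_mul h1 h3 (by positivity) (by positivity)
          _ = Q ^ (101 + 301 * 999 + 300) := by rw [← pow_add, ← pow_add]
          _ ≤ Q ^ 400000 := hp _ _ (by norm_num)
      calc Real.log (8 * R ^ 2 * Q ^ 100 * (2 / R0) ^ 999 / (Q ^ 300)⁻¹) ≤ Real.log (Q ^ 400000) :=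
            Real.log_le_log (by positivity) h4
        _ = 400000 * Real.log Q := by rw [Real.log_pow]; norm_num
    calc 20 * ρ / (R0 / Q) * Real.log (8 * R ^ 2 * Q ^ 100 * (2 / R0) ^ 999 / (Q ^ 300)⁻¹)
        ≤ 20 * ρ / (R0 / Q) * (400000 * Real.log Q) := mul_le_mul_of_nonneg_left hL hx0
      _ ≤ 20 / Q * (400000 * Real.log Q) := mul_le_mul_of_nonneg_right hx (by positivity)
      _ ≤ 1 := by
          rw [div_mul_eq_mul_div, div_le_one hQ0]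
          nlinarith

end Pool.Agent.H47.SF
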