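import Pool.Agent.H47.SF.Dpa
import Pool.Agent.H47.SF.Dpn
import Pool.Agent.H47.SF.Fac

/-!
# [H47 SF DPC] deep points: the Wronskian near the critical point

NOTATION. `Q = qq d`, `ν = nuF X u`, `a = ‖aa X u‖`, `W = Wc X u`, `R0 = ν/(16 R sqrt d)`, `R2 = R0/Q`, `M = 8 R^2 sqrt d`, `μ = d^(-3/2)`, `N = 999`.
PROOF. `fac` for the polynomial `q` of `Wc_poly X u` (`q.eval = Wc X u`, so `(derivative q).eval = deriv (Wc X u)`), `c = tc`, `ρ = ‖tc‖`, `R0, R2, M, μ, N` as above, conditions from `deepN`; `‖W t‖ ≤ M` on `‖t‖ ≤ R0`: `bndW` (`2 R0 sqrt d = ν/(8R) ≤ 1`);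
`μ ≤ ‖deriv (Wc X u) tc‖`: `deepB` with `lam` from `isU_chart`. Result: `‖W t‖ ≤ 3^999 exp(x) ‖W 0‖`, `x ≤ 1`, `exp 1 ≤ 3`.
-/

set_option autoImplicit false

open Finset
open Pool.H70.SF

namespace Pool.Agent.H47.SF

variable {n0 d : ℕ} {R : ℝ} {X : CV d}

theorem deepC (G : Good n0 R X) (S : Sz n0 d R) {u : ℂ × ℂ} (hu : IsU u) {tc : ℂ} (h0 : 0 < ‖tc‖)
    (h1 : ‖tc‖ < nuF X u / (16 * R * Real.sqrt d * qq d ^ 2)) (hz : Wc X u tc = 0)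
    (hmin : ∀ z : ℂ, Wc X u z = 0 → ‖tc‖ ≤ ‖z‖) {t : ℂ} (ht : ‖t‖ ≤ 2 * ‖tc‖) :
    ‖Wc X u t‖ ≤ 3 ^ 1000 * ‖Wc X u 0‖ := by
  have hd1 : 1 ≤ d := by have := S.d2; omega
  have hd0 : (0 : ℝ) < d := by exact_mod_cast hd1
  have hsd : 0 < Real.sqrt d := Real.sqrt_pos.2 hd0
  have hR1 := S.R1
  have hR0' : 0 < R := by linarith
  have hqq : 0 < qq d := by unfold qq; positivity
  obtain ⟨n1, n2, n3, n4, n5, n6⟩ := deepN S (G.lo u hu) (G.hi u hu) h0 h1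
  obtain ⟨q, hq⟩ := Wc_poly X u
  have hqe : (fun z => q.eval z) = Wc X u := funext hq
  have hder : ∀ z, (Polynomial.derivative q).eval z = deriv (Wc X u) z := by
    intro z
    rw [← hqe, Polynomial.deriv]
  have hM : ∀ z : ℂ, ‖z‖ ≤ nuF X u / (16 * R * Real.sqrt d) →
      ‖q.eval z‖ ≤ 8 * R ^ 2 * Real.sqrt d := by
    intro z hz'
    rw [hq]
    refine bndW hd1 hR0'.le G.hi hu ?_
    rw [le_div_iff₀ (by positivity)] at hz'
    have h2 := G.hi u hu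
    have h3 : 0 ≤ ‖z‖ * Real.sqrt d := by positivity
    have h4 : ‖z‖ * Real.sqrt d * (16 * R) ≤ R := by nlinarith
    have h5 : ‖z‖ * Real.sqrt d * 16 ≤ 1 := by
      by_contra hcon
      rw [not_le] at hcon
      nlinarith
    nlinarith
  obtain ⟨lam, hl, hlc, -⟩ := isU_chart hu tc
  have hB := (deepB G S hu hl hlc hz).2.1
  have hF := fac (W := q) (R0 := nuF X u / (16 * R * Real.sqrt d))
    (R2 := nuF X u / (16 * R * Real.sqrt d) / qq d) (M := 8 * R ^ 2 * Real.sqrt d)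
    (μ := (d : ℝ) ^ (-(3 : ℝ) / 2)) (ρ := ‖tc‖) (c := tc) n1 n2 (div_pos n1 hqq) n3 hM
    (by rw [hq]; exact hz) rfl h0 (fun z hz' => hmin z (by rw [← hq]; exact hz')) n4
    (by positivity) (by rw [hder]; exact hB) (N := 999) n5 ht
  rw [hq, hq] at hF
  refine hF.trans ?_
  have hexp : Real.exp (20 * ‖tc‖ / (nuF X u / (16 * R * Real.sqrt d) / qq d) *
      Real.log (8 * R ^ 2 * Real.sqrt d * (2 / (nuF X u / (16 * R * Real.sqrt d))) ^ 999 /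
        (d : ℝ) ^ (-(3 : ℝ) / 2))) ≤ 3 := by
    refine (Real.exp_le_exp.2 n6).trans ?_
    have := Real.exp_one_lt_d9
    linarith
  apply mul_le_mul_of_nonneg_right _ (norm_nonneg _)
  calc (3 : ℝ) ^ 999 * _ ≤ 3 ^ 999 * 3 := mul_le_mul_of_nonneg_left hexp (by positivity)
    _ = 3 ^ 1000 := (pow_succ (3 : ℝ) 999).symm

end Pool.Agent.H47.SF
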