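import Pool.Agent.H47.SF.Bc

/-!
# [H47 SF FAA] splitting off the zeros of a polynomial in a disc

PROOF. `Z = W.roots.filter (‖.‖ ≤ R2)`; `W = C (leadingCoeff) * (W.roots.map (X - C ·)).prod` (algebraically closed: `Polynomial.Splits`, `IsAlgClosed.splits`, `Polynomial.eq_prod_roots_of_splits_id`), the product splits as (filter) * (filter not) (`Multiset.filter_add_not`);
`E = C (leadingCoeff) * ((W.roots.filter (¬ ‖.‖ ≤ R2)).map (X - C ·)).prod` has only the roots with `‖.‖ > R2` (`Polynomial.eval_multiset_prod`, `Multiset.prod_eq_zero_iff`).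
-/

set_option autoImplicit false

open Polynomial Metric

namespace Pool.Agent.H47.SF

/-- splitting off the zeros in a disc -/
theorem facA {W : Polynomial ℂ} (hW : W ≠ 0) (R2 : ℝ) :
    ∃ (Z : Multiset ℂ) (E : Polynomial ℂ), W = (Z.map fun z => X - C z).prod * E ∧ (∀ z ∈ Z, ‖z‖ ≤ R2) ∧
      (∀ z ∈ Z, W.eval z = 0) ∧ (∀ t : ℂ, ‖t‖ ≤ R2 → E.eval t ≠ 0) := by
  classical
  have hsp : W.Splits := IsAlgClosed.splits W
  have hprod : W = C W.leadingCoeff * (W.roots.map (X - C ·)).prod := hsp.eq_prod_roots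
  have hfil : (W.roots.map (X - C ·)).prod =
      ((W.roots.filter (fun z => ‖z‖ ≤ R2)).map (X - C ·)).prod *
        ((W.roots.filter (fun z => ¬ ‖z‖ ≤ R2)).map (X - C ·)).prod := by
    rw [← Multiset.prod_add, ← Multiset.map_add, Multiset.filter_add_not]
  refine ⟨W.roots.filter (fun z => ‖z‖ ≤ R2),
    C W.leadingCoeff * ((W.roots.filter (fun z => ¬ ‖z‖ ≤ R2)).map (X - C ·)).prod, ?_, ?_, ?_, ?_⟩
  · conv_lhs => rw [hprod, hfil]
    ring
  · intro z hz
    exact (Multiset.mem_filter.1 hz).2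
  · intro z hz
    exact (mem_roots hW).1 (Multiset.mem_filter.1 hz).1
  · intro t ht h0
    rw [eval_mul, eval_C, mul_eq_zero] at h0
    rcases h0 with h0 | h0
    · exact hW (leadingCoeff_eq_zero.1 h0)
    · rw [eval_multiset_prod, Multiset.map_map, Multiset.prod_eq_zero_iff] at h0
      obtain ⟨z, hz, hz0⟩ := Multiset.mem_map.1 h0
      have hz1 : t - z = 0 := by simpa using hz0
      have hz2 : t = z := sub_eq_zero.1 hz1
      subst hz2
      exact (Multiset.mem_filter.1 hz).2 ht

end Pool.Agent.H47.SF
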