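import Pool.Agent.H47.SF.Faa

/-!
# [H47 SF FAB] the zero free part and the number of zeros (Lemma F, first half)

PROOF. `n = card Z`. (a) On `‖t‖ = R0`: `‖t - z‖ ≥ R0 - R2 ≥ R0/2` for `z ∈ Z`, so `‖E t‖ ≤ M (2/R0)^n`; by the maximum principle (`Complex.norm_le_of_forall_mem_frontier_norm_le`) on `‖t‖ ≤ R0`.
(b) `c ∈ Z` (`W c = 0` and `E c ≠ 0`), `W = (X - C c) G`, `W'(c) = G(c) = (∏_(z ∈ Z.erase c) (c - z)) E(c)`, `‖c - z‖ ≤ 2 R2`: `μ ≤ (2 R2)^(n-1) ‖E c‖ ≤ (2 R2)^(n-1) M (2/R0)^n =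
(2M/R0) (4R2/R0)^(n-1)`. As `(2M/R0)(4R2/R0)^N < μ` and `0 < 4R2/R0 < 1` we get `n - 1 < N`, `n ≤ N`. Also `2 R2 ≤ 1`, so `μ ≤ ‖E c‖`; `2/R0 ≥ 1` and `M ≥ 0` give `M (2/R0)^n ≤ M (2/R0)^N`.
-/

set_option autoImplicit false

open Polynomial Metric

namespace Pool.Agent.H47.SF

private theorem prod_ge {Z : Multiset ℂ} {t : ℂ} {m : ℝ} (hm : 0 ≤ m) (h : ∀ z ∈ Z, m ≤ ‖t - z‖) :
    m ^ Multiset.card Z ≤ ‖((Z.map fun z => X - C z).prod).eval t‖ := by
  induction Z using Multiset.induction_on with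
  | empty => simp
  | cons a s ih =>
    rw [Multiset.card_cons, pow_succ, Multiset.map_cons, Multiset.prod_cons, eval_mul, norm_mul, mul_comm]
    have h1 := ih (fun z hz => h z (Multiset.mem_cons_of_mem hz))
    have h2 := h a (Multiset.mem_cons_self a s)
    have h3 : ‖(X - C a : Polynomial ℂ).eval t‖ = ‖t - a‖ := by simp
    rw [h3]
    exact mul_le_mul h2 h1 (by positivity) (norm_nonneg _)

private theorem prod_le {Z : Multiset ℂ} {t : ℂ} {m : ℝ} (h : ∀ z ∈ Z, ‖t - z‖ ≤ m) :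
    ‖((Z.map fun z => X - C z).prod).eval t‖ ≤ m ^ Multiset.card Z := by
  induction Z using Multiset.induction_on with
  | empty => simp
  | cons a s ih =>
    rw [Multiset.card_cons, pow_succ, Multiset.map_cons, Multiset.prod_cons, eval_mul, norm_mul,
      mul_comm (m ^ _) m]
    have h1 := ih (fun z hz => h z (Multiset.mem_cons_of_mem hz))
    have h2 := h a (Multiset.mem_cons_self a s)
    have h3 : ‖(X - C a : Polynomial ℂ).eval t‖ = ‖t - a‖ := by simp
    rw [h3]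
    exact mul_le_mul h2 h1 (norm_nonneg _) ((norm_nonneg _).trans h2)

/-- bounds for the zero free part and the number of zeros -/
theorem facB {W : Polynomial ℂ} {R0 R2 M μ : ℝ} {c : ℂ} (hR0 : 0 < R0) (hR0' : R0 ≤ 1 / 2) (hR2 : 0 < R2)
    (h4 : 4 * R2 < R0) (hM : ∀ t : ℂ, ‖t‖ ≤ R0 → ‖W.eval t‖ ≤ M) (hc : W.eval c = 0) (hcR : ‖c‖ ≤ R2)
    (hμ0 : 0 < μ) (hμ : μ ≤ ‖(derivative W).eval c‖) {N : ℕ} (hN : 2 * M / R0 * (4 * R2 / R0) ^ N < μ)
    {Z : Multiset ℂ} {E : Polynomial ℂ} (hE : W = (Z.map fun z => X - C z).prod * E)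
    (hZ : ∀ z ∈ Z, ‖z‖ ≤ R2) (hEn : ∀ t : ℂ, ‖t‖ ≤ R2 → E.eval t ≠ 0) :
    Multiset.card Z ≤ N ∧ (∀ t : ℂ, ‖t‖ ≤ R0 → ‖E.eval t‖ ≤ M * (2 / R0) ^ N) ∧ μ ≤ ‖E.eval c‖ := by
  classical
  have hM0 : 0 ≤ M := (norm_nonneg _).trans (hM 0 (by simpa using hR0.le))
  set n := Multiset.card Z with hn
  -- (a) the bound on the disc
  have hEb : ∀ t : ℂ, ‖t‖ ≤ R0 → ‖E.eval t‖ ≤ M * (2 / R0) ^ n := by
    have hfr : ∀ z ∈ frontier (ball (0 : ℂ) R0), ‖E.eval z‖ ≤ M * (2 / R0) ^ n := by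
      intro z hz
      rw [frontier_ball (0 : ℂ) hR0.ne'] at hz
      have hz' : ‖z‖ = R0 := by simpa using hz
      have h1 : (R0 / 2) ^ n ≤ ‖((Z.map fun z => X - C z).prod).eval z‖ := by
        refine prod_ge (by positivity) (fun w hw => ?_)
        have h2 := hZ w hw
        have h3 : ‖z‖ - ‖w‖ ≤ ‖z - w‖ := norm_sub_norm_le z w
        rw [hz'] at h3
        linarith
      have h4 : ‖W.eval z‖ ≤ M := hM z hz'.le
      rw [hE, eval_mul, norm_mul] at h4
      have h5 : (R0 / 2) ^ n * ‖E.eval z‖ ≤ M :=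
        (mul_le_mul_of_nonneg_right h1 (norm_nonneg _)).trans h4
      have h6 : (2 / R0) ^ n * (R0 / 2) ^ n = 1 := by
        rw [← mul_pow]
        have : 2 / R0 * (R0 / 2) = 1 := by field_simp
        rw [this, one_pow]
      have h7 : 0 < (2 / R0) ^ n := by positivity
      calc ‖E.eval z‖ = (2 / R0) ^ n * ((R0 / 2) ^ n * ‖E.eval z‖) := by
            rw [← mul_assoc, h6, one_mul]
        _ ≤ (2 / R0) ^ n * M := mul_le_mul_of_nonneg_left h5 h7.le
        _ = M * (2 / R0) ^ n := mul_comm _ _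
    intro t ht
    have hd : DiffContOnCl ℂ (fun z : ℂ => E.eval z) (ball (0 : ℂ) R0) :=
      E.differentiable.diffContOnCl
    refine Complex.norm_le_of_forall_mem_frontier_norm_le (f := fun z : ℂ => E.eval z) isBounded_ball hd hfr ?_
    rw [closure_ball (0 : ℂ) hR0.ne']
    simpa using ht
  -- (b) c is in Z
  have hcZ : c ∈ Z := by
    have h1 : ((Z.map fun z => X - C z).prod * E).eval c = 0 := by rw [← hE]; exact hc
    rw [eval_mul, mul_eq_zero] at h1
    rcases h1 with h1 | h1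
    · rw [eval_multiset_prod, Multiset.prod_eq_zero_iff, Multiset.map_map, Multiset.mem_map] at h1
      obtain ⟨z, hz, hz2⟩ := h1
      simp only [Function.comp_apply, eval_sub, eval_X, eval_C] at hz2
      rw [sub_eq_zero.1 hz2]; exact hz
    · exact absurd h1 (hEn c hcR)
  obtain ⟨Z', hZ'⟩ := Multiset.exists_cons_of_mem hcZ
  have hn' : n = Multiset.card Z' + 1 := by rw [hn, hZ', Multiset.card_cons]
  have hder : (derivative W).eval c = ((Z'.map fun z => X - C z).prod).eval c * E.eval c := by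
    have hW : W = (X - C c) * ((Z'.map fun z => X - C z).prod * E) := by
      rw [hE, hZ', Multiset.map_cons, Multiset.prod_cons, mul_assoc]
    rw [hW, derivative_mul]
    simp
  have hle : ‖((Z'.map fun z => X - C z).prod).eval c‖ ≤ (2 * R2) ^ Multiset.card Z' := by
    refine prod_le (fun z hz => ?_)
    have h1 := hZ z (by rw [hZ']; exact Multiset.mem_cons_of_mem hz)
    calc ‖c - z‖ ≤ ‖c‖ + ‖z‖ := norm_sub_le c z
      _ ≤ 2 * R2 := by linarith
  have hkey : μ ≤ (2 * R2) ^ Multiset.card Z' * ‖E.eval c‖ := by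
    rw [hder, norm_mul] at hμ
    exact hμ.trans (mul_le_mul_of_nonneg_right hle (norm_nonneg _))
  have hEc : ‖E.eval c‖ ≤ M * (2 / R0) ^ n := hEb c (by linarith)
  have hnN : n ≤ N := by
    by_contra hcon
    rw [not_le] at hcon
    have hN' : N ≤ Multiset.card Z' := by omega
    have h1 : μ ≤ (2 * R2) ^ Multiset.card Z' * (M * (2 / R0) ^ n) :=
      hkey.trans (mul_le_mul_of_nonneg_left hEc (by positivity))
    have h2 : (2 * R2) ^ Multiset.card Z' * (M * (2 / R0) ^ n) =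
        2 * M / R0 * (4 * R2 / R0) ^ Multiset.card Z' := by
      rw [hn', pow_succ, show 4 * R2 / R0 = (2 * R2) * (2 / R0) by ring, mul_pow (2 * R2) (2 / R0)]
      generalize (2 * R2) ^ Multiset.card Z' = A
      generalize (2 / R0) ^ Multiset.card Z' = B
      ring
    have h3 : (4 * R2 / R0) ^ Multiset.card Z' ≤ (4 * R2 / R0) ^ N :=
      pow_le_pow_of_le_one (by positivity) (by rw [div_le_one hR0]; exact h4.le) hN'
    have h4 : 2 * M / R0 * (4 * R2 / R0) ^ Multiset.card Z' ≤ 2 * M / R0 * (4 * R2 / R0) ^ N :=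
      mul_le_mul_of_nonneg_left h3 (by positivity)
    linarith
  refine ⟨hnN, fun t ht => ?_, ?_⟩
  · refine (hEb t ht).trans (mul_le_mul_of_nonneg_left ?_ hM0)
    exact pow_le_pow_right₀ (by rw [le_div_iff₀ hR0]; linarith) hnN
  · refine hkey.trans ?_
    have h1 : (2 * R2) ^ Multiset.card Z' ≤ 1 := pow_le_one₀ (by positivity) (by linarith)
    calc (2 * R2) ^ Multiset.card Z' * ‖E.eval c‖ ≤ 1 * ‖E.eval c‖ :=
          mul_le_mul_of_nonneg_right h1 (norm_nonneg _)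
      _ = ‖E.eval c‖ := one_mul _

end Pool.Agent.H47.SF
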