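import Pool.Agent.H47.SF.Sph
import Pool.Agent.H47.SF.Sze
import Pool.Agent.H47.SF.H4

/-!
# [H47 SF FIN] H4 and GB for the map on unit vectors

PROOFS. `h4`, `gb` for the instance `abs_of_good`, points `⟨x, hx⟩`; `fS_iter` identifies the orbit with `(nx X)^[l] x` and `Pa` of the instance with
`Pa (fun u => ‖aa X u‖) (nx X) x`.
-/

set_option autoImplicit false

open Finset
open Pool.H70.SF

namespace Pool.Agent.H47.SF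

theorem Pa_fS {d : ℕ} (hd : 1 ≤ d) {X : CV d} (lo : ∀ u, IsU u → (d : ℝ)⁻¹ ≤ nuF X u)
    (u : {u : ℂ × ℂ // IsU u}) (k : ℕ) :
    Pa (fun u : {u : ℂ × ℂ // IsU u} => ‖aa X u‖) (fS X) u k = Pa (fun u => ‖aa X u‖) (nx X) (u : ℂ × ℂ) k := by
  simp only [Pa, fS_iter hd lo]

/-- condition H4: every point gains `Q^2` within `n0 + 2` steps or meets a very deep point with a bounded loss -/
theorem H4 {n0 d : ℕ} {R : ℝ} {X : CV d} (G : Good n0 R X) (S : Sz n0 d R) {C0 : ℕ} (hC : 1 ≤ C0)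
    (hn : 4 * C0 + 8 ≤ n0) {x : ℂ × ℂ} (hx : IsU x) (ha : ((d : ℝ) ^ C0)⁻¹ ≤ ‖aa X x‖) :
    ∃ m, 1 ≤ m ∧ m ≤ n0 + 2 ∧ (∀ l < m, ((d : ℝ) ^ C0)⁻¹ ≤ ‖aa X ((nx X)^[l] x)‖) ∧
      (∀ l ≤ m, ((d : ℝ) ^ C0)⁻¹ * (qq d ^ 2)⁻¹ ≤ Pa (fun u => ‖aa X u‖) (nx X) x l) ∧
      (qq d ^ 2 ≤ Pa (fun u => ‖aa X u‖) (nx X) x m ∨
        (qq d)⁻¹ ≤ Pa (fun u => ‖aa X u‖) (nx X) x m ∧ ‖aa X ((nx X)^[m] x)‖ < ((d : ℝ) ^ C0)⁻¹) := by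
  have hd : 1 ≤ d := by have := S.d2; omega
  have h := h4 (abs_of_good G S) S hC hn (x := ⟨x, hx⟩) ha
  simpa only [Pa_fS hd G.lo, fS_iter hd G.lo] using h

theorem GB {n0 d : ℕ} {R : ℝ} {X : CV d} (G : Good n0 R X) (S : Sz n0 d R) {C0 : ℕ} (hC : 1 ≤ C0)
    (hn : 4 * C0 + 8 ≤ n0) {x : ℂ × ℂ} (hx : IsU x) {m : ℕ}
    (ha : ∀ l < m, ((d : ℝ) ^ C0)⁻¹ ≤ ‖aa X ((nx X)^[l] x)‖) :
    ((d : ℝ) ^ C0)⁻¹ * (qq d ^ 3)⁻¹ * 2 ^ m ≤ Pa (fun u => ‖aa X u‖) (nx X) x m ∧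
      (‖aa X ((nx X)^[m] x)‖ < ((d : ℝ) ^ C0)⁻¹ →
        (qq d ^ 2)⁻¹ * 2 ^ m ≤ Pa (fun u => ‖aa X u‖) (nx X) x m) := by
  have hd : 1 ≤ d := by have := S.d2; omega
  have h := gb (abs_of_good G S) S hC hn m ⟨x, hx⟩
  simp only [Pa_fS hd G.lo, fS_iter hd G.lo] at h
  exact h ha

end Pool.Agent.H47.SF
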