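import Pool.Agent.H47.SF.Shd

/-!
# [H47 SF GDE] estimates along a guide

PROOFS. `guide_prod`: induction on `m`: `Pa (m+1) = Pa m * a (y_m) ≥ d^(m/2 - S_m) d^(1/2 - g_m)`, `Real.rpow_add`.
`sum_le`: from `2 s + ∑ (g l + 2 h l) ≤ 1/2 + 1/400`, all terms `≥ 0`, for `p ≤ n0`: `s + h p + ∑_(l ≤ p) g l ≤ 1/2 + 1/400`, since `h p ≤ ∑_(l ≤ n0) 2 h l`.
`dl_ge`: `dl d R ν a = ν/(400 R sqrt d) min 1 (a/sqrt d) ≥ d^(-h) d^(-1/2) d^(-g) / (400 R)`: `a / sqrt d ≥ d^(-g)`, `1 ≥ d^(-g)`.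
-/

set_option autoImplicit false

open Finset

namespace Pool.Agent.H47.SF

variable {Y : Type} {n0 d : ℕ} {R : ℝ}

theorem guide_prod {a : Y → ℝ} {f : Y → Y} (ha : ∀ x, 0 ≤ a x) (hd : 1 ≤ d) {y : Y} {g : ℕ → ℝ} {N : ℕ}
    (h : ∀ l < N, (d : ℝ) ^ (1 / 2 - g l) ≤ a (f^[l] y)) :
    ∀ m ≤ N, (d : ℝ) ^ ((m : ℝ) / 2 - ∑ l ∈ range m, g l) ≤ Pa a f y m := by
  have hd0 : (0 : ℝ) < d := by exact_mod_cast hd
  intro m
  induction m with
  | zero =>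
    intro _
    unfold Pa
    simp
  | succ m ih =>
    intro hm
    have h1 := ih (by omega)
    have h2 := h m (by omega)
    have h3 : Pa a f y (m + 1) = Pa a f y m * a (f^[m] y) := by
      unfold Pa
      rw [Finset.prod_range_succ]
    rw [h3]
    have h4 : (d : ℝ) ^ (((m + 1 : ℕ) : ℝ) / 2 - ∑ l ∈ range (m + 1), g l) =
        (d : ℝ) ^ ((m : ℝ) / 2 - ∑ l ∈ range m, g l) * (d : ℝ) ^ (1 / 2 - g m) := by
      rw [← Real.rpow_add hd0, Finset.sum_range_succ]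
      congr 1
      push_cast
      ring
    rw [h4]
    have h5 : 0 ≤ Pa a f y m := Finset.prod_nonneg fun l _ => ha _
    exact mul_le_mul h1 h2 (Real.rpow_nonneg hd0.le _) h5

theorem sum_le {s : ℝ} {g h : ℕ → ℝ} (hs : 0 ≤ s) (hg : ∀ l, 0 ≤ g l) (hh : ∀ l, 0 ≤ h l)
    (hsum : 2 * s + ∑ l ∈ range (n0 + 1), (g l + 2 * h l) ≤ 1 / 2 + 1 / 400) {p : ℕ} (hp : p ≤ n0) :
    s + h p + g p + ∑ l ∈ range p, g l ≤ 1 / 2 + 1 / 400 := by
  have h1 : g p + ∑ l ∈ range p, g l ≤ ∑ l ∈ range (n0 + 1), g l := by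
    rw [add_comm, ← Finset.sum_range_succ]
    apply Finset.sum_le_sum_of_subset_of_nonneg
    · intro l hl
      rw [Finset.mem_range] at hl ⊢
      omega
    · intro l _ _
      exact hg l
  have h2 : h p ≤ ∑ l ∈ range (n0 + 1), h l :=
    Finset.single_le_sum (fun l _ => hh l) (Finset.mem_range.2 (by omega))
  have h3 : 0 ≤ ∑ l ∈ range (n0 + 1), h l := Finset.sum_nonneg fun l _ => hh l
  rw [Finset.sum_add_distrib, ← Finset.mul_sum] at hsum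
  linarith

theorem dl_ge (hd : 1 ≤ d) (hR : 1 ≤ R) {ν a g h : ℝ} (hν : (d : ℝ) ^ (-h) ≤ ν)
    (ha : (d : ℝ) ^ (1 / 2 - g) ≤ a) (hg : 0 ≤ g) :
    (d : ℝ) ^ (-h - 1 / 2 - g) / (400 * R) ≤ dl d R ν a := by
  have hd0 : (0 : ℝ) < d := by exact_mod_cast hd
  have hd1 : (1 : ℝ) ≤ d := by exact_mod_cast hd
  have hR0 : 0 < R := by linarith
  have hsd : 0 < Real.sqrt d := Real.sqrt_pos.2 hd0
  have hmin : (d : ℝ) ^ (-g) ≤ min 1 (a / Real.sqrt d) := by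
    apply le_min
    · have := Real.rpow_le_rpow_of_exponent_le hd1 (show -g ≤ 0 by linarith)
      rwa [Real.rpow_zero] at this
    · rw [le_div_iff₀ hsd]
      refine le_trans (le_of_eq ?_) ha
      rw [Real.sqrt_eq_rpow, ← Real.rpow_add hd0]
      congr 1
      ring
  unfold dl
  have h1 : (d : ℝ) ^ (-h - 1 / 2 - g) / (400 * R) =
      (d : ℝ) ^ (-h) / (400 * R * Real.sqrt d) * (d : ℝ) ^ (-g) := by
    have h2 : (d : ℝ) ^ (-h - 1 / 2 - g) * Real.sqrt d = (d : ℝ) ^ (-h) * (d : ℝ) ^ (-g) := by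
      rw [Real.sqrt_eq_rpow, ← Real.rpow_add hd0, ← Real.rpow_add hd0]
      congr 1
      ring
    rw [div_mul_eq_mul_div, ← h2]
    field_simp
  rw [h1]
  apply mul_le_mul _ hmin (Real.rpow_nonneg hd0.le _) _
  · exact div_le_div_of_nonneg_right hν (by positivity)
  · have : 0 ≤ ν := (Real.rpow_nonneg hd0.le _).trans hν
    positivity

end Pool.Agent.H47.SF
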