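import Pool.Agent.H47.SF.Defs

/-!
# [H47 SF HOM] homogeneity, Euler's identity, the Jacobian

PROOFS. All sums over `Fin (d + 1)`. `hev_smul`: `(lam u1)^k (lam u2)^(d-k) = lam^d u1^k u2^(d-k)` as `k ≤ d`. `hev1_smul`: for `k = 0` the
term is `0`; for `k ≥ 1` `(k - 1) + (d - k) = d - 1`. `hev2_smul`: the term with `k = d` is `0` because of the factor `d - k`, otherwise
`k + (d - k - 1) = d - 1`. `JJ_smul`: product of the two. `euler`: `k u1^(k-1) u1 = k u1^k`, `(d-k) u2^(d-k-1) u2 = (d-k) u2^(d-k)`, the sum of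
the coefficients is `k + (d - k) = d`. `jac`: replace `d * hev X.1 w` and `d * hev X.2 w` by `euler`, then `ring`.
`wd_cs` (Cauchy-Schwarz): `|a1 b2 - a2 b1| ≤ |a1||b2| + |a2||b1|`, square, `(xy' + x'y)^2 ≤ (x^2 + x'^2)(y^2 + y'^2)`.
-/

set_option autoImplicit false

open Finset
open Pool.H70.SF

namespace Pool.Agent.H47.SF

theorem n2_nonneg (u : ℂ × ℂ) : 0 ≤ n2 u := by unfold n2; positivity

theorem n2_smul (lam : ℂ) (u : ℂ × ℂ) : n2 (lam • u) = ‖lam‖ ^ 2 * n2 u := by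
  simp [n2, mul_pow]; ring

theorem hev_smul {d : ℕ} (p : Fin (d + 1) → ℂ) (lam : ℂ) (u : ℂ × ℂ) :
    hev p (lam • u) = lam ^ d * hev p u := by
  unfold hev
  rw [mul_sum]
  refine sum_congr rfl fun k _ => ?_
  have hk : (k : ℕ) + (d - k) = d := Nat.add_sub_cancel' (Nat.lt_succ_iff.1 k.2)
  have h1 : lam ^ d = lam ^ (k : ℕ) * lam ^ (d - k) := by rw [← pow_add, hk]
  rw [h1]
  simp only [Prod.smul_fst, Prod.smul_snd, smul_eq_mul, mul_pow]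
  ring

theorem FF_smul {d : ℕ} (X : CV d) (lam : ℂ) (u : ℂ × ℂ) : FF X (lam • u) = lam ^ d • FF X u := by
  simp [FF, hev_smul]

theorem hev1_smul {d : ℕ} (p : Fin (d + 1) → ℂ) (lam : ℂ) (u : ℂ × ℂ) :
    hev1 p (lam • u) = lam ^ (d - 1) * hev1 p u := by
  unfold hev1
  rw [mul_sum]
  refine sum_congr rfl fun k _ => ?_
  have hk : (k : ℕ) + (d - k) = d := Nat.add_sub_cancel' (Nat.lt_succ_iff.1 k.2)
  rcases Nat.eq_zero_or_pos (k : ℕ) with h0 | h0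
  · rw [h0]; simp
  · have h1 : lam ^ (d - 1) = lam ^ ((k : ℕ) - 1) * lam ^ (d - k) := by
      rw [← pow_add]
      congr 1
      omega
    rw [h1]
    simp only [Prod.smul_fst, Prod.smul_snd, smul_eq_mul, mul_pow]
    ring

theorem hev2_smul {d : ℕ} (p : Fin (d + 1) → ℂ) (lam : ℂ) (u : ℂ × ℂ) :
    hev2 p (lam • u) = lam ^ (d - 1) * hev2 p u := by
  unfold hev2
  rw [mul_sum]
  refine sum_congr rfl fun k _ => ?_
  have hk : (k : ℕ) + (d - k) = d := Nat.add_sub_cancel' (Nat.lt_succ_iff.1 k.2)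
  rcases Nat.eq_zero_or_pos (d - (k : ℕ)) with h0 | h0
  · rw [h0]; simp
  · have h1 : lam ^ (d - 1) = lam ^ (k : ℕ) * lam ^ (d - k - 1) := by
      rw [← pow_add]
      congr 1
      omega
    rw [h1]
    simp only [Prod.smul_fst, Prod.smul_snd, smul_eq_mul, mul_pow]
    ring

theorem JJ_smul {d : ℕ} (X : CV d) (lam : ℂ) (u : ℂ × ℂ) :
    JJ X (lam • u) = lam ^ (2 * (d - 1)) * JJ X u := by
  rw [JJ, JJ, hev1_smul, hev1_smul, hev2_smul, hev2_smul, two_mul, pow_add]; ring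

theorem euler {d : ℕ} (p : Fin (d + 1) → ℂ) (u : ℂ × ℂ) :
    hev1 p u * u.1 + hev2 p u * u.2 = d * hev p u := by
  unfold hev1 hev2 hev
  rw [sum_mul, sum_mul, mul_sum, ← sum_add_distrib]
  refine sum_congr rfl fun k _ => ?_
  have hk : (k : ℕ) + (d - k) = d := Nat.add_sub_cancel' (Nat.lt_succ_iff.1 k.2)
  have h1 : ((k : ℕ) : ℂ) * u.1 ^ ((k : ℕ) - 1) * u.1 = (k : ℕ) * u.1 ^ (k : ℕ) := by
    rcases Nat.eq_zero_or_pos (k : ℕ) with h0 | h0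
    · rw [h0]; simp
    · rw [mul_assoc, ← pow_succ, Nat.sub_add_cancel h0]
  have h2 : ((d - k : ℕ) : ℂ) * u.2 ^ (d - k - 1) * u.2 = ((d - k : ℕ) : ℂ) * u.2 ^ (d - k) := by
    rcases Nat.eq_zero_or_pos (d - (k : ℕ)) with h0 | h0
    · rw [h0]; simp
    · rw [mul_assoc, ← pow_succ, Nat.sub_add_cancel h0]
  have h3 : (((k : ℕ) : ℂ)) + ((d - k : ℕ) : ℂ) = d := by
    rw [← Nat.cast_add, hk]
  calc p k * ((k : ℕ) * u.1 ^ ((k : ℕ) - 1)) * u.2 ^ (d - k) * u.1 +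
        p k * u.1 ^ (k : ℕ) * (((d - k : ℕ) : ℂ) * u.2 ^ (d - k - 1)) * u.2
      = p k * (((k : ℕ) : ℂ) * u.1 ^ ((k : ℕ) - 1) * u.1) * u.2 ^ (d - k) +
        p k * u.1 ^ (k : ℕ) * (((d - k : ℕ) : ℂ) * u.2 ^ (d - k - 1) * u.2) := by ring
    _ = (((k : ℕ) : ℂ) + ((d - k : ℕ) : ℂ)) * (p k * u.1 ^ (k : ℕ) * u.2 ^ (d - k)) := by
      rw [h1, h2]; ring
    _ = d * (p k * u.1 ^ (k : ℕ) * u.2 ^ (d - k)) := by rw [h3]

theorem jac {d : ℕ} (X : CV d) (w v : ℂ × ℂ) :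
    (d : ℂ) * (hev X.1 w * (hev1 X.2 w * v.1 + hev2 X.2 w * v.2) -
      hev X.2 w * (hev1 X.1 w * v.1 + hev2 X.1 w * v.2)) = wd w v * JJ X w := by
  have h1 := euler X.1 w
  have h2 := euler X.2 w
  rw [JJ, wd]
  linear_combination (-(hev1 X.2 w * v.1 + hev2 X.2 w * v.2)) * h1 + (hev1 X.1 w * v.1 + hev2 X.1 w * v.2) * h2

theorem nuF_sq {d : ℕ} (X : CV d) (u : ℂ × ℂ) : nuF X u ^ 2 = n2 (FF X u) :=
  Real.sq_sqrt (n2_nonneg _)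

theorem nuF_nonneg {d : ℕ} (X : CV d) (u : ℂ × ℂ) : 0 ≤ nuF X u := Real.sqrt_nonneg _

theorem nuF_smul {d : ℕ} (X : CV d) (lam : ℂ) (u : ℂ × ℂ) : nuF X (lam • u) = ‖lam‖ ^ d * nuF X u := by
  rw [nuF, nuF, FF_smul, n2_smul, norm_pow, Real.sqrt_mul (by positivity), Real.sqrt_sq (by positivity)]

/-- Cauchy-Schwarz for the wedge product -/
theorem wd_cs (u v : ℂ × ℂ) : ‖wd u v‖ ^ 2 ≤ n2 u * n2 v := by
  unfold wd n2
  have h1 : ‖u.1 * v.2 - u.2 * v.1‖ ≤ ‖u.1‖ * ‖v.2‖ + ‖u.2‖ * ‖v.1‖ := by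
    refine (norm_sub_le _ _).trans ?_
    rw [norm_mul, norm_mul]
  have h2 : ‖u.1 * v.2 - u.2 * v.1‖ ^ 2 ≤ (‖u.1‖ * ‖v.2‖ + ‖u.2‖ * ‖v.1‖) ^ 2 :=
    pow_le_pow_left₀ (norm_nonneg _) h1 2
  nlinarith [sq_nonneg (‖u.1‖ * ‖v.1‖ - ‖u.2‖ * ‖v.2‖)]

theorem wd_cs' (u v : ℂ × ℂ) : ‖wd u v‖ ≤ Real.sqrt (n2 u) * Real.sqrt (n2 v) := by
  rw [← Real.sqrt_mul (n2_nonneg u)]
  exact Real.le_sqrt_of_sq_le (wd_cs u v)

/-- triangle inequality for the euclidean norm -/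
theorem n2_add_le (u v : ℂ × ℂ) : Real.sqrt (n2 (u + v)) ≤ Real.sqrt (n2 u) + Real.sqrt (n2 v) := by
  have hu := n2_nonneg u
  have hv := n2_nonneg v
  rw [← Real.sqrt_sq (add_nonneg (Real.sqrt_nonneg (n2 u)) (Real.sqrt_nonneg (n2 v)))]
  apply Real.sqrt_le_sqrt
  rw [add_sq, Real.sq_sqrt hu, Real.sq_sqrt hv]
  have h1 : ‖(u + v).1‖ ≤ ‖u.1‖ + ‖v.1‖ := norm_add_le _ _
  have h2 : ‖(u + v).2‖ ≤ ‖u.2‖ + ‖v.2‖ := norm_add_le _ _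
  have h1' := pow_le_pow_left₀ (norm_nonneg _) h1 2
  have h2' := pow_le_pow_left₀ (norm_nonneg _) h2 2
  have h3 : ‖u.1‖ * ‖v.1‖ + ‖u.2‖ * ‖v.2‖ ≤ Real.sqrt (n2 u) * Real.sqrt (n2 v) := by
    rw [← Real.sqrt_mul hu]
    apply Real.le_sqrt_of_sq_le
    unfold n2
    nlinarith [sq_nonneg (‖u.1‖ * ‖v.2‖ - ‖u.2‖ * ‖v.1‖)]
  have h4 : n2 (u + v) = ‖(u + v).1‖ ^ 2 + ‖(u + v).2‖ ^ 2 := rfl
  have h5 : n2 u = ‖u.1‖ ^ 2 + ‖u.2‖ ^ 2 := rfl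
  have h6 : n2 v = ‖v.1‖ ^ 2 + ‖v.2‖ ^ 2 := rfl
  rw [h4]
  nlinarith

end Pool.Agent.H47.SF
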