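import Pool.Agent.H47.SF.Nd
import Pool.Agent.H73.ES.Meas
import Pool.Agent.H73.ES.Cau

/-!
# [H47 SF NDA] the nondegeneracy condition fails only if four fixed functionals are small at a net point
-/

set_option autoImplicit false

open Finset
open Pool.H70.SF

namespace Pool.Agent.H47.SF

open Pool.Agent.H73.ES (jv hm rsP jt)

theorem Wc_zero_jv {d : ℕ} (hd : 1 ≤ d) (X : CV d) {z : ℂ × ℂ} (hz : IsU z) :
    Wc X z 0 = wd (FF X z) (jv X z 1) := by
  have h := Pool.Agent.H73.ES.hrel X hz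
  have hd0 : (d : ℂ) ≠ 0 := by
    have : d ≠ 0 := by omega
    exact_mod_cast this
  rw [Wc, zero_smul, add_zero, ← h]
  field_simp

theorem deriv_Wc_zero_jv {d : ℕ} (hd : 1 ≤ d) (X : CV d) {z : ℂ × ℂ} (hz : IsU z) :
    deriv (Wc X z) 0 = 2 * wd (FF X z) (jv X z 2) := by
  have key : ∀ p : Fin (d + 1) → ℂ, ch p z 0 = hev p z ∧ deriv (deriv (ch p z)) 0 = 2 * jt p z 2 := by
    intro p
    have h1 : ch p z = fun t => (rsP p z).eval t := by
      funext t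
      rw [Pool.Agent.H73.ES.rs_eval]
      rfl
    constructor
    · rw [ch, zero_smul, add_zero]
    · rw [h1]
      have h2 : deriv (fun t => (rsP p z).eval t) = fun t => (rsP p z).derivative.eval t := by
        funext t
        exact Polynomial.deriv _
      rw [h2, Polynomial.deriv]
      rw [← Polynomial.coeff_zero_eq_eval_zero, Polynomial.coeff_derivative, Polynomial.coeff_derivative]
      rw [jt]
      push_cast
      ring
  rw [deriv_Wc hd X hz, (key X.1).1, (key X.2).1, (key X.1).2, (key X.2).2]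
  unfold wd FF jv
  simp only
  ring

theorem nuF_eq {d : ℕ} (X : CV d) (u : ℂ × ℂ) : nuF X u = Pool.Agent.H73.ES.nn (FF X u) := rfl

/-- change of the target basis -/
theorem target {F G w : ℂ × ℂ} (hw : IsU w) :
    ‖hm F w‖ * ‖wd G w‖ ≤ ‖wd F G‖ + ‖wd F w‖ * Pool.Agent.H73.ES.nn G := by
  have h1 := Pool.Agent.H73.ES.dec hw F
  have h2 : wd F G = hm F w * wd w G + wd w F * wd (Pool.Agent.H73.ES.pp w) G := by
    conv_lhs => rw [h1]
    unfold wd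
    simp only [Prod.fst_add, Prod.snd_add, Prod.smul_fst, Prod.smul_snd, smul_eq_mul]
    ring
  have h3 : hm F w * wd w G = wd F G - wd w F * wd (Pool.Agent.H73.ES.pp w) G := by
    rw [h2]; ring
  have h4 : ‖wd (Pool.Agent.H73.ES.pp w) G‖ ≤ Pool.Agent.H73.ES.nn G := by
    have h5 := Pool.Agent.H73.ES.wd_le (Pool.Agent.H73.ES.pp w) G
    have h6 : Pool.Agent.H73.ES.nn (Pool.Agent.H73.ES.pp w) = 1 := by
      have h7 : n2 (Pool.Agent.H73.ES.pp w) = 1 := by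
        have h8 : n2 w = 1 := hw
        unfold n2 at h8 ⊢
        unfold Pool.Agent.H73.ES.pp
        simp only [norm_neg, RCLike.norm_conj]
        linarith
      unfold Pool.Agent.H73.ES.nn
      rw [h7, Real.sqrt_one]
    rwa [h6, one_mul] at h5
  calc ‖hm F w‖ * ‖wd G w‖ = ‖hm F w * wd w G‖ := by rw [norm_mul, wd_comm w G]
    _ = ‖wd F G - wd w F * wd (Pool.Agent.H73.ES.pp w) G‖ := by rw [h3]
    _ ≤ ‖wd F G‖ + ‖wd w F * wd (Pool.Agent.H73.ES.pp w) G‖ := norm_sub_le _ _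
    _ ≤ ‖wd F G‖ + ‖wd F w‖ * Pool.Agent.H73.ES.nn G := by
        rw [norm_mul, wd_comm w F]
        gcongr

/-- the deterministic half of the event -/
theorem nd_point {n0 d : ℕ} {R : ℝ} {X : CV d} (S : Sz n0 d R) (hi : ∀ u, IsU u → nuF X u ≤ R)
    (lo : ∀ u, IsU u → (d : ℝ)⁻¹ ≤ nuF X u) {u : ℂ × ℂ} (hu : IsU u) (ha : ‖aa X u‖ < qq d ^ 3)
    (hno : ∀ t : ℂ, ‖t‖ < nuF X u / (16 * R * Real.sqrt d * qq d ^ 2) → Wc X u t ≠ 0)
    {s : ℝ} (hs : 0 < s) (hs1 : s ≤ nuF X u) (hs2 : nuF X u ≤ 2 * s) {z w : ℂ × ℂ} (hz : IsU z) (hw : IsU w)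
    (h1 : ‖wd u z‖ ≤ s / (500 * R * Real.sqrt d * qq d ^ 2 * Real.log d))
    (h2 : ‖wd (nx X z) w‖ ≤ s / (R * Real.sqrt d)) :
    ‖wd (FF X z) w‖ ≤ 4 * s * (s / (R * Real.sqrt d)) ∧ ‖hm (FF X z) w‖ ≤ 4 * s ∧
      ‖wd (jv X z 1) w‖ ≤ 56 * qq d ^ 3 * s ∧ ‖wd (jv X z 2) w‖ ≤ 3 * qq d ^ 7 * Real.sqrt d := by
  have hd2 := S.d2
  have hd1 : 1 ≤ d := by omega
  have hd0 : (0 : ℝ) < d := by positivity
  have hsd : 0 < Real.sqrt d := Real.sqrt_pos.2 hd0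
  have hR := S.R1
  have hR0 : 0 < R := by linarith
  have h4Q : (1000 : ℝ) ≤ qq d := le_trans (by
    calc (1000 : ℝ) ≤ 4 ^ 5 := by norm_num
      _ ≤ 4 ^ 710 := pow_le_pow_right₀ (by norm_num) (by norm_num)) S.q1
  have hQ0 : 0 < qq d := by linarith
  have hlog : 0 < Real.log d := Real.log_pos (by exact_mod_cast hd2)
  have hss : Real.sqrt d * Real.sqrt d = d := Real.mul_self_sqrt hd0.le
  obtain ⟨n1, n2', n3, n4⟩ := nd_fail S hi lo hu ha hno hz (h1.trans (by gcongr))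
  set ν := nuF X z with hν
  have hνpos : 0 < ν := by
    have : 0 < nuF X u := lt_of_lt_of_le hs hs1
    linarith
  have hν4 : ν ≤ 4 * s := by linarith
  have hνs : s / 2 ≤ ν := by linarith
  have hsR : s ≤ R := hs1.trans (hi u hu)
  -- ω ≤ 1/2
  set ω := s / (R * Real.sqrt d) with hω
  have hω0 : 0 < ω := by positivity
  have hsqrt : (2 : ℝ) ≤ Real.sqrt d := by
    rw [← S.qs]
    calc (2:ℝ) ≤ qq d := by linarith
      _ = qq d ^ 1 := (pow_one _).symm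
      _ ≤ qq d ^ 100 := pow_le_pow_right₀ (by linarith) (by norm_num)
  have hω1 : ω ≤ 1 / 2 := by
    rw [hω, div_le_iff₀ (by positivity)]
    nlinarith
  have hnn : ν = Pool.Agent.H73.ES.nn (FF X z) := rfl
  have hnx : nx X z = ((ν⁻¹ : ℝ) : ℂ) • FF X z := rfl
  -- first functional
  have hF1 : ‖wd (FF X z) w‖ = ν * ‖wd (nx X z) w‖ := by
    have : wd (nx X z) w = ((ν⁻¹ : ℝ) : ℂ) * wd (FF X z) w := by
      rw [hnx]; unfold wd
      simp only [Prod.smul_fst, Prod.smul_snd, smul_eq_mul]; ring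
    rw [this, norm_mul, Complex.norm_real, Real.norm_of_nonneg (by positivity)]
    field_simp
  have hF1' : ‖wd (FF X z) w‖ ≤ ν * ω := by rw [hF1]; gcongr
  have r1 : ‖wd (FF X z) w‖ ≤ 4 * s * ω := hF1'.trans (by gcongr)
  have r2 : ‖hm (FF X z) w‖ ≤ 4 * s := by
    have h := Pool.Agent.H73.ES.hm_le (FF X z) w
    have h' : Pool.Agent.H73.ES.nn w = 1 := by
      unfold Pool.Agent.H73.ES.nn
      rw [show n2 w = 1 from hw, Real.sqrt_one]
    rw [h', mul_one, ← hnn] at h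
    exact h.trans hν4
  -- lower bound for hm
  have hhm : 2 / 5 * s ≤ ‖hm (FF X z) w‖ := by
    have hl := Pool.Agent.H73.ES.lag (FF X z) w
    rw [show n2 w = 1 from hw, mul_one, ← nuF_sq] at hl
    have h5 : ‖wd (FF X z) w‖ ^ 2 ≤ (ν * (1/2)) ^ 2 :=
      pow_le_pow_left₀ (norm_nonneg _) (hF1'.trans (by gcongr)) 2
    have h6 : (2 / 5 * s) ^ 2 ≤ ‖hm (FF X z) w‖ ^ 2 := by
      have h7 : (s / 2) ^ 2 ≤ ν ^ 2 := pow_le_pow_left₀ (by positivity) hνs 2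
      have h8 : nuF X z ^ 2 = ν ^ 2 := rfl
      rw [h8] at hl
      nlinarith
    exact le_of_sq_le_sq h6 (norm_nonneg _)
  have hjet := Pool.Agent.H73.ES.cau_jet hd1 (X := X) (R := R) hi hz
  refine ⟨r1, r2, ?_, ?_⟩
  · have ht := target (F := FF X z) (G := jv X z 1) hw
    rw [← Wc_zero_jv hd1 X hz] at ht
    have hj := hjet 1
    rw [pow_one] at hj
    have e1 : ‖wd (FF X z) w‖ * Pool.Agent.H73.ES.nn (jv X z 1) ≤ 4 * s * ω * (2 * R * Real.sqrt d) := by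
      apply mul_le_mul r1 hj (Real.sqrt_nonneg _) (by positivity)
    have e2 : 4 * s * ω * (2 * R * Real.sqrt d) = 8 * s ^ 2 := by
      rw [hω]; field_simp; ring
    have e3 : ‖Wc X z 0‖ ≤ 12 * qq d ^ 3 * s ^ 2 := by
      refine n3.trans ?_
      have : nuF X u ^ 2 ≤ (2 * s) ^ 2 := pow_le_pow_left₀ (nuF_nonneg X u) hs2 2
      calc 3 * qq d ^ 3 * nuF X u ^ 2 ≤ 3 * qq d ^ 3 * (2 * s) ^ 2 := by gcongr
        _ = 12 * qq d ^ 3 * s ^ 2 := by ring
    have e4 : 2 / 5 * s * ‖wd (jv X z 1) w‖ ≤ 2 / 5 * s * (56 * qq d ^ 3 * s) := by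
      calc 2 / 5 * s * ‖wd (jv X z 1) w‖ ≤ ‖hm (FF X z) w‖ * ‖wd (jv X z 1) w‖ := by gcongr
        _ ≤ 12 * qq d ^ 3 * s ^ 2 + 8 * s ^ 2 := by linarith
        _ ≤ 2 / 5 * s * (56 * qq d ^ 3 * s) := by
            have : (1:ℝ) ≤ qq d ^ 3 := one_le_pow₀ (by linarith)
            nlinarith [sq_nonneg s, mul_nonneg (sub_nonneg.2 this) (sq_nonneg s)]
    exact le_of_mul_le_mul_left e4 (by positivity)
  · have ht := target (F := FF X z) (G := jv X z 2) hw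
    have hdj := deriv_Wc_zero_jv hd1 X hz
    have hj := hjet 2
    have e1 : ‖wd (FF X z) w‖ * Pool.Agent.H73.ES.nn (jv X z 2) ≤ 4 * s * ω * (2 * R * Real.sqrt d ^ 2) := by
      apply mul_le_mul r1 hj (Real.sqrt_nonneg _) (by positivity)
    have e2 : 4 * s * ω * (2 * R * Real.sqrt d ^ 2) = 8 * s ^ 2 * Real.sqrt d := by
      rw [hω]; field_simp; ring
    have e3 : ‖wd (FF X z) (jv X z 2)‖ ≤ qq d ^ 7 * Real.sqrt d * s := by
      have h5 : 2 * ‖wd (FF X z) (jv X z 2)‖ ≤ qq d ^ 7 * Real.sqrt d * (2 * s) := by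
        calc 2 * ‖wd (FF X z) (jv X z 2)‖ = ‖deriv (Wc X z) 0‖ := by rw [hdj, norm_mul]; norm_num
          _ ≤ qq d ^ 7 * Real.sqrt d * nuF X u := n4
          _ ≤ qq d ^ 7 * Real.sqrt d * (2 * s) := by gcongr
      linarith
    have hRQ : 20 * R ≤ 1 / 2 * qq d ^ 7 := by
      have h6 : 256 * R ^ 3 ≤ qq d := S.q3
      have h7 : R ≤ R ^ 3 := le_self_pow₀ hR (by norm_num)
      have h8 : qq d ≤ qq d ^ 7 := le_self_pow₀ (by linarith) (by norm_num)
      nlinarith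
    have e4 : 2 / 5 * s * ‖wd (jv X z 2) w‖ ≤ 2 / 5 * s * (3 * qq d ^ 7 * Real.sqrt d) := by
      calc 2 / 5 * s * ‖wd (jv X z 2) w‖ ≤ ‖hm (FF X z) w‖ * ‖wd (jv X z 2) w‖ := by gcongr
        _ ≤ qq d ^ 7 * Real.sqrt d * s + 8 * s ^ 2 * Real.sqrt d := by linarith
        _ = 2 / 5 * s * ((5 / 2 * qq d ^ 7 + 20 * s) * Real.sqrt d) := by ring
        _ ≤ 2 / 5 * s * ((5 / 2 * qq d ^ 7 + 20 * R) * Real.sqrt d) := by gcongr
        _ ≤ 2 / 5 * s * ((5 / 2 * qq d ^ 7 + 1 / 2 * qq d ^ 7) * Real.sqrt d) := by gcongr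
        _ = 2 / 5 * s * (3 * qq d ^ 7 * Real.sqrt d) := by ring
    exact le_of_mul_le_mul_left e4 (by positivity)

end Pool.Agent.H47.SF
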