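import Pool.Agent.H47.SF.Gde

/-!
# [H47 SF PZ] the bad blocks (p = 0)

PROOF (section 7 (d) of the text), `Q = qq d`, `K = KD`, `400 R K^2 2^n0 ≤ Q`, exponents `s, g, h` from `A.es c`. `y_0 = f c`, `y_1 = f (f c)`.
`K a r ≤ K^2 a^2 / F2 ≤ K^2 Q^6 d^(s-1)` (`r ≤ K a/F2`, `F2 ≥ d^(1-s) > 0`, `a < Q^3`). With `dl_ge` (`l = 0`): `d^(-h0-1/2-g0)/(400 R) ≤ dl < 2^n0 K^2 Q^6 d^(s-1)`, so `d^(-h0-g0) ≤ Q^7 d^(s-1/2)`:
`s + h0 + g0 ≥ 1/2 - 7/200` (take logarithms, `d = Q^200`, `Q > 1`). With `2 s + g0 + 2 h0 + g1 + 2 h1 ≤ 1/2 + 1/400`: `s + h0 + g1 + 2 h1 ≤ 7/200 + 1/400 ≤ 8/200`. Hence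
`F2 ≥ d^(1-s) ≥ d/Q^8`, `ν (y_0) ≥ Q^(-8)`, `ν (y_1) ≥ d^(-h1) ≥ Q^(-4)`, `a (y_1) ≥ d^(1/2-g1) ≥ sqrt d/Q^8`;
`D x c ≤ r ≤ K a/F2 ≤ K Q^3 Q^8/d ≤ Q^12/d`; `D (f x) (f c) ≤ K a r ≤ K^2 Q^6 Q^8/d ≤ Q^15/d`;
`min 1 (a (y_0)/sqrt d) < 2^n0 K a r * 400 R sqrt d/ν (y_0) ≤ Q^15/d * Q * sqrt d * Q^8 = Q^24/sqrt d < 1` (`400 R 2^n0 ≤ Q`), so the min is `a (y_0)/sqrt d` and `a (y_0) ≤ Q^24`.
-/

set_option autoImplicit false

open Finset

namespace Pool.Agent.H47.SF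

variable {Y : Type} {n0 d : ℕ} {R : ℝ} {f : Y → Y} {a ν : Y → ℝ} {D : Y → Y → ℝ} {Cr : Set Y} {F2 : Y → ℝ}

private theorem pz_pow (hd : (0 : ℝ) < d) (n : ℕ) : (d : ℝ) ^ ((n : ℝ) / 200) = qq d ^ n := by
  unfold qq
  rw [← Real.rpow_natCast, ← Real.rpow_mul hd.le]
  congr 1
  ring

theorem pz (A : Abs n0 d R f a ν D Cr F2) (S : Sz n0 d R) (hn : 1 ≤ n0) {x c : Y} (hx : (qq d)⁻¹ ≤ a x)
    (hx3 : a x < qq d ^ 3) (hc : c ∈ Cr) {r : ℝ} (hr : 0 < r) (h1 : D x c ≤ r)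
    (h2 : D (f x) (f c) ≤ KD * a x * r) (h3 : F2 c * r ≤ KD * a x)
    (hstop : dl d R (ν (f c)) (a (f c)) < 2 ^ n0 * (KD * a x * r)) : BadP d f a ν D Cr x := by
  have hd2 : (2 : ℝ) ≤ d := by exact_mod_cast S.d2
  have hd0 : (0 : ℝ) < d := by linarith
  have hd1 : (1 : ℝ) < d := by linarith
  have hR1 := S.R1
  obtain ⟨Q, hQ⟩ : ∃ Q, Q = qq d := ⟨_, rfl⟩
  have hpow : ∀ n : ℕ, (d : ℝ) ^ ((n : ℝ) / 200) = Q ^ n := by
    intro n
    rw [hQ]
    exact pz_pow hd0 n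
  have hQd : Q ^ 200 = d := by rw [hQ]; exact S.qd
  have hQs : Q ^ 100 = Real.sqrt d := by rw [hQ]; exact S.qs
  have hQ1 : 1 < Q := by
    rw [hQ]
    exact lt_of_lt_of_le (one_lt_pow₀ (by norm_num) (by norm_num)) S.q1
  have hQ0 : 0 < Q := lt_trans one_pos hQ1
  have hK1 : 1 ≤ KD := by
    unfold KD
    exact one_le_mul_of_one_le_of_one_le (by norm_num) (one_le_pow₀ (by norm_num))
  have hK0 : 0 < KD := lt_of_lt_of_le one_pos hK1
  have hq2 : 400 * R * KD ^ 2 * 8 ^ n0 ≤ Q := by rw [hQ]; exact S.q2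
  have h28 : (2 : ℝ) ^ n0 ≤ 8 ^ n0 := pow_le_pow_left₀ (by norm_num) (by norm_num) _
  have h2n1 : (1 : ℝ) ≤ 2 ^ n0 := one_le_pow₀ (by norm_num)
  have hq2' : 400 * R * KD ^ 2 * 2 ^ n0 ≤ Q :=
    (mul_le_mul_of_nonneg_left h28 (by positivity)).trans hq2
  have hK2Q : KD ^ 2 ≤ Q := by
    have h5 : (1 : ℝ) ≤ 400 * R * 2 ^ n0 :=
      one_le_mul_of_one_le_of_one_le (by linarith) h2n1
    calc KD ^ 2 = KD ^ 2 * 1 := (mul_one _).symm
      _ ≤ KD ^ 2 * (400 * R * 2 ^ n0) := mul_le_mul_of_nonneg_left h5 (by positivity)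
      _ = 400 * R * KD ^ 2 * 2 ^ n0 := by ring
      _ ≤ Q := hq2'
  have hKQ : KD ≤ Q := by
    refine le_trans ?_ hK2Q
    rw [sq]
    exact le_mul_of_one_le_left hK0.le hK1
  rw [← hQ] at hx hx3
  have hax0 : 0 < a x := lt_of_lt_of_le (inv_pos.2 hQ0) hx
  obtain ⟨s, g, h, hs, hg, hh, hF, ha, hν, hsum⟩ := A.es c hc
  -- the partial sum
  have hpart : 2 * s + (g 0 + 2 * h 0) + (g 1 + 2 * h 1) ≤ 1 / 2 + 1 / 400 := by
    have h5 : ∑ l ∈ range 2, (g l + 2 * h l) ≤ ∑ l ∈ range (n0 + 1), (g l + 2 * h l) := by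
      apply sum_le_sum_of_subset_of_nonneg
      · intro l hl
        rw [mem_range] at hl ⊢
        omega
      · intro l _ _
        have := hg l
        have := hh l
        linarith
    rw [sum_range_succ, sum_range_one] at h5
    linarith
  have hF0 : 0 < F2 c := lt_of_lt_of_le (Real.rpow_pos_of_pos hd0 _) hF
  have ha0 : (d : ℝ) ^ (1 / 2 - g 0) ≤ a (f c) := ha 0 (Nat.zero_le _)
  have hν0 : (d : ℝ) ^ (-h 0) ≤ ν (f c) := hν 0 (Nat.zero_le _)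
  have ha1 : (d : ℝ) ^ (1 / 2 - g 1) ≤ a (f (f c)) := ha 1 hn
  have hν1 : (d : ℝ) ^ (-h 1) ≤ ν (f (f c)) := hν 1 hn
  have hr1 : r ≤ KD * a x / F2 c := by
    rw [le_div_iff₀ hF0, mul_comm]
    exact h3
  have hax3 : a x ≤ Q ^ 3 := hx3.le
  -- K a r
  have hKar : KD * a x * r ≤ KD ^ 2 * Q ^ 6 / F2 c := by
    calc KD * a x * r ≤ KD * a x * (KD * a x / F2 c) :=
          mul_le_mul_of_nonneg_left hr1 (by positivity)
      _ = KD ^ 2 * (a x) ^ 2 / F2 c := by ring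
      _ ≤ KD ^ 2 * Q ^ 6 / F2 c := by
          apply div_le_div_of_nonneg_right _ hF0.le
          apply mul_le_mul_of_nonneg_left _ (by positivity)
          calc (a x) ^ 2 ≤ (Q ^ 3) ^ 2 := pow_le_pow_left₀ hax0.le hax3 2
            _ = Q ^ 6 := by ring
  have hdl := dl_ge (d := d) (R := R) (by exact_mod_cast hd1.le) hR1 hν0 ha0 (hg 0)
  have hkey : 1 / 2 - 7 / 200 < s + h 0 + g 0 := by
    have h6 : (d : ℝ) ^ (-h 0 - 1 / 2 - g 0) / (400 * R) <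
        2 ^ n0 * (KD ^ 2 * Q ^ 6 / (d : ℝ) ^ (1 - s)) := by
      refine hdl.trans_lt (hstop.trans_le ?_)
      apply mul_le_mul_of_nonneg_left _ (by positivity)
      exact hKar.trans (div_le_div_of_nonneg_left (by positivity) (Real.rpow_pos_of_pos hd0 _) hF)
    have h7 : (d : ℝ) ^ (-h 0 - 1 / 2 - g 0) < (d : ℝ) ^ ((7 : ℝ) / 200 + (s - 1)) := by
      rw [div_lt_iff₀ (by positivity)] at h6
      refine h6.trans_le ?_
      have h8 : (d : ℝ) ^ ((7 : ℝ) / 200 + (s - 1)) = Q ^ 7 * (d : ℝ) ^ (s - 1) := by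
        rw [Real.rpow_add hd0]
        congr 1
        exact_mod_cast hpow 7
      have h9 : (d : ℝ) ^ (s - 1) = ((d : ℝ) ^ (1 - s))⁻¹ := by
        rw [← Real.rpow_neg hd0.le]
        congr 1
        ring
      rw [h8, h9]
      have h10 : 0 < ((d : ℝ) ^ (1 - s))⁻¹ := inv_pos.2 (Real.rpow_pos_of_pos hd0 _)
      calc 2 ^ n0 * (KD ^ 2 * Q ^ 6 / (d : ℝ) ^ (1 - s)) * (400 * R) =
          (400 * R * KD ^ 2 * 2 ^ n0) * Q ^ 6 * ((d : ℝ) ^ (1 - s))⁻¹ := by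
            rw [div_eq_mul_inv]; ring
        _ ≤ Q * Q ^ 6 * ((d : ℝ) ^ (1 - s))⁻¹ := by
            apply mul_le_mul_of_nonneg_right _ h10.le
            exact mul_le_mul_of_nonneg_right hq2' (by positivity)
        _ = Q ^ 7 * ((d : ℝ) ^ (1 - s))⁻¹ := by ring
    have h11 := (Real.rpow_lt_rpow_left_iff hd1).1 h7
    linarith
  have hsmall : s + h 0 + g 1 + 2 * h 1 ≤ 8 / 200 := by linarith
  have hh0 := hh 0
  have hh1 := hh 1
  have hg0 := hg 0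
  have hg1 := hg 1
  have hF8 : (d : ℝ) / Q ^ 8 ≤ F2 c := by
    refine le_trans ?_ hF
    have h12 : (d : ℝ) / Q ^ 8 = (d : ℝ) ^ (((192 : ℕ) : ℝ) / 200) := by
      rw [hpow, ← hQd]
      field_simp
    rw [h12]
    apply Real.rpow_le_rpow_of_exponent_le hd1.le
    push_cast
    linarith
  have hν8 : (Q ^ 8)⁻¹ ≤ ν (f c) := by
    refine le_trans ?_ hν0
    rw [← hpow, ← Real.rpow_neg hd0.le]
    apply Real.rpow_le_rpow_of_exponent_le hd1.le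
    push_cast
    linarith
  have hν4 : (Q ^ 4)⁻¹ ≤ ν (f (f c)) := by
    refine le_trans ?_ hν1
    rw [← hpow, ← Real.rpow_neg hd0.le]
    apply Real.rpow_le_rpow_of_exponent_le hd1.le
    push_cast
    linarith
  have ha8 : Real.sqrt d / Q ^ 8 ≤ a (f (f c)) := by
    refine le_trans ?_ ha1
    have h12 : Real.sqrt d / Q ^ 8 = (d : ℝ) ^ (((92 : ℕ) : ℝ) / 200) := by
      rw [hpow, ← hQs]
      field_simp
    rw [h12]
    apply Real.rpow_le_rpow_of_exponent_le hd1.le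
    push_cast
    linarith
  have hinvF : 1 / F2 c ≤ Q ^ 8 / d := by
    rw [div_le_div_iff₀ hF0 hd0]
    rw [div_le_iff₀ (by positivity)] at hF8
    linarith
  have hQK : KD * Q ^ 11 ≤ Q ^ 12 := by
    calc KD * Q ^ 11 ≤ Q * Q ^ 11 := mul_le_mul_of_nonneg_right hKQ (by positivity)
      _ = Q ^ 12 := by ring
  have hr12 : r ≤ Q ^ 12 / d := by
    calc r ≤ KD * a x / F2 c := hr1
      _ = KD * a x * (1 / F2 c) := by ring
      _ ≤ KD * Q ^ 3 * (Q ^ 8 / d) := by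
          apply mul_le_mul _ hinvF (by positivity) (by positivity)
          exact mul_le_mul_of_nonneg_left hax3 hK0.le
      _ = KD * Q ^ 11 / d := by ring
      _ ≤ Q ^ 12 / d := div_le_div_of_nonneg_right hQK hd0.le
  have hKar2 : KD * a x * r ≤ KD ^ 2 * Q ^ 14 / d := by
    calc KD * a x * r ≤ KD ^ 2 * Q ^ 6 / F2 c := hKar
      _ = KD ^ 2 * Q ^ 6 * (1 / F2 c) := by ring
      _ ≤ KD ^ 2 * Q ^ 6 * (Q ^ 8 / d) := mul_le_mul_of_nonneg_left hinvF (by positivity)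
      _ = KD ^ 2 * Q ^ 14 / d := by ring
  have hKar15 : KD * a x * r ≤ Q ^ 15 / d := by
    refine hKar2.trans (div_le_div_of_nonneg_right ?_ hd0.le)
    calc KD ^ 2 * Q ^ 14 ≤ Q * Q ^ 14 := mul_le_mul_of_nonneg_right hK2Q (by positivity)
      _ = Q ^ 15 := by ring
  have hsq0 : 0 < Real.sqrt d := Real.sqrt_pos.2 hd0
  have hsqd : Real.sqrt d * Real.sqrt d = d := Real.mul_self_sqrt hd0.le
  have hν0p : 0 < ν (f c) := lt_of_lt_of_le (by positivity) hν8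
  have ha24 : a (f c) ≤ Q ^ 24 := by
    have hmin : min 1 (a (f c) / Real.sqrt d) < Q ^ 23 / Real.sqrt d := by
      have h13 : ν (f c) / (400 * R * Real.sqrt d) * min 1 (a (f c) / Real.sqrt d) <
          2 ^ n0 * (KD ^ 2 * Q ^ 14 / d) := by
        refine lt_of_lt_of_le hstop ?_
        exact mul_le_mul_of_nonneg_left hKar2 (by positivity)
      have hpos : 0 < ν (f c) / (400 * R * Real.sqrt d) := by positivity
      have h14 : min 1 (a (f c) / Real.sqrt d) <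
          2 ^ n0 * (KD ^ 2 * Q ^ 14 / d) / (ν (f c) / (400 * R * Real.sqrt d)) := by
        rw [lt_div_iff₀ hpos, mul_comm]
        exact h13
      refine h14.trans_le ?_
      have hinvν : 1 / ν (f c) ≤ Q ^ 8 := by
        rw [div_le_iff₀ hν0p]
        rw [inv_le_iff_one_le_mul₀ (by positivity)] at hν8
        linarith
      calc 2 ^ n0 * (KD ^ 2 * Q ^ 14 / d) / (ν (f c) / (400 * R * Real.sqrt d)) =
          (400 * R * KD ^ 2 * 2 ^ n0) * Q ^ 14 * (1 / ν (f c)) * (Real.sqrt d / d) := by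
            field_simp
        _ ≤ Q * Q ^ 14 * Q ^ 8 * (Real.sqrt d / d) := by
            apply mul_le_mul_of_nonneg_right _ (by positivity)
            apply mul_le_mul _ hinvν (by positivity) (by positivity)
            exact mul_le_mul_of_nonneg_right hq2' (by positivity)
        _ = Q ^ 23 * (Real.sqrt d / (Real.sqrt d * Real.sqrt d)) := by rw [hsqd]; ring
        _ = Q ^ 23 / Real.sqrt d := by field_simp
    have h23 : Q ^ 23 / Real.sqrt d < 1 := by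
      rw [div_lt_one hsq0, ← hQs]
      exact pow_lt_pow_right₀ hQ1 (by norm_num)
    rcases min_lt_iff.1 hmin with h15 | h15
    · linarith
    · have h16 : a (f c) < Q ^ 23 := by
        rwa [div_lt_div_iff_of_pos_right hsq0] at h15
      have h17 : Q ^ 23 ≤ Q ^ 24 := pow_le_pow_right₀ hQ1.le (by norm_num)
      linarith
  subst hQ
  exact ⟨hx, c, hc, h1.trans hr12, h2.trans hKar15, ha24, hν8, hν4, ha8⟩

end Pool.Agent.H47.SF
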