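import Pool.Agent.H47.SF.Defs

/-!
# [H47 SF SHD] shadowing of the guide and products along orbits

PROOFS. `Pa_succ'`, `Pa_add`, `Pa_pos`, `Pa_nonneg`: products over `range` (`Function.iterate_succ_apply`, `Finset.prod_range_succ'`,
`Finset.prod_range_add`, `Function.iterate_add_apply`).
`shd`: induction on `m ≤ i`. `m = 0`: `Pa _ _ _ 0 = 1`. Step `m < i`: the induction hypothesis and `hi m` give
`D (y_m) (x_(m+1)) ≤ 2 ^ m * h * Pa m ≤ dl ..`, so `A.lin` gives `a (y_m) / 2 ≤ a (x_(m+1))` and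
`D (f y_m) (f x_(m+1)) ≤ 2 * a (y_m) * (2 ^ m * h * Pa m) = 2 ^ (m+1) * h * Pa (m+1)`.
`Pa_half`: product of the inequalities `a (y_m) / 2 ≤ a (x_(m+1))` (all terms nonnegative).
-/

set_option autoImplicit false

open Finset

namespace Pool.Agent.H47.SF

variable {Y : Type}

theorem Pa_zero (a : Y → ℝ) (f : Y → Y) (x : Y) : Pa a f x 0 = 1 := by simp [Pa]

theorem Pa_succ (a : Y → ℝ) (f : Y → Y) (x : Y) (k : ℕ) :
    Pa a f x (k + 1) = Pa a f x k * a (f^[k] x) := by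
  simp [Pa, Finset.prod_range_succ]

theorem Pa_succ' (a : Y → ℝ) (f : Y → Y) (x : Y) (k : ℕ) :
    Pa a f x (k + 1) = a x * Pa a f (f x) k := by
  simp [Pa, Finset.prod_range_succ', mul_comm]

theorem Pa_add (a : Y → ℝ) (f : Y → Y) (x : Y) (k m : ℕ) :
    Pa a f x (k + m) = Pa a f x k * Pa a f (f^[k] x) m := by
  induction m with
  | zero => simp [Pa_zero]
  | succ m ih => rw [← add_assoc, Pa_succ, Pa_succ, ih, ← Function.iterate_add_apply, Nat.add_comm m k, mul_assoc]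

theorem Pa_nonneg {a : Y → ℝ} (ha : ∀ x, 0 ≤ a x) (f : Y → Y) (x : Y) (k : ℕ) : 0 ≤ Pa a f x k :=
  Finset.prod_nonneg fun _ _ => ha _

theorem shd {n0 d : ℕ} {R : ℝ} {f : Y → Y} {a ν : Y → ℝ} {D : Y → Y → ℝ} {Cr : Set Y} {F2 : Y → ℝ}
    (A : Abs n0 d R f a ν D Cr F2) {c x : Y} {h : ℝ} (hd : D (f c) (f x) ≤ h) (i : ℕ)
    (hi : ∀ m < i, 2 ^ m * h * Pa a f (f c) m ≤ dl d R (ν (f^[m] (f c))) (a (f^[m] (f c)))) :
    (∀ m ≤ i, D (f^[m] (f c)) (f^[m] (f x)) ≤ 2 ^ m * h * Pa a f (f c) m) ∧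
      (∀ m < i, a (f^[m] (f c)) / 2 ≤ a (f^[m] (f x))) := by
  have key : ∀ m ≤ i, D (f^[m] (f c)) (f^[m] (f x)) ≤ 2 ^ m * h * Pa a f (f c) m := by
    intro m
    induction m with
    | zero => intro _; simpa [Pa_zero] using hd
    | succ m ih =>
      intro hm
      have h1 := ih (by omega)
      have h2 := A.lin _ _ (h1.trans (hi m (by omega)))
      rw [Function.iterate_succ_apply', Function.iterate_succ_apply', Pa_succ]
      calc D (f (f^[m] (f c))) (f (f^[m] (f x)))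
          ≤ 2 * a (f^[m] (f c)) * D (f^[m] (f c)) (f^[m] (f x)) := h2.2
        _ ≤ 2 * a (f^[m] (f c)) * (2 ^ m * h * Pa a f (f c) m) := by
            apply mul_le_mul_of_nonneg_left h1
            have := A.a0 (f^[m] (f c))
            positivity
        _ = 2 ^ (m + 1) * h * (Pa a f (f c) m * a (f^[m] (f c))) := by ring
  exact ⟨key, fun m hm => (A.lin _ _ ((key m hm.le).trans (hi m hm))).1⟩

theorem Pa_half {a : Y → ℝ} (ha : ∀ x, 0 ≤ a x) {f : Y → Y} {y x : Y} (i : ℕ)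
    (h : ∀ m < i, a (f^[m] y) / 2 ≤ a (f^[m] x)) : ∀ m ≤ i, Pa a f y m / 2 ^ m ≤ Pa a f x m := by
  intro m
  induction m with
  | zero => intro _; simp [Pa_zero]
  | succ m ih =>
    intro hm
    have h1 := ih (by omega)
    have h2 := h m (by omega)
    rw [Pa_succ, Pa_succ, pow_succ]
    calc Pa a f y m * a (f^[m] y) / (2 ^ m * 2) = (Pa a f y m / 2 ^ m) * (a (f^[m] y) / 2) := by
          field_simp
      _ ≤ Pa a f x m * a (f^[m] x) := by
          apply mul_le_mul h1 h2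
          · have := ha (f^[m] y); positivity
          · exact Pa_nonneg ha f x m

end Pool.Agent.H47.SF
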